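import Pool.Agent.Helper96.MP.Defs

namespace Pool.Agent.Helper96.MP

open Matrix

theorem alc_mul {R : Type} [CommRing R] (g h : SpecialLinearGroup (Fin 2) R) (i j : Fin 2) :
    (g * h) i j = g i 0 * h 0 j + g i 1 * h 1 j := by
  have h1 : (g * h).1 = g.1 * h.1 := rfl
  change (g * h).1 i j = g.1 i 0 * h.1 0 j + g.1 i 1 * h.1 1 j
  rw [h1, Matrix.mul_apply, Fin.sum_univ_two]

/-- matrices congruent to `1` modulo `m` -/
def alc_C {R : Type} [CommRing R] (m : R) : Subgroup (SpecialLinearGroup (Fin 2) R) where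
  carrier := {g | m ∣ g 0 0 - 1 ∧ m ∣ g 0 1 ∧ m ∣ g 1 0 ∧ m ∣ g 1 1 - 1}
  mul_mem' := by
    rintro g h ⟨⟨a, ha⟩, ⟨b, hb⟩, ⟨c, hc⟩, ⟨d, hd⟩⟩ ⟨⟨a', ha'⟩, ⟨b', hb'⟩, ⟨c', hc'⟩, ⟨d', hd'⟩⟩
    change m ∣ (g * h) 0 0 - 1 ∧ m ∣ (g * h) 0 1 ∧ m ∣ (g * h) 1 0 ∧ m ∣ (g * h) 1 1 - 1
    rw [alc_mul, alc_mul, alc_mul, alc_mul]
    refine ⟨⟨a * h 0 0 + a' + b * h 1 0, ?_⟩, ⟨g 0 0 * b' + b * h 1 1, ?_⟩,
      ⟨c * h 0 0 + g 1 1 * c', ?_⟩, ⟨c * h 0 1 + d * h 1 1 + d', ?_⟩⟩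
    · linear_combination h 0 0 * ha + ha' + h 1 0 * hb
    · linear_combination g 0 0 * hb' + h 1 1 * hb
    · linear_combination h 0 0 * hc + g 1 1 * hc'
    · linear_combination h 0 1 * hc + h 1 1 * hd + hd'
  one_mem' := by simp
  inv_mem' := by
    rintro g ⟨ha, hb, hc, hd⟩
    have h00 : (g⁻¹) 0 0 = g 1 1 := by simp [SpecialLinearGroup.SL2_inv_expl g]
    have h01 : (g⁻¹) 0 1 = - g 0 1 := by simp [SpecialLinearGroup.SL2_inv_expl g]
    have h10 : (g⁻¹) 1 0 = - g 1 0 := by simp [SpecialLinearGroup.SL2_inv_expl g]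
    have h11 : (g⁻¹) 1 1 = g 0 0 := by simp [SpecialLinearGroup.SL2_inv_expl g]
    change m ∣ (g⁻¹) 0 0 - 1 ∧ m ∣ (g⁻¹) 0 1 ∧ m ∣ (g⁻¹) 1 0 ∧ m ∣ (g⁻¹) 1 1 - 1
    rw [h00, h01, h10, h11]
    exact ⟨hd, (dvd_neg).2 hb, (dvd_neg).2 hc, ha⟩

/-- matrices with upper right entry divisible by `m` -/
def alc_D {R : Type} [CommRing R] (m : R) : Subgroup (SpecialLinearGroup (Fin 2) R) where
  carrier := {g | m ∣ g 0 1}
  mul_mem' := by
    rintro g h ⟨b, hb⟩ ⟨b', hb'⟩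
    change m ∣ (g * h) 0 1
    rw [alc_mul]
    exact ⟨g 0 0 * b' + b * h 1 1, by linear_combination g 0 0 * hb' + h 1 1 * hb⟩
  one_mem' := by simp
  inv_mem' := by
    intro g hb
    have h01 : (g⁻¹) 0 1 = - g 0 1 := by simp [SpecialLinearGroup.SL2_inv_expl g]
    change m ∣ (g⁻¹) 0 1
    rw [h01]
    exact (dvd_neg).2 hb

/-- unipotent upper triangular matrices with entry divisible by `m` -/
def alc_K {R : Type} [CommRing R] (m : R) : Subgroup (SpecialLinearGroup (Fin 2) R) where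
  carrier := {g | g 0 0 = 1 ∧ g 1 0 = 0 ∧ g 1 1 = 1 ∧ m ∣ g 0 1}
  mul_mem' := by
    rintro g h ⟨ha, hc, hd, ⟨b, hb⟩⟩ ⟨ha', hc', hd', ⟨b', hb'⟩⟩
    change (g * h) 0 0 = 1 ∧ (g * h) 1 0 = 0 ∧ (g * h) 1 1 = 1 ∧ m ∣ (g * h) 0 1
    rw [alc_mul, alc_mul, alc_mul, alc_mul]
    refine ⟨?_, ?_, ?_, ⟨b' + b, ?_⟩⟩
    · rw [ha, ha', hc']; ring
    · rw [hc, hc']; ring
    · rw [hc, hd, hd']; ring
    · rw [ha, hb, hd', hb']; ring
  one_mem' := by simp
  inv_mem' := by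
    rintro g ⟨ha, hc, hd, hb⟩
    have h00 : (g⁻¹) 0 0 = g 1 1 := by simp [SpecialLinearGroup.SL2_inv_expl g]
    have h01 : (g⁻¹) 0 1 = - g 0 1 := by simp [SpecialLinearGroup.SL2_inv_expl g]
    have h10 : (g⁻¹) 1 0 = - g 1 0 := by simp [SpecialLinearGroup.SL2_inv_expl g]
    have h11 : (g⁻¹) 1 1 = g 0 0 := by simp [SpecialLinearGroup.SL2_inv_expl g]
    change (g⁻¹) 0 0 = 1 ∧ (g⁻¹) 1 0 = 0 ∧ (g⁻¹) 1 1 = 1 ∧ m ∣ (g⁻¹) 0 1
    rw [h00, h01, h10, h11]
    exact ⟨hd, by rw [hc, neg_zero], ha, (dvd_neg).2 hb⟩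

theorem alc_mem_C {R : Type} [CommRing R] (m : R) (g : SpecialLinearGroup (Fin 2) R) :
    g ∈ alc_C m ↔ m ∣ g 0 0 - 1 ∧ m ∣ g 0 1 ∧ m ∣ g 1 0 ∧ m ∣ g 1 1 - 1 := Iff.rfl

theorem alc_mem_D {R : Type} [CommRing R] (m : R) (g : SpecialLinearGroup (Fin 2) R) :
    g ∈ alc_D m ↔ m ∣ g 0 1 := Iff.rfl

theorem alc_mem_K {R : Type} [CommRing R] (m : R) (g : SpecialLinearGroup (Fin 2) R) :
    g ∈ alc_K m ↔ g 0 0 = 1 ∧ g 1 0 = 0 ∧ g 1 1 = 1 ∧ m ∣ g 0 1 := Iff.rfl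

theorem alc_det {R : Type} [CommRing R] (g : SpecialLinearGroup (Fin 2) R) :
    g 0 0 * g 1 1 - g 0 1 * g 1 0 = 1 := by
  have := g.2
  rwa [Matrix.det_fin_two] at this

/-- decomposition of an element of `P` when the upper left entry is a unit modulo `p` -/
theorem alc_PQK {R : Type} [CommRing R] (m n : R) (g : SpecialLinearGroup (Fin 2) R)
    (hC : g ∈ alc_C m) (hD : g ∈ alc_D n) (u : R) (hu : (g 0 0 * u - 1) * n = 0) (hmn : m ∣ n) :
    g ∈ (alc_C m ⊓ alc_D 0) ⊔ alc_K n := by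
  obtain ⟨b, hb⟩ := (alc_mem_D n g).1 hD
  have hdt : Matrix.det !![(1 : R), n * (u * b); 0, 1] = 1 := by
    rw [Matrix.det_fin_two_of]; ring
  let t : SpecialLinearGroup (Fin 2) R := ⟨!![(1 : R), n * (u * b); 0, 1], hdt⟩
  have ht00 : t 0 0 = 1 := rfl
  have ht01 : t 0 1 = n * (u * b) := rfl
  have ht10 : t 1 0 = 0 := rfl
  have ht11 : t 1 1 = 1 := rfl
  have htK : t ∈ alc_K n := by
    rw [alc_mem_K]
    exact ⟨ht00, ht10, ht11, by rw [ht01]; exact dvd_mul_right _ _⟩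
  have htC : t ∈ alc_C m := by
    rw [alc_mem_C, ht00, ht01, ht10, ht11, sub_self]
    exact ⟨dvd_zero _, dvd_mul_of_dvd_left hmn _, dvd_zero _, dvd_zero _⟩
  have hq01 : (g * t⁻¹) 0 1 = 0 := by
    have h01 : (t⁻¹) 0 1 = - t 0 1 := by simp [SpecialLinearGroup.SL2_inv_expl t]
    have h11 : (t⁻¹) 1 1 = t 0 0 := by simp [SpecialLinearGroup.SL2_inv_expl t]
    rw [alc_mul, h01, h11, ht01, ht00, hb]
    linear_combination (-b) * hu
  have hq : g * t⁻¹ ∈ alc_C m ⊓ alc_D 0 := by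
    rw [Subgroup.mem_inf, alc_mem_D, hq01]
    exact ⟨(alc_C m).mul_mem hC ((alc_C m).inv_mem htC), dvd_zero _⟩
  have : g = (g * t⁻¹) * t := by group
  rw [this]
  exact Subgroup.mul_mem_sup hq htK

theorem alc_cast_zero {M d : ℕ} [NeZero M] (h : d ∣ M) (x : ZMod M) :
    ZMod.castHom h (ZMod d) x = 0 ↔ ((d : ℕ) : ZMod M) ∣ x := by
  constructor
  · intro hx
    have hv : x = ((x.val : ℕ) : ZMod M) := (ZMod.natCast_zmod_val x).symm
    rw [hv, map_natCast] at hx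
    rw [ZMod.natCast_eq_zero_iff] at hx
    obtain ⟨y, hy⟩ := hx
    rw [hv, hy, Nat.cast_mul]
    exact dvd_mul_right _ _
  · rintro ⟨y, rfl⟩
    rw [map_mul, map_natCast, ZMod.natCast_self, zero_mul]

theorem alc_Pcase (M p : ℕ) [NeZero M] (hp : p.Prime) (hpM : p ∣ M)
    (g : SpecialLinearGroup (Fin 2) (ZMod M)) (m : ℕ) (hm : ¬ p ∣ m) (hmn : m ∣ M / p)
    (hC : g ∈ alc_C ((m : ℕ) : ZMod M)) (hD : g ∈ alc_D ((M / p : ℕ) : ZMod M)) :
    g ∈ (alc_C ((m : ℕ) : ZMod M) ⊓ alc_D 0) ⊔ alc_K ((M / p : ℕ) : ZMod M) := by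
  have : Fact p.Prime := ⟨hp⟩
  have hmn' : ((m : ℕ) : ZMod M) ∣ ((M / p : ℕ) : ZMod M) := by
    obtain ⟨k, hk⟩ := hmn
    rw [hk, Nat.cast_mul]; exact dvd_mul_right _ _
  have hpp : ((p : ℕ) : ZMod M) * ((M / p : ℕ) : ZMod M) = 0 := by
    rw [← Nat.cast_mul, Nat.mul_div_cancel' hpM, ZMod.natCast_self]
  have key : ∀ a : ZMod M, ZMod.castHom hpM (ZMod p) a ≠ 0 →
      ∃ u : ZMod M, (a * u - 1) * ((M / p : ℕ) : ZMod M) = 0 := by
    intro a ha
    obtain ⟨u, hu⟩ := ZMod.castHom_surjective hpM ((ZMod.castHom hpM (ZMod p) a)⁻¹)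
    refine ⟨u, ?_⟩
    have h0 : ZMod.castHom hpM (ZMod p) (a * u - 1) = 0 := by
      rw [map_sub, map_mul, hu, map_one, mul_inv_cancel₀ ha, sub_self]
    obtain ⟨y, hy⟩ := (alc_cast_zero hpM _).1 h0
    rw [hy]
    linear_combination y * hpp
  by_cases ha : ZMod.castHom hpM (ZMod p) (g 0 0) = 0
  · -- multiply by a lower triangular matrix first
    have hdt : Matrix.det !![(1 : ZMod M), 0; ((m : ℕ) : ZMod M), 1] = 1 := by
      rw [Matrix.det_fin_two_of]; ring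
    let t : SpecialLinearGroup (Fin 2) (ZMod M) := ⟨!![(1 : ZMod M), 0; ((m : ℕ) : ZMod M), 1], hdt⟩
    have ht00 : t 0 0 = 1 := rfl
    have ht01 : t 0 1 = 0 := rfl
    have ht10 : t 1 0 = ((m : ℕ) : ZMod M) := rfl
    have ht11 : t 1 1 = 1 := rfl
    have htC : t ∈ alc_C ((m : ℕ) : ZMod M) := by
      rw [alc_mem_C, ht00, ht01, ht10, ht11, sub_self]
      exact ⟨dvd_zero _, dvd_zero _, dvd_refl _, dvd_zero _⟩
    have htD : t ∈ alc_D (0 : ZMod M) := by rw [alc_mem_D, ht01]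
    have htDn : t ∈ alc_D ((M / p : ℕ) : ZMod M) := by rw [alc_mem_D, ht01]; exact dvd_zero _
    have hgt : (g * t) 0 0 = g 0 0 + g 0 1 * ((m : ℕ) : ZMod M) := by
      rw [alc_mul, ht00, ht10, mul_one]
    have hb : ZMod.castHom hpM (ZMod p) (g 0 1) ≠ 0 := by
      intro hb
      have h1 := congrArg (ZMod.castHom hpM (ZMod p)) (alc_det g)
      rw [map_sub, map_mul, map_mul, ha, hb, map_one, zero_mul, zero_mul, sub_zero] at h1
      exact zero_ne_one h1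
    have hm0 : ZMod.castHom hpM (ZMod p) ((m : ℕ) : ZMod M) ≠ 0 := by
      rw [map_natCast, Ne, ZMod.natCast_eq_zero_iff]
      exact hm
    have hne : ZMod.castHom hpM (ZMod p) ((g * t) 0 0) ≠ 0 := by
      rw [hgt, map_add, map_mul, ha, zero_add]
      exact mul_ne_zero hb hm0
    obtain ⟨u, hu⟩ := key _ hne
    have h1 := alc_PQK ((m : ℕ) : ZMod M) ((M / p : ℕ) : ZMod M) (g * t)
      ((alc_C _).mul_mem hC htC) ((alc_D _).mul_mem hD htDn) u hu hmn'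
    have h2 : t⁻¹ ∈ (alc_C ((m : ℕ) : ZMod M) ⊓ alc_D 0) ⊔ alc_K ((M / p : ℕ) : ZMod M) := by
      apply Subgroup.inv_mem
      exact Subgroup.mem_sup_left (Subgroup.mem_inf.2 ⟨htC, htD⟩)
    have h3 : g = (g * t) * t⁻¹ := by group
    rw [h3]
    exact Subgroup.mul_mem _ h1 h2
  · obtain ⟨u, hu⟩ := key _ ha
    exact alc_PQK _ _ g hC hD u hu hmn'

theorem alc_comm {R : Type} [CommRing R] (m m' : R) (h : m * m' = 0)
    (x y : SpecialLinearGroup (Fin 2) R) (hx : x ∈ alc_C m) (hy : y ∈ alc_C m') :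
    x * y = y * x := by
  obtain ⟨⟨a, ha⟩, ⟨b, hb⟩, ⟨c, hc⟩, ⟨d, hd⟩⟩ := hx
  obtain ⟨⟨a', ha'⟩, ⟨b', hb'⟩, ⟨c', hc'⟩, ⟨d', hd'⟩⟩ := hy
  have e1 : x 0 0 = 1 + m * a := by linear_combination ha
  have e2 : x 1 1 = 1 + m * d := by linear_combination hd
  have e3 : y 0 0 = 1 + m' * a' := by linear_combination ha'
  have e4 : y 1 1 = 1 + m' * d' := by linear_combination hd'
  ext i j
  fin_cases i <;> fin_cases j
  · show (x * y) 0 0 = (y * x) 0 0
    rw [alc_mul, alc_mul]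
    rw [e1, e3, hb, hc', hb', hc]
    linear_combination (b * c' - b' * c) * h
  · show (x * y) 0 1 = (y * x) 0 1
    rw [alc_mul, alc_mul]
    rw [e1, e2, e3, e4, hb, hb']
    linear_combination (a * b' + b * d' - a' * b - b' * d) * h
  · show (x * y) 1 0 = (y * x) 1 0
    rw [alc_mul, alc_mul]
    rw [e1, e2, e3, e4, hc, hc']
    linear_combination (c * a' + d * c' - c' * a - d' * c) * h
  · show (x * y) 1 1 = (y * x) 1 1
    rw [alc_mul, alc_mul]
    rw [e2, e4, hc, hb', hc', hb]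
    linear_combination (c * b' - c' * b) * h

/-- the component of `g` at an idempotent -/
theorem alc_comp {R : Type} [CommRing R] (e : R) (he : e * (e - 1) = 0)
    (g : SpecialLinearGroup (Fin 2) R) :
    ∃ h : SpecialLinearGroup (Fin 2) R, h 0 0 = 1 + e * (g 0 0 - 1) ∧ h 0 1 = e * g 0 1 ∧
      h 1 0 = e * g 1 0 ∧ h 1 1 = 1 + e * (g 1 1 - 1) := by
  have hdt : Matrix.det !![1 + e * (g 0 0 - 1), e * g 0 1; e * g 1 0, 1 + e * (g 1 1 - 1)] = 1 := by
    rw [Matrix.det_fin_two_of]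
    have := alc_det g
    linear_combination ((g 0 0 - 1) * (g 1 1 - 1) - g 0 1 * g 1 0) * he + e * this
  exact ⟨⟨_, hdt⟩, rfl, rfl, rfl, rfl⟩

/-- existence of the idempotents -/
theorem alc_idem (M A B : ℕ) (hAB : A * B = M) (hc : Nat.Coprime A B) :
    ∃ e : ZMod M, ((A : ℕ) : ZMod M) ∣ e - 1 ∧ ((B : ℕ) : ZMod M) ∣ e ∧ e * (e - 1) = 0 := by
  obtain ⟨u, v, huv⟩ := (Nat.isCoprime_iff_coprime.2 hc)
  have h1 : ((u : ℤ) : ZMod M) * ((A : ℕ) : ZMod M) + ((v : ℤ) : ZMod M) * ((B : ℕ) : ZMod M) = 1 := by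
    have := congrArg (fun z : ℤ => (z : ZMod M)) huv
    push_cast at this
    exact this
  have h2 : ((A : ℕ) : ZMod M) * ((B : ℕ) : ZMod M) = 0 := by
    rw [← Nat.cast_mul, hAB, ZMod.natCast_self]
  refine ⟨((v : ℤ) : ZMod M) * ((B : ℕ) : ZMod M), ⟨-((u : ℤ) : ZMod M), ?_⟩,
    dvd_mul_left _ _, ?_⟩
  · linear_combination h1
  · linear_combination (((v : ℤ) : ZMod M) * ((B : ℕ) : ZMod M)) * h1
      - ((v : ℤ) : ZMod M) * ((u : ℤ) : ZMod M) * h2

theorem alc_dvd_val {M d : ℕ} [NeZero M] (h : d ∣ M) (x : ZMod M) :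
    ((d : ℕ) : ZMod M) ∣ x ↔ d ∣ x.val := by
  rw [← alc_cast_zero h]
  have hv : x = ((x.val : ℕ) : ZMod M) := (ZMod.natCast_zmod_val x).symm
  constructor
  · intro hx
    rw [hv, map_natCast] at hx
    rwa [ZMod.natCast_eq_zero_iff] at hx
  · intro hx
    rw [hv, map_natCast, ZMod.natCast_eq_zero_iff]
    exact hx

/-- divisibility by all prime powers except one gives divisibility by the complement -/
theorem alc_local {M p : ℕ} [NeZero M] (x : ZMod M)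
    (h : ∀ q ∈ M.primeFactors, q ≠ p → ((q ^ M.factorization q : ℕ) : ZMod M) ∣ x) :
    ((M / p ^ M.factorization p : ℕ) : ZMod M) ∣ x := by
  have hM : M ≠ 0 := NeZero.ne M
  rw [alc_dvd_val (Nat.ordCompl_dvd M p)]
  rw [Nat.dvd_iff_prime_pow_dvd_dvd]
  intro q k hq hk
  rcases Nat.eq_zero_or_pos k with rfl | hk0
  · simp
  by_cases hpp : p.Prime
  · have hqM : q ^ k ∣ M := hk.trans (Nat.ordCompl_dvd M p)
    have hqd : q ∣ M / p ^ M.factorization p := (dvd_pow_self q hk0.ne').trans hk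
    have hne : q ≠ p := by
      rintro rfl
      exact Nat.not_dvd_ordCompl hq hM hqd
    have hqm : q ∈ M.primeFactors :=
      Nat.mem_primeFactors.2 ⟨hq, (dvd_pow_self q hk0.ne').trans hqM, hM⟩
    have h1 := h q hqm hne
    rw [alc_dvd_val (Nat.ordProj_dvd M q)] at h1
    exact (pow_dvd_pow q ((hq.pow_dvd_iff_le_factorization hM).1 hqM)).trans h1
  · have hqM : q ^ k ∣ M := hk.trans (Nat.ordCompl_dvd M p)
    have hne : q ≠ p := by
      rintro rfl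
      exact hpp hq
    have hqm : q ∈ M.primeFactors :=
      Nat.mem_primeFactors.2 ⟨hq, (dvd_pow_self q hk0.ne').trans hqM, hM⟩
    have h1 := h q hqm hne
    rw [alc_dvd_val (Nat.ordProj_dvd M q)] at h1
    exact (pow_dvd_pow q ((hq.pow_dvd_iff_le_factorization hM).1 hqM)).trans h1

/-- a local component modulo two coprime parts -/
theorem alc_projdvd {M q r : ℕ} (_hM : M ≠ 0) (hq : q.Prime) (hr : r.Prime) (hqr : q ≠ r) :
    q ^ M.factorization q ∣ M / r ^ M.factorization r := by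
  have h1 : q ^ M.factorization q ∣ r ^ M.factorization r * (M / r ^ M.factorization r) := by
    rw [Nat.mul_div_cancel' (Nat.ordProj_dvd M r)]
    exact Nat.ordProj_dvd M q
  refine Nat.Coprime.dvd_of_dvd_mul_left ?_ h1
  exact Nat.Coprime.pow _ _ ((Nat.coprime_primes hq hr).2 hqr)

theorem alc_last (M p : ℕ) [NeZero M] (hp : p.Prime) (hpM : p ∣ M) (S : Finset ℕ)
    (hS : S ⊆ M.primeFactors.erase p) :
    ∀ g : SpecialLinearGroup (Fin 2) (ZMod M), (((M / p : ℕ) : ZMod M) ∣ g 0 1) →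
      (∀ q ∈ M.primeFactors, q ≠ p → q ∉ S → g ∈ alc_C ((q ^ M.factorization q : ℕ) : ZMod M)) →
      g ∈ (alc_C ((M / p ^ M.factorization p : ℕ) : ZMod M) ⊓ alc_D ((M / p : ℕ) : ZMod M)) ⊔
        ⨆ p' ∈ (M.primeFactors.erase p),
          (alc_C ((M / p' ^ M.factorization p' : ℕ) : ZMod M) ⊓ alc_D 0) := by
  have hM : M ≠ 0 := NeZero.ne M
  induction S using Finset.induction_on with
  | empty =>
    intro g hg01 hg
    apply Subgroup.mem_sup_left
    rw [Subgroup.mem_inf, alc_mem_D]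
    refine ⟨?_, hg01⟩
    rw [alc_mem_C]
    refine ⟨alc_local _ fun q hq hne => ((alc_mem_C _ _).1 (hg q hq hne (by simp))).1,
      alc_local _ fun q hq hne => ((alc_mem_C _ _).1 (hg q hq hne (by simp))).2.1,
      alc_local _ fun q hq hne => ((alc_mem_C _ _).1 (hg q hq hne (by simp))).2.2.1,
      alc_local _ fun q hq hne => ((alc_mem_C _ _).1 (hg q hq hne (by simp))).2.2.2⟩
  | insert q S hqS ih =>
    intro g hg01 hg
    have hS' : S ⊆ M.primeFactors.erase p := fun x hx => hS (Finset.mem_insert_of_mem hx)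
    have hqm : q ∈ M.primeFactors.erase p := hS (Finset.mem_insert_self q S)
    have hqp : q ≠ p := (Finset.mem_erase.1 hqm).1
    have hqpr : q.Prime := (Nat.mem_primeFactors.1 (Finset.mem_erase.1 hqm).2).1
    obtain ⟨e, he1, he2, he3⟩ := alc_idem M (q ^ M.factorization q) (M / q ^ M.factorization q)
      (Nat.mul_div_cancel' (Nat.ordProj_dvd M q))
      (Nat.Coprime.pow_left _ (Nat.coprime_ordCompl hqpr hM))
    obtain ⟨h, h00, h01, h10, h11⟩ := alc_comp e he3 g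
    -- `q ^ k` divides `M / p`
    have hqMp : q ^ M.factorization q ∣ M / p := by
      have h1 : q ^ M.factorization q ∣ p * (M / p) := by
        rw [Nat.mul_div_cancel' hpM]
        exact Nat.ordProj_dvd M q
      refine Nat.Coprime.dvd_of_dvd_mul_left ?_ h1
      exact Nat.Coprime.pow_left _ ((Nat.coprime_primes hqpr hp).2 hqp)
    have he01 : e * g 0 1 = 0 := by
      obtain ⟨x, hx⟩ := he2
      obtain ⟨y, hy⟩ := hg01
      obtain ⟨k, hk⟩ := hqMp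
      have h0 : ((q ^ M.factorization q : ℕ) : ZMod M) *
          ((M / q ^ M.factorization q : ℕ) : ZMod M) = 0 := by
        rw [← Nat.cast_mul, Nat.mul_div_cancel' (Nat.ordProj_dvd M q), ZMod.natCast_self]
      rw [hx, hy, hk, Nat.cast_mul]
      linear_combination (x * y * (k : ZMod M)) * h0
    have hhQ : h ∈ alc_C ((M / q ^ M.factorization q : ℕ) : ZMod M) ⊓ alc_D 0 := by
      rw [Subgroup.mem_inf, alc_mem_D, alc_mem_C, h00, h01, h10, h11, he01]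
      refine ⟨⟨?_, dvd_zero _, ?_, ?_⟩, dvd_zero _⟩
      · rw [add_sub_cancel_left]; exact dvd_mul_of_dvd_left he2 _
      · exact dvd_mul_of_dvd_left he2 _
      · rw [add_sub_cancel_left]; exact dvd_mul_of_dvd_left he2 _
    have hh0 : h ∈ alc_D ((M / p : ℕ) : ZMod M) := by
      rw [alc_mem_D, h01, he01]; exact dvd_zero _
    have hgh : g * h⁻¹ ∈ alc_D ((M / p : ℕ) : ZMod M) :=
      (alc_D _).mul_mem hg01 ((alc_D _).inv_mem hh0)
    have hghC : ∀ r ∈ M.primeFactors, r ≠ p → r ∉ S →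
        g * h⁻¹ ∈ alc_C ((r ^ M.factorization r : ℕ) : ZMod M) := by
      intro r hr hrp hrS
      by_cases hrq : r = q
      · subst hrq
        obtain ⟨x, hx⟩ := he1
        -- `h ≡ g`
        have hdet := alc_det h
        have hi00 : (h⁻¹) 0 0 = h 1 1 := by simp [SpecialLinearGroup.SL2_inv_expl h]
        have hi01 : (h⁻¹) 0 1 = - h 0 1 := by simp [SpecialLinearGroup.SL2_inv_expl h]
        have hi10 : (h⁻¹) 1 0 = - h 1 0 := by simp [SpecialLinearGroup.SL2_inv_expl h]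
        have hi11 : (h⁻¹) 1 1 = h 0 0 := by simp [SpecialLinearGroup.SL2_inv_expl h]
        have g00 : g 0 0 = h 0 0 - (e - 1) * (g 0 0 - 1) := by rw [h00]; ring
        have g01 : g 0 1 = h 0 1 - (e - 1) * g 0 1 := by rw [h01]; ring
        have g10 : g 1 0 = h 1 0 - (e - 1) * g 1 0 := by rw [h10]; ring
        have g11 : g 1 1 = h 1 1 - (e - 1) * (g 1 1 - 1) := by rw [h11]; ring
        rw [alc_mem_C, alc_mul, alc_mul, alc_mul, alc_mul]
        rw [hi00, hi01, hi10, hi11]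
        refine ⟨⟨-x * (g 0 0 - 1) * h 1 1 + x * g 0 1 * h 1 0, ?_⟩,
          ⟨x * (g 0 0 - 1) * h 0 1 - x * g 0 1 * h 0 0, ?_⟩,
          ⟨-x * g 1 0 * h 1 1 + x * (g 1 1 - 1) * h 1 0, ?_⟩,
          ⟨x * g 1 0 * h 0 1 - x * (g 1 1 - 1) * h 0 0, ?_⟩⟩
        · linear_combination h 1 1 * g00 - h 1 0 * g01 + hdet
            + (-(g 0 0 - 1) * h 1 1 + g 0 1 * h 1 0) * hx
        · linear_combination -h 0 1 * g00 + h 0 0 * g01
            + ((g 0 0 - 1) * h 0 1 - g 0 1 * h 0 0) * hx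
        · linear_combination h 1 1 * g10 - h 1 0 * g11
            + (-g 1 0 * h 1 1 + (g 1 1 - 1) * h 1 0) * hx
        · linear_combination -h 0 1 * g10 + h 0 0 * g11 + hdet
            + (g 1 0 * h 0 1 - (g 1 1 - 1) * h 0 0) * hx
      · have hrpr : r.Prime := (Nat.mem_primeFactors.1 hr).1
        have hgr := hg r hr hrp (by
          rw [Finset.mem_insert, not_or]; exact ⟨hrq, hrS⟩)
        have hre : ((r ^ M.factorization r : ℕ) : ZMod M) ∣ e := by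
          obtain ⟨k, hk⟩ := alc_projdvd hM hrpr hqpr hrq
          refine dvd_trans ?_ he2
          rw [hk, Nat.cast_mul]; exact dvd_mul_right _ _
        refine (alc_C _).mul_mem hgr ((alc_C _).inv_mem ?_)
        rw [alc_mem_C, h00, h01, h10, h11]
        refine ⟨?_, dvd_mul_of_dvd_left hre _, dvd_mul_of_dvd_left hre _, ?_⟩
        · rw [add_sub_cancel_left]; exact dvd_mul_of_dvd_left hre _
        · rw [add_sub_cancel_left]; exact dvd_mul_of_dvd_left hre _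
    have h1 := ih hS' (g * h⁻¹) hgh hghC
    have h2 : h ∈ (alc_C ((M / p ^ M.factorization p : ℕ) : ZMod M) ⊓
        alc_D ((M / p : ℕ) : ZMod M)) ⊔
        ⨆ p' ∈ (M.primeFactors.erase p),
          (alc_C ((M / p' ^ M.factorization p' : ℕ) : ZMod M) ⊓ alc_D 0) := by
      apply Subgroup.mem_sup_right
      exact Subgroup.mem_iSup_of_mem q (Subgroup.mem_iSup_of_mem hqm hhQ)
    have h3 : g = (g * h⁻¹) * h := by group
    rw [h3]
    exact Subgroup.mul_mem _ h1 h2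

theorem st_ALC : ST_ALC := by
  intro M hM
  have : NeZero M := ⟨by omega⟩
  have hM0 : M ≠ 0 := by omega
  refine ⟨fun p => alc_C ((M / p ^ M.factorization p : ℕ) : ZMod M) ⊓
      alc_D ((M / p : ℕ) : ZMod M),
    fun p => alc_C ((M / p ^ M.factorization p : ℕ) : ZMod M) ⊓ alc_D 0,
    fun p => alc_K ((M / p : ℕ) : ZMod M), ?_, ?_, ?_⟩
  · intro p hp hpM
    have hmn : M / p ^ M.factorization p ∣ M / p := by
      have hk : 1 ≤ M.factorization p := (hp.dvd_iff_one_le_factorization hM0).1 hpM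
      refine Nat.div_dvd_div_left (Nat.ordProj_dvd M p) ?_
      exact dvd_pow_self p (by omega)
    have hmn' : ((M / p ^ M.factorization p : ℕ) : ZMod M) ∣ ((M / p : ℕ) : ZMod M) := by
      obtain ⟨k, hk⟩ := hmn
      rw [hk, Nat.cast_mul]; exact dvd_mul_right _ _
    refine ⟨?_, ?_, ?_, ?_, ?_⟩
    · intro g hg
      rw [Subgroup.mem_inf, alc_mem_D] at hg ⊢
      refine ⟨hg.1, ?_⟩
      rw [zero_dvd_iff.1 hg.2]; exact dvd_zero _
    · intro g hg
      rw [alc_mem_K] at hg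
      rw [Subgroup.mem_inf, alc_mem_D, alc_mem_C, hg.1, hg.2.1, hg.2.2.1, sub_self]
      exact ⟨⟨dvd_zero _, hmn'.trans hg.2.2.2, dvd_zero _, dvd_zero _⟩, hg.2.2.2⟩
    · intro g hg
      rw [Subgroup.mem_inf] at hg
      exact alc_Pcase M p hp hpM g _ (Nat.not_dvd_ordCompl hp hM0) hmn hg.1 hg.2
    · intro g hg
      rw [Subgroup.mem_inf, alc_mem_D] at hg
      exact zero_dvd_iff.1 hg.2
    · intro g
      rw [alc_mem_K]
      constructor
      · rintro ⟨h1, h2, h3, ⟨x, hx⟩⟩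
        refine ⟨x.val, h1, h2, h3, ?_⟩
        rw [hx, Nat.cast_mul, ZMod.natCast_zmod_val, mul_comm]
      · rintro ⟨j, h1, h2, h3, h4⟩
        refine ⟨h1, h2, h3, ?_⟩
        rw [h4, Nat.cast_mul]; exact dvd_mul_left _ _
  · intro p p' hp hpM hp' hpM' hne x hx y hy
    rw [Subgroup.mem_inf] at hx hy
    refine alc_comm _ _ ?_ x y hx.1 hy.1
    obtain ⟨k, hk⟩ := alc_projdvd hM0 hp hp' hne
    rw [hk, Nat.cast_mul]
    have h0 : ((M / p ^ M.factorization p : ℕ) : ZMod M) *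
        ((p ^ M.factorization p : ℕ) : ZMod M) = 0 := by
      rw [← Nat.cast_mul, Nat.div_mul_cancel (Nat.ordProj_dvd M p), ZMod.natCast_self]
    linear_combination ((k : ℕ) : ZMod M) * h0
  · intro p hp hpM g hg
    refine alc_last M p hp hpM (M.primeFactors.erase p) (Finset.Subset.refl _) g hg ?_
    intro q hq hqp hqS
    exact absurd (Finset.mem_erase.2 ⟨hqp, hq⟩) hqS

end Pool.Agent.Helper96.MP
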