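import Pool.Agent.Helper96.MP.Defs

/-! Abstract averaging lemma for the Atkin-Lehner main lemma. -/

set_option autoImplicit false

namespace Pool.Agent.Helper96.MP

open Finset

section
variable {G : Type} [Group G] [Fintype G] {V : Type} [AddCommGroup V] [Module ℂ V]
  (ρ : Representation ℂ G V)

open Classical in
/-- average over a subgroup -/
noncomputable def algAvg (H : Subgroup G) : Module.End ℂ V :=
  ((Nat.card H : ℂ))⁻¹ • ∑ k : H, ρ k.1

open Classical in
theorem alg_avg_apply (H : Subgroup G) (w : V) :
    algAvg ρ H w = ((Nat.card H : ℂ))⁻¹ • ∑ᶠ k : H, ρ k.1 w := by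
  rw [finsum_eq_sum_of_fintype]
  simp only [algAvg, LinearMap.smul_apply, LinearMap.sum_apply]

theorem alg_card_ne (H : Subgroup G) : (Nat.card H : ℂ) ≠ 0 := by
  exact_mod_cast Nat.card_pos.ne'

open Classical in
theorem alg_avg_of_fixed (H : Subgroup G) (w : V) (h : ∀ x ∈ H, ρ x w = w) :
    algAvg ρ H w = w := by
  simp only [algAvg, LinearMap.smul_apply, LinearMap.sum_apply]
  rw [sum_congr rfl (fun (k : H) _ => h k.1 k.2), sum_const, card_univ,
    ← Nat.card_eq_fintype_card, ← Nat.cast_smul_eq_nsmul ℂ, smul_smul,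
    inv_mul_cancel₀ (alg_card_ne H), one_smul]

open Classical in
theorem alg_fixed_avg (H : Subgroup G) (w : V) (x : G) (hx : x ∈ H) :
    ρ x (algAvg ρ H w) = algAvg ρ H w := by
  simp only [algAvg, LinearMap.smul_apply, LinearMap.sum_apply, map_smul, map_sum]
  congr 1
  refine Fintype.sum_equiv (Equiv.mulLeft (⟨x, hx⟩ : H)) _ _ (fun k => ?_)
  rw [← Module.End.mul_apply, ← map_mul]
  rfl

open Classical in
theorem alg_avg_comm (H : Subgroup G) (A : Module.End ℂ V) (h : ∀ x ∈ H, A * ρ x = ρ x * A) :
    A * algAvg ρ H = algAvg ρ H * A := by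
  rw [algAvg, mul_smul_comm, smul_mul_assoc, mul_sum, sum_mul]
  congr 1
  exact sum_congr rfl (fun k _ => h k.1 k.2)

theorem alg_prod_comm {ι : Type} (l : List ι) (A : Module.End ℂ V) (B : ι → Module.End ℂ V)
    (h : ∀ i ∈ l, A * B i = B i * A) :
    A * (l.map (fun i => (1 : Module.End ℂ V) - B i)).prod
      = (l.map (fun i => (1 : Module.End ℂ V) - B i)).prod * A := by
  induction l with
  | nil => simp
  | cons i l ih =>
    rw [List.map_cons, List.prod_cons]
    have h1 := h i (List.mem_cons_self)
    have h2 := ih (fun j hj => h j (List.mem_cons_of_mem _ hj))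
    have h3 : A * (1 - B i) = (1 - B i) * A := by rw [mul_sub, sub_mul, h1, mul_one, one_mul]
    rw [← mul_assoc, h3, mul_assoc, h2, mul_assoc]

end

theorem st_ALG : ST_ALG := by
  classical
  intro G _ _ V _ _ ρ ι _ P Q K l hl hQP hKP hPQK hcomm v hv he
  have hrho : ∀ i j, i ≠ j → ∀ x ∈ P i, ∀ y ∈ P j, ρ x * ρ y = ρ y * ρ x := by
    intro i j hij x hx y hy
    rw [← map_mul, ← map_mul, hcomm i j hij x hx y hy]
  let e : ι → Module.End ℂ V := fun i => algAvg ρ (K i)
  let q : ι → Module.End ℂ V := fun i => algAvg ρ (P i)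
  have he0 := he e (fun i w => alg_avg_apply ρ (K i) w)
  -- commutation
  have hxe : ∀ i j, i ≠ j → ∀ x ∈ P i, ρ x * e j = e j * ρ x := fun i j hij x hx =>
    alg_avg_comm ρ (K j) (ρ x) (fun y hy => hrho i j hij x hx y (hKP j hy))
  have hxq : ∀ i j, i ≠ j → ∀ x ∈ P i, ρ x * q j = q j * ρ x := fun i j hij x hx =>
    alg_avg_comm ρ (P j) (ρ x) (fun y hy => hrho i j hij x hx y hy)
  have hqe : ∀ i j, i ≠ j → q i * e j = e j * q i := fun i j hij =>
    alg_avg_comm ρ (K j) (q i) (fun y hy => (hxq j i hij.symm y (hKP j hy)).symm)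
  have hqq : ∀ i j, i ≠ j → q i * q j = q j * q i := fun i j hij =>
    alg_avg_comm ρ (P j) (q i) (fun y hy => (hxq j i hij.symm y hy).symm)
  have hQfix : ∀ (i : ι) (u : V), (∀ j, ∀ x ∈ Q j, ρ x u = u) →
      ∀ j, ∀ x ∈ Q j, ρ x ((1 - q i) u) = (1 - q i) u := by
    intro i u hu j x hx
    rw [LinearMap.sub_apply, Module.End.one_apply, map_sub, hu j x hx]
    congr 1
    by_cases hij : j = i
    · subst hij
      exact alg_fixed_avg ρ (P j) u x (hQP j hx)
    · have h1 := hxq j i hij x (hQP j hx)
      calc ρ x (q i u) = (ρ x * q i) u := rfl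
        _ = (q i * ρ x) u := by rw [h1]
        _ = q i (ρ x u) := rfl
        _ = q i u := by rw [hu j x hx]
  -- main claim
  have claim : ∀ (l : List ι), l.Nodup → ∀ u : V, (∀ j, ∀ x ∈ Q j, ρ x u = u) →
      (l.map (fun i => (1 : Module.End ℂ V) - e i)).prod u = 0 →
      (l.map (fun i => (1 : Module.End ℂ V) - q i)).prod u = 0 := by
    intro l
    induction l with
    | nil =>
      intro _ u _ h
      exact h
    | cons i l ih =>
      intro hnd u hu h
      rw [List.nodup_cons] at hnd
      have hne : ∀ j ∈ l, i ≠ j := fun j hj hij => hnd.1 (hij ▸ hj)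
      rw [List.map_cons, List.prod_cons, Module.End.mul_apply] at h
      set w := (l.map (fun i => (1 : Module.End ℂ V) - e i)).prod u with hw
      have hKfix : ∀ x ∈ K i, ρ x w = w := by
        rw [LinearMap.sub_apply, Module.End.one_apply, sub_eq_zero] at h
        intro x hx
        rw [h]
        exact alg_fixed_avg ρ (K i) w x hx
      have hQfixw : ∀ x ∈ Q i, ρ x w = w := by
        intro x hx
        have h1 := alg_prod_comm l (ρ x) e (fun j hj => hxe i j (hne j hj) x (hQP i hx))
        calc ρ x w = (ρ x * (l.map (fun i => (1 : Module.End ℂ V) - e i)).prod) u := rfl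
          _ = ((l.map (fun i => (1 : Module.End ℂ V) - e i)).prod * ρ x) u := by rw [h1]
          _ = (l.map (fun i => (1 : Module.End ℂ V) - e i)).prod (ρ x u) := rfl
          _ = w := by rw [hu i x hx]
      have hPfix : ∀ x ∈ P i, ρ x w = w := by
        let S : Subgroup G :=
          { carrier := {x | ρ x w = w}
            one_mem' := by
              show ρ 1 w = w
              rw [map_one]; rfl
            mul_mem' := by
              intro x y hx hy
              show ρ (x * y) w = w
              rw [map_mul, Module.End.mul_apply, show ρ y w = w from hy]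
              exact hx
            inv_mem' := by
              intro x hx
              show ρ x⁻¹ w = w
              have h1 : ρ x w = w := hx
              calc ρ x⁻¹ w = ρ x⁻¹ (ρ x w) := by rw [h1]
                _ = (ρ x⁻¹ * ρ x) w := rfl
                _ = w := by rw [← map_mul, inv_mul_cancel, map_one]; rfl }
        have h1 : Q i ⊔ K i ≤ S := sup_le (fun x hx => hQfixw x hx) (fun x hx => hKfix x hx)
        exact fun x hx => h1 (hPQK i hx)
      have hqw : (1 - q i) w = 0 := by
        rw [LinearMap.sub_apply, Module.End.one_apply, alg_avg_of_fixed ρ (P i) w hPfix, sub_self]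
      have h2 := alg_prod_comm l (1 - q i) e (fun j hj => by
        rw [sub_mul, mul_sub, one_mul, mul_one, hqe i j (hne j hj)])
      have h3 : (l.map (fun i => (1 : Module.End ℂ V) - e i)).prod ((1 - q i) u) = 0 := by
        calc (l.map (fun i => (1 : Module.End ℂ V) - e i)).prod ((1 - q i) u)
            = ((l.map (fun i => (1 : Module.End ℂ V) - e i)).prod * (1 - q i)) u := rfl
          _ = ((1 - q i) * (l.map (fun i => (1 : Module.End ℂ V) - e i)).prod) u := by rw [h2]
          _ = (1 - q i) w := rfl
          _ = 0 := hqw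
      have h4 := ih hnd.2 ((1 - q i) u) (hQfix i u hu) h3
      have h5 := alg_prod_comm l (1 - q i) q (fun j hj => by
        rw [sub_mul, mul_sub, one_mul, mul_one, hqq i j (hne j hj)])
      rw [List.map_cons, List.prod_cons]
      calc ((1 - q i) * (l.map (fun i => (1 : Module.End ℂ V) - q i)).prod) u
          = ((l.map (fun i => (1 : Module.End ℂ V) - q i)).prod * (1 - q i)) u := by rw [h5]
        _ = (l.map (fun i => (1 : Module.End ℂ V) - q i)).prod ((1 - q i) u) := rfl
        _ = 0 := h4
  have hzero := claim l hl v hv he0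
  -- telescoping
  have tel : ∀ (l : List ι), l.Nodup →
      (∀ j, ∀ x ∈ Q j, ρ x ((l.map (fun i => (1 : Module.End ℂ V) - q i)).prod v)
        = (l.map (fun i => (1 : Module.End ℂ V) - q i)).prod v) ∧
      ∃ w : ι → V, v = ∑ i ∈ l.toFinset, w i
          + (l.map (fun i => (1 : Module.End ℂ V) - q i)).prod v ∧
        ∀ i ∈ l, (∀ x ∈ P i, ρ x (w i) = w i) ∧ ∀ j, j ≠ i → ∀ x ∈ Q j, ρ x (w i) = w i := by
    intro l
    induction l with
    | nil =>
      intro _
      refine ⟨fun j x hx => hv j x hx, fun _ => 0, ?_, ?_⟩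
      · simp
      · intro i hi
        exact absurd hi (List.not_mem_nil)
    | cons i l ih =>
      intro hnd
      rw [List.nodup_cons] at hnd
      obtain ⟨h1, w, hw, hfix⟩ := ih hnd.2
      rw [List.map_cons, List.prod_cons, Module.End.mul_apply]
      set u := (l.map (fun i => (1 : Module.End ℂ V) - q i)).prod v with hu
      refine ⟨hQfix i u h1, Function.update w i (q i u), ?_, ?_⟩
      · rw [List.toFinset_cons, sum_insert (by rw [List.mem_toFinset]; exact hnd.1),
          Function.update_self]
        have h2 : ∑ x ∈ l.toFinset, Function.update w i (q i u) x = ∑ x ∈ l.toFinset, w x := by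
          refine sum_congr rfl (fun x hx => ?_)
          rw [Function.update_of_ne]
          rintro rfl
          exact hnd.1 (List.mem_toFinset.1 hx)
        rw [h2, LinearMap.sub_apply, Module.End.one_apply]
        nth_rewrite 1 [hw]
        abel
      · intro j hj
        rcases List.mem_cons.1 hj with h | h
        · subst h
          rw [Function.update_self]
          refine ⟨fun x hx => alg_fixed_avg ρ (P j) u x hx, fun k hk x hx => ?_⟩
          have h3 := hxq k j hk x (hQP k hx)
          calc ρ x (q j u) = (ρ x * q j) u := rfl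
            _ = (q j * ρ x) u := by rw [h3]
            _ = q j (ρ x u) := rfl
            _ = q j u := by rw [h1 k x hx]
        · have hji : j ≠ i := by
            rintro rfl
            exact hnd.1 h
          rw [Function.update_of_ne hji]
          exact hfix j h
  obtain ⟨-, w, hw, hfix⟩ := tel l hl
  rw [hzero, add_zero] at hw
  exact ⟨w, hw, hfix⟩

end Pool.Agent.Helper96.MP
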