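import Pool.Agent.Helper87.MP.PNF

/-! Number of coincidences of two matrices on the projective line over `ℤ/N`. -/

set_option autoImplicit false

namespace Pool.Agent.Helper96.MP

open Finset

/-- number of solutions of a linear congruence -/
theorem fix_cnt (M : ℕ) (hM : 1 ≤ M) (c D : ℤ) :
    ((range M).filter (fun k : ℕ => (M : ℤ) ∣ c * k + D)).card ≤ Int.gcd c M := by
  have hg : 0 < Int.gcd c M := Int.gcd_pos_of_ne_zero_right _ (by exact_mod_cast (by omega : M ≠ 0))
  set g := Int.gcd c M with hgdef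
  obtain ⟨m, hm⟩ : g ∣ M := by
    have : (g : ℤ) ∣ (M : ℤ) := Int.gcd_dvd_right _ _
    exact_mod_cast this
  obtain ⟨c', hc'⟩ : (g : ℤ) ∣ c := Int.gcd_dvd_left _ _
  have hm0 : 0 < m := by
    rcases Nat.eq_zero_or_pos m with h | h
    · subst h; omega
    · exact h
  have hcop : IsCoprime (m : ℤ) c' := by
    have h1 := Int.gcd_eq_gcd_ab c M
    rw [← hgdef] at h1
    have hg' : (g : ℤ) ≠ 0 := by exact_mod_cast hg.ne'
    refine ⟨Int.gcdB c M, Int.gcdA c M, ?_⟩
    apply mul_left_cancel₀ hg'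
    have hM' : (M : ℤ) = g * m := by exact_mod_cast hm
    linear_combination (-1 : ℤ) * h1 - Int.gcdA c M * hc' - Int.gcdB c M * hM'
  have hmaps : ∀ k ∈ (range M).filter (fun k : ℕ => (M : ℤ) ∣ c * k + D), k / m ∈ range g := by
    intro k hk
    rw [mem_filter, mem_range] at hk
    rw [mem_range]
    exact Nat.div_lt_of_lt_mul (by rw [mul_comm, ← hm]; exact hk.1)
  have hinj : Set.InjOn (fun k : ℕ => k / m)
      ((range M).filter (fun k : ℕ => (M : ℤ) ∣ c * k + D)) := by
    intro k hk k' hk' h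
    rw [mem_coe, mem_filter] at hk hk'
    have h1 : (M : ℤ) ∣ c * (k - k') := by
      have := dvd_sub hk.2 hk'.2
      have e : c * (k : ℤ) + D - (c * (k' : ℤ) + D) = c * (k - k') := by ring
      rwa [e] at this
    have h2 : (m : ℤ) ∣ (k : ℤ) - k' := by
      have hM' : (M : ℤ) = g * m := by exact_mod_cast hm
      rw [hM', hc', mul_assoc] at h1
      have h3 := Int.dvd_of_mul_dvd_mul_left (by exact_mod_cast hg.ne' : (g : ℤ) ≠ 0) h1
      exact hcop.dvd_of_dvd_mul_left h3
    have h4 : k % m = k' % m := by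
      have : (k' : ℤ) ≡ k [ZMOD m] := (Int.modEq_iff_dvd).2 h2
      have h5 : k' ≡ k [MOD m] := (Int.natCast_modEq_iff).1 this
      exact h5.symm
    have h5 : k / m = k' / m := h
    rw [← Nat.div_add_mod k m, ← Nat.div_add_mod k' m, h4, h5]
  calc _ ≤ (range g).card := card_le_card_of_injOn _ hmaps hinj
    _ = g := card_range g

theorem fix_gcd (N e M : ℕ) (hN : 1 ≤ N) (h : N = e * M) (α : ℤ) (hα : α ≠ 0) :
    (Int.gcd (α * e) M : ℝ) ≤ |(α : ℝ)| * Real.sqrt N := by
  have he : e ≠ 0 := by rintro rfl; omega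
  have h1 : Int.gcd (α * e) M ∣ α.natAbs * Nat.gcd e M := by
    have h2 : Int.gcd (α * e) M ∣ Int.gcd (α * e) (α * M) :=
      Int.gcd_dvd_gcd_mul_left_right _ _ _
    rwa [Int.gcd_mul_left, Int.gcd_natCast_natCast] at h2
  have hg0 : 0 < Nat.gcd e M := Nat.gcd_pos_of_pos_left _ (Nat.pos_of_ne_zero he)
  have h2 : Int.gcd (α * e) M ≤ α.natAbs * Nat.gcd e M :=
    Nat.le_of_dvd (Nat.mul_pos (Int.natAbs_pos.2 hα) hg0) h1
  have h3 : Nat.gcd e M * Nat.gcd e M ≤ N := by
    refine Nat.le_of_dvd hN ?_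
    rw [h]
    exact mul_dvd_mul (Nat.gcd_dvd_left _ _) (Nat.gcd_dvd_right _ _)
  have h4 : (Nat.gcd e M : ℝ) ≤ Real.sqrt N := by
    apply Real.le_sqrt_of_sq_le
    rw [sq]
    exact_mod_cast h3
  calc (Int.gcd (α * e) M : ℝ) ≤ ((α.natAbs * Nat.gcd e M : ℕ) : ℝ) := by exact_mod_cast h2
    _ = |(α : ℝ)| * (Nat.gcd e M : ℝ) := by
        push_cast
        rw [Nat.cast_natAbs, Int.cast_abs]
    _ ≤ |(α : ℝ)| * Real.sqrt N := mul_le_mul_of_nonneg_left h4 (abs_nonneg _)

/-- number of roots of a quadratic congruence -/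
theorem fix_quad (N : ℕ) [NeZero N] (α : ℤ) (hα : α ≠ 0) (B C : ZMod N) :
    (((univ : Finset (ZMod N)).filter (fun s => (α : ZMod N) * s ^ 2 + B * s + C = 0)).card : ℝ)
      ≤ N.divisors.card * (|(α : ℝ)| * Real.sqrt N) := by
  classical
  have hN : 1 ≤ N := Nat.pos_of_ne_zero (NeZero.ne N)
  have hnn : 0 ≤ (N.divisors.card : ℝ) * (|(α : ℝ)| * Real.sqrt N) := by positivity
  rcases (((univ : Finset (ZMod N)).filter
    (fun s => (α : ZMod N) * s ^ 2 + B * s + C = 0))).eq_empty_or_nonempty with h0 | ⟨s0, hs0⟩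
  · rw [h0]
    simpa using hnn
  have hs0' := (mem_filter.1 hs0).2
  obtain ⟨D, hD⟩ := ZMod.intCast_surjective (2 * (α : ZMod N) * s0 + B)
  let F : ℕ → Finset (ZMod N) := fun e => (univ : Finset (ZMod N)).filter
    (fun u => Nat.gcd u.val N = e ∧ u * ((α : ZMod N) * u + (D : ZMod N)) = 0)
  have hF : ∀ e ∈ N.divisors, ((F e).card : ℝ) ≤ |(α : ℝ)| * Real.sqrt N := by
    intro e he
    obtain ⟨M, hM⟩ := (Nat.mem_divisors.1 he).1
    have he0 : 0 < e := Nat.pos_of_mem_divisors he
    have hM1 : 1 ≤ M := by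
      rcases Nat.eq_zero_or_pos M with h | h
      · subst h; omega
      · exact h
    refine le_trans ?_ (fix_gcd N e M hN hM α hα)
    have h1 : (F e).card ≤ ((range M).filter (fun k : ℕ => (M : ℤ) ∣ (α * e) * k + D)).card := by
      refine card_le_card_of_injOn (fun u => u.val / e) ?_ ?_
      · intro u hu
        obtain ⟨hu1, hu2⟩ := (mem_filter.1 hu).2
        obtain ⟨k, hk⟩ : e ∣ u.val := hu1 ▸ Nat.gcd_dvd_left _ _
        have hkdiv : u.val / e = k := by rw [hk, Nat.mul_div_cancel_left _ he0]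
        show u.val / e ∈ _
        rw [hkdiv, mem_coe, mem_filter, mem_range]
        have hlt : u.val < N := ZMod.val_lt u
        refine ⟨?_, ?_⟩
        · rw [hk, hM] at hlt
          exact Nat.lt_of_mul_lt_mul_left hlt
        · have hcop : IsCoprime (M : ℤ) (k : ℤ) := by
            rw [Nat.isCoprime_iff_coprime, Nat.coprime_comm]
            have h2 : Nat.gcd (e * k) (e * M) = e := by rw [← hk, ← hM]; exact hu1
            rw [Nat.gcd_mul_left] at h2
            exact Nat.eq_of_mul_eq_mul_left he0 (by rw [h2, mul_one])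
          have hu3 : ((((u.val : ℤ)) * (α * (u.val : ℤ) + D) : ℤ) : ZMod N) = 0 := by
            push_cast
            rw [ZMod.natCast_zmod_val]
            exact hu2
          rw [ZMod.intCast_zmod_eq_zero_iff_dvd, hk, hM] at hu3
          push_cast at hu3
          rw [mul_assoc (e : ℤ) (k : ℤ)] at hu3
          have h3 := Int.dvd_of_mul_dvd_mul_left (by exact_mod_cast he0.ne' : (e : ℤ) ≠ 0) hu3
          have h4 := hcop.dvd_of_dvd_mul_left h3
          rw [mul_assoc]
          exact h4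
      · intro u hu v hv huv
        obtain ⟨hu1, -⟩ := (mem_filter.1 hu).2
        obtain ⟨hv1, -⟩ := (mem_filter.1 hv).2
        obtain ⟨k, hk⟩ : e ∣ u.val := hu1 ▸ Nat.gcd_dvd_left _ _
        obtain ⟨l, hl⟩ : e ∣ v.val := hv1 ▸ Nat.gcd_dvd_left _ _
        have huv' : u.val / e = v.val / e := huv
        rw [hk, hl, Nat.mul_div_cancel_left _ he0, Nat.mul_div_cancel_left _ he0] at huv'
        apply ZMod.val_injective N
        rw [hk, hl, huv']
    have h2 := fix_cnt M hM1 (α * e) D
    exact_mod_cast h1.trans h2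
  have hsub : ((univ : Finset (ZMod N)).filter
      (fun s => (α : ZMod N) * s ^ 2 + B * s + C = 0)).image (fun s => s - s0)
      ⊆ N.divisors.biUnion F := by
    intro u hu
    obtain ⟨s, hs, rfl⟩ := mem_image.1 hu
    have hs' := (mem_filter.1 hs).2
    rw [mem_biUnion]
    refine ⟨Nat.gcd (s - s0).val N, ?_, mem_filter.2 ⟨mem_univ _, rfl, ?_⟩⟩
    · exact Nat.mem_divisors.2 ⟨Nat.gcd_dvd_right _ _, NeZero.ne N⟩
    · rw [hD]
      linear_combination hs' - hs0'
  have hcard : ((univ : Finset (ZMod N)).filter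
      (fun s => (α : ZMod N) * s ^ 2 + B * s + C = 0)).card ≤ ∑ e ∈ N.divisors, (F e).card := by
    rw [← card_image_of_injective _ (sub_left_injective (b := s0))]
    exact (card_le_card hsub).trans card_biUnion_le
  calc _ ≤ ((∑ e ∈ N.divisors, (F e).card : ℕ) : ℝ) := by exact_mod_cast hcard
    _ = ∑ e ∈ N.divisors, ((F e).card : ℝ) := by push_cast; rfl
    _ ≤ ∑ _e ∈ N.divisors, (|(α : ℝ)| * Real.sqrt N) := sum_le_sum hF
    _ = _ := by rw [sum_const, nsmul_eq_mul]

/-- number of zeros of a quadratic form, leading coefficient nonzero -/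
theorem fix_T1 (N : ℕ) [NeZero N] (α β γ : ℤ) (hα : α ≠ 0) :
    (((univ : Finset (ZMod N × ZMod N)).filter (fun u => (α : ZMod N) * u.1 ^ 2
      + (β : ZMod N) * u.1 * u.2 + (γ : ZMod N) * u.2 ^ 2 = 0)).card : ℝ)
      ≤ N * (N.divisors.card * (|(α : ℝ)| * Real.sqrt N)) := by
  classical
  have h1 : ((univ : Finset (ZMod N × ZMod N)).filter (fun u => (α : ZMod N) * u.1 ^ 2
      + (β : ZMod N) * u.1 * u.2 + (γ : ZMod N) * u.2 ^ 2 = 0)).card
      = ∑ t : ZMod N, ((univ : Finset (ZMod N)).filter (fun s => (α : ZMod N) * s ^ 2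
        + ((β : ZMod N) * t) * s + (γ : ZMod N) * t ^ 2 = 0)).card := by
    rw [card_eq_sum_card_fiberwise (f := fun u : ZMod N × ZMod N => u.2)
      (t := (univ : Finset (ZMod N))) (fun u _ => mem_univ _)]
    refine sum_congr rfl (fun t _ => ?_)
    refine card_bij' (fun u _ => u.1) (fun s _ => (s, t)) ?_ ?_ ?_ ?_
    · intro u hu
      obtain ⟨hu1, hu2⟩ := mem_filter.1 hu
      have hu1' := (mem_filter.1 hu1).2
      have hu2' : u.2 = t := hu2
      rw [mem_filter]
      refine ⟨mem_univ _, ?_⟩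
      rw [← hu2']
      linear_combination hu1'
    · intro s hs
      have hs' := (mem_filter.1 hs).2
      rw [mem_filter, mem_filter]
      refine ⟨⟨mem_univ _, ?_⟩, rfl⟩
      show (α : ZMod N) * s ^ 2 + (β : ZMod N) * s * t + (γ : ZMod N) * t ^ 2 = 0
      linear_combination hs'
    · intro u hu
      obtain ⟨hu1, hu2⟩ := mem_filter.1 hu
      have hu2' : u.2 = t := hu2
      exact Prod.ext rfl hu2'.symm
    · intro s hs
      rfl
  rw [h1]
  push_cast
  calc _ ≤ ∑ _t : ZMod N, ((N.divisors.card : ℝ) * (|(α : ℝ)| * Real.sqrt N)) :=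
        sum_le_sum (fun t _ => fix_quad N α hα _ _)
    _ = _ := by rw [sum_const, nsmul_eq_mul, card_univ, ZMod.card]

/-- the sum of the greatest common divisors -/
theorem fix_gcdsum (N : ℕ) : ∑ t ∈ range N, Nat.gcd t N ≤ N * N.divisors.card := by
  classical
  rcases Nat.eq_zero_or_pos N with h0 | hN
  · subst h0; simp
  have h1 : ∑ t ∈ range N, Nat.gcd t N
      = ∑ e ∈ N.divisors, ∑ t ∈ (range N).filter (fun t => Nat.gcd t N = e), Nat.gcd t N := by
    rw [sum_fiberwise_of_maps_to]
    intro t _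
    exact Nat.mem_divisors.2 ⟨Nat.gcd_dvd_right _ _, hN.ne'⟩
  rw [h1, mul_comm, ← smul_eq_mul, ← sum_const]
  refine sum_le_sum (fun e he => ?_)
  obtain ⟨M, hM⟩ := (Nat.mem_divisors.1 he).1
  have he0 : 0 < e := Nat.pos_of_mem_divisors he
  rw [sum_congr rfl (fun t ht => (mem_filter.1 ht).2), sum_const, smul_eq_mul]
  have h2 : ((range N).filter (fun t => Nat.gcd t N = e)).card ≤ (range M).card := by
    refine card_le_card_of_injOn (fun t => t / e) ?_ ?_
    · intro t ht
      obtain ⟨h3, h4⟩ := mem_filter.1 ht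
      rw [mem_range] at h3
      show t / e ∈ (range M : Finset ℕ)
      rw [mem_range]
      exact Nat.div_lt_of_lt_mul (by rw [← hM]; exact h3)
    · intro t ht t' ht' h
      obtain ⟨-, h4⟩ := mem_filter.1 ht
      obtain ⟨-, h5⟩ := mem_filter.1 ht'
      obtain ⟨k, hk⟩ : e ∣ t := h4 ▸ Nat.gcd_dvd_left _ _
      obtain ⟨l, hl⟩ : e ∣ t' := h5 ▸ Nat.gcd_dvd_left _ _
      have h' : t / e = t' / e := h
      rw [hk, hl, Nat.mul_div_cancel_left _ he0, Nat.mul_div_cancel_left _ he0] at h'
      rw [hk, hl, h']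
  rw [card_range] at h2
  calc _ ≤ M * e := Nat.mul_le_mul_right _ h2
    _ = N := by rw [mul_comm, ← hM]

/-- number of zeros of `β s t` -/
theorem fix_T2 (N : ℕ) [NeZero N] (β : ℤ) (hβ : β ≠ 0) :
    (((univ : Finset (ZMod N × ZMod N)).filter (fun u =>
      (β : ZMod N) * u.1 * u.2 = 0)).card : ℝ) ≤ |(β : ℝ)| * (N * N.divisors.card) := by
  classical
  have hN : 1 ≤ N := Nat.pos_of_ne_zero (NeZero.ne N)
  have h1 : ((univ : Finset (ZMod N × ZMod N)).filter (fun u =>
      (β : ZMod N) * u.1 * u.2 = 0)).card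
      ≤ ∑ t : ZMod N, β.natAbs * Nat.gcd t.val N := by
    rw [card_eq_sum_card_fiberwise (f := fun u : ZMod N × ZMod N => u.2)
      (t := (univ : Finset (ZMod N))) (fun u _ => mem_univ _)]
    refine sum_le_sum (fun t _ => ?_)
    have h2 := fix_cnt N hN (β * t.val) 0
    have h3 : Int.gcd (β * t.val) N ≤ β.natAbs * Nat.gcd t.val N := by
      have h4 : Int.gcd (β * t.val) N ∣ β.natAbs * Nat.gcd t.val N := by
        have h5 : Int.gcd (β * t.val) N ∣ Int.gcd (β * t.val) (β * N) :=
          Int.gcd_dvd_gcd_mul_left_right _ _ _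
        rwa [Int.gcd_mul_left, Int.gcd_natCast_natCast] at h5
      exact Nat.le_of_dvd (Nat.mul_pos (Int.natAbs_pos.2 hβ)
        (Nat.gcd_pos_of_pos_right _ hN)) h4
    refine le_trans ?_ (h2.trans h3)
    refine card_le_card_of_injOn (fun u => u.1.val) ?_ ?_
    · intro u hu
      obtain ⟨hu1, hu2⟩ := mem_filter.1 hu
      have hu1' := (mem_filter.1 hu1).2
      have hu2' : u.2 = t := hu2
      show u.1.val ∈ (range N).filter _
      rw [mem_filter, mem_range]
      refine ⟨ZMod.val_lt _, ?_⟩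
      rw [← ZMod.intCast_zmod_eq_zero_iff_dvd]
      push_cast
      rw [ZMod.natCast_zmod_val, ZMod.natCast_zmod_val, ← hu2']
      linear_combination hu1'
    · intro u hu v hv huv
      obtain ⟨-, hu2⟩ := mem_filter.1 hu
      obtain ⟨-, hv2⟩ := mem_filter.1 hv
      have h4 : u.2 = t := hu2
      have h5 : v.2 = t := hv2
      exact Prod.ext (ZMod.val_injective N huv) (h4.trans h5.symm)
  have h2 : ∑ t : ZMod N, β.natAbs * Nat.gcd t.val N
      = β.natAbs * ∑ t ∈ range N, Nat.gcd t N := by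
    rw [← mul_sum]
    congr 1
    refine sum_bij' (fun (t : ZMod N) _ => t.val) (fun (t : ℕ) _ => (t : ZMod N)) ?_ ?_ ?_ ?_ ?_
    · intro t _
      exact mem_range.2 (ZMod.val_lt t)
    · intro t _
      exact mem_univ _
    · intro t _
      exact ZMod.natCast_zmod_val t
    · intro t ht
      exact ZMod.val_cast_of_lt (mem_range.1 ht)
    · intro t _
      rfl
  rw [h2] at h1
  have h3 := h1.trans (Nat.mul_le_mul_left β.natAbs (fix_gcdsum N))
  calc _ ≤ ((β.natAbs * (N * N.divisors.card) : ℕ) : ℝ) := by exact_mod_cast h3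
    _ = |(β : ℝ)| * (N * N.divisors.card) := by
        push_cast
        rw [Nat.cast_natAbs, Int.cast_abs]

/-- classes and pairs -/
theorem fix_orb (N : ℕ) [NeZero N] (S : Set (PN N)) (T : Finset (ZMod N × ZMod N))
    (h : ∀ x ∈ S, ∃ (s t : ℤ) (hu : Uni N s t), x = Quotient.mk (sPN N) ⟨(s, t), hu⟩ ∧
      ∀ l : (ZMod N)ˣ, ((l : ZMod N) * (s : ZMod N), (l : ZMod N) * (t : ZMod N)) ∈ T) :
    Nat.card S * Nat.totient N ≤ T.card := by
  classical
  have hN : 1 ≤ N := Nat.pos_of_ne_zero (NeZero.ne N)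
  have hfin := pnf_finite N hN
  have h' : ∀ x : S, ∃ (s t : ℤ) (hu : Uni N s t), x.1 = Quotient.mk (sPN N) ⟨(s, t), hu⟩ ∧
      ∀ l : (ZMod N)ˣ, ((l : ZMod N) * (s : ZMod N), (l : ZMod N) * (t : ZMod N)) ∈ T :=
    fun x => h x.1 x.2
  choose s t hu hx hl using h'
  let f : S × (ZMod N)ˣ → T := fun p =>
    ⟨((p.2 : ZMod N) * (s p.1 : ZMod N), (p.2 : ZMod N) * (t p.1 : ZMod N)), hl p.1 p.2⟩
  have hf : Function.Injective f := by
    rintro ⟨x, l⟩ ⟨y, m⟩ hxy
    have h0 := congrArg Subtype.val hxy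
    have h1 : (l : ZMod N) * (s x : ZMod N) = (m : ZMod N) * (s y : ZMod N) := congrArg Prod.fst h0
    have h2 : (l : ZMod N) * (t x : ZMod N) = (m : ZMod N) * (t y : ZMod N) := congrArg Prod.snd h0
    have hxy' : x = y := by
      apply Subtype.ext
      rw [hx x, hx y]
      apply Quotient.sound
      obtain ⟨n, hn⟩ := ZMod.intCast_surjective ((m⁻¹ * l : (ZMod N)ˣ) : ZMod N)
      refine ⟨n, ?_, ?_, ?_⟩
      · have : IsUnit ((n : ℤ) : ZMod N) := by
          rw [hn]
          exact Units.isUnit _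
        exact ((ZMod.coe_int_isUnit_iff_isCoprime n N).1 this).symm
      · rw [← ZMod.intCast_zmod_eq_zero_iff_dvd]
        push_cast
        rw [hn, Units.val_mul, mul_assoc, h1, ← mul_assoc, ← Units.val_mul, inv_mul_cancel,
          Units.val_one, one_mul, sub_self]
      · rw [← ZMod.intCast_zmod_eq_zero_iff_dvd]
        push_cast
        rw [hn, Units.val_mul, mul_assoc, h2, ← mul_assoc, ← Units.val_mul, inv_mul_cancel,
          Units.val_one, one_mul, sub_self]
    subst hxy'
    have hlm : l = m := by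
      apply Units.ext
      obtain ⟨a, b, k, hk⟩ := (pnf_uni_iff N (s x) (t x)).1 (hu x)
      have h3 : (a : ZMod N) * (s x : ZMod N) + (b : ZMod N) * (t x : ZMod N) = 1 := by
        have := congrArg (fun z : ℤ => (z : ZMod N)) hk
        push_cast at this
        rw [ZMod.natCast_self, mul_zero, add_zero] at this
        exact this
      linear_combination (-(l : ZMod N) + (m : ZMod N)) * h3 + (a : ZMod N) * h1
        + (b : ZMod N) * h2
    rw [hlm]
  have h1 : Nat.card (S × (ZMod N)ˣ) ≤ Nat.card T := Nat.card_le_card_of_injective f hf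
  rw [Nat.card_prod, Nat.card_eq_fintype_card (α := (ZMod N)ˣ), ZMod.card_units_eq_totient,
    Nat.card_eq_fintype_card (α := T), Fintype.card_coe] at h1
  exact h1

theorem fix_totient (N : ℕ) (hN : 1 ≤ N) : N ≤ N.divisors.card * Nat.totient N := by
  calc N = ∑ e ∈ N.divisors, Nat.totient e := (Nat.sum_totient N).symm
    _ ≤ ∑ _e ∈ N.divisors, Nat.totient N := by
        refine sum_le_sum (fun e he => ?_)
        exact Nat.le_of_dvd (Nat.totient_pos.2 hN)
          (Nat.totient_dvd_of_dvd (Nat.mem_divisors.1 he).1)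
    _ = N.divisors.card * Nat.totient N := by rw [sum_const, smul_eq_mul]

theorem st_FIX : ST_FIX := by
  classical
  intro N A a b c d a' b' c' d' hN _ _ hA1 hA2 hA3 hA4 hne
  have : NeZero N := ⟨by omega⟩
  set α : ℤ := a * b' - b * a' with hα
  set β : ℤ := (a * d' - b * c') - (d * a' - c * b') with hβ
  set γ : ℤ := c * d' - d * c' with hγ
  let T : Finset (ZMod N × ZMod N) := univ.filter (fun u => (α : ZMod N) * u.1 ^ 2
      + (β : ZMod N) * u.1 * u.2 + (γ : ZMod N) * u.2 ^ 2 = 0)
  have horb := fix_orb N {x : PN N | ∃ (s t : ℤ) (h : Uni N s t),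
    x = Quotient.mk (sPN N) ⟨(s, t), h⟩ ∧
    eqv N (s * a + t * c) (s * b + t * d) (s * a' + t * c') (s * b' + t * d')} T (by
      rintro x ⟨s, t, hu, hx, l, hl, h1, h2⟩
      refine ⟨s, t, hu, hx, fun m => ?_⟩
      rw [mem_filter]
      refine ⟨mem_univ _, ?_⟩
      have h3 : (N : ℤ) ∣ α * s ^ 2 + β * s * t + γ * t ^ 2 := by
        have e : α * s ^ 2 + β * s * t + γ * t ^ 2
            = (s * a + t * c) * ((s * b' + t * d') - l * (s * b + t * d))
              - (s * b + t * d) * ((s * a' + t * c') - l * (s * a + t * c)) := by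
          rw [hα, hβ, hγ]; ring
        rw [e]
        exact dvd_sub (Dvd.dvd.mul_left h2 _) (Dvd.dvd.mul_left h1 _)
      rw [← ZMod.intCast_zmod_eq_zero_iff_dvd] at h3
      push_cast at h3
      show (α : ZMod N) * ((m : ZMod N) * (s : ZMod N)) ^ 2
        + (β : ZMod N) * ((m : ZMod N) * (s : ZMod N)) * ((m : ZMod N) * (t : ZMod N))
        + (γ : ZMod N) * ((m : ZMod N) * (t : ZMod N)) ^ 2 = 0
      linear_combination (m : ZMod N) ^ 2 * h3)
  have htot := fix_totient N hN
  have hA0 : (0 : ℝ) ≤ A := Nat.cast_nonneg A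
  have hN0 : (0 : ℝ) < N := by exact_mod_cast hN
  have hN1 : (1 : ℝ) ≤ N := by exact_mod_cast hN
  have hsq : 1 ≤ Real.sqrt N := by rw [Real.one_le_sqrt]; exact hN1
  have htau : (0 : ℝ) ≤ N.divisors.card := Nat.cast_nonneg _
  -- the count of zeros
  have hT : (T.card : ℝ) ≤ 2 * A * (N * N.divisors.card * Real.sqrt N) := by
    by_cases h1 : α = 0
    · by_cases h2 : γ = 0
      · have h3 : β ≠ 0 := by
          intro h3
          refine hne ⟨by linarith, h2, by linarith⟩
        have h4 := fix_T2 N β h3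
        have h5 : T = (univ : Finset (ZMod N × ZMod N)).filter (fun u =>
            (β : ZMod N) * u.1 * u.2 = 0) := by
          refine filter_congr (fun u _ => ?_)
          rw [h1, h2]
          simp
        rw [h5]
        have h6 : |(β : ℝ)| ≤ 2 * A := by
          have h7 : |β| ≤ 2 * (A : ℤ) := by
            rw [hβ]
            refine (abs_sub _ _).trans ?_
            linarith
          have h8 : ((|β| : ℤ) : ℝ) ≤ ((2 * (A : ℤ) : ℤ) : ℝ) := by exact_mod_cast h7
          rw [Int.cast_abs] at h8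
          push_cast at h8
          exact h8
        refine h4.trans ?_
        have h9 : (0 : ℝ) ≤ N * N.divisors.card := by positivity
        calc |(β : ℝ)| * (N * N.divisors.card) ≤ 2 * A * (N * N.divisors.card) :=
              mul_le_mul_of_nonneg_right h6 h9
          _ ≤ 2 * A * (N * N.divisors.card * Real.sqrt N) := by
              refine mul_le_mul_of_nonneg_left ?_ (by positivity)
              nlinarith
      · have h4 := fix_T1 N γ β α h2
        have h5 : T.card = ((univ : Finset (ZMod N × ZMod N)).filter (fun u => (γ : ZMod N) * u.1 ^ 2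
            + (β : ZMod N) * u.1 * u.2 + (α : ZMod N) * u.2 ^ 2 = 0)).card := by
          refine card_bij' (fun u _ => (u.2, u.1)) (fun u _ => (u.2, u.1)) ?_ ?_ ?_ ?_
          · intro u hu
            have := (mem_filter.1 hu).2
            refine mem_filter.2 ⟨mem_univ _, ?_⟩
            show (γ : ZMod N) * u.2 ^ 2 + (β : ZMod N) * u.2 * u.1 + (α : ZMod N) * u.1 ^ 2 = 0
            linear_combination this
          · intro u hu
            have := (mem_filter.1 hu).2
            refine mem_filter.2 ⟨mem_univ _, ?_⟩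
            show (α : ZMod N) * u.2 ^ 2 + (β : ZMod N) * u.2 * u.1 + (γ : ZMod N) * u.1 ^ 2 = 0
            linear_combination this
          · intro u _; rfl
          · intro u _; rfl
        rw [h5]
        refine h4.trans ?_
        have h6 : |(γ : ℝ)| ≤ A := by
          have h8 : ((|γ| : ℤ) : ℝ) ≤ ((A : ℤ) : ℝ) := by exact_mod_cast hA3
          rw [Int.cast_abs] at h8
          push_cast at h8
          exact h8
        have h9 : (0 : ℝ) ≤ N * N.divisors.card * Real.sqrt N := by positivity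
        calc (N : ℝ) * (N.divisors.card * (|(γ : ℝ)| * Real.sqrt N))
            = |(γ : ℝ)| * (N * N.divisors.card * Real.sqrt N) := by ring
          _ ≤ A * (N * N.divisors.card * Real.sqrt N) := mul_le_mul_of_nonneg_right h6 h9
          _ ≤ 2 * A * (N * N.divisors.card * Real.sqrt N) := by
              refine mul_le_mul_of_nonneg_right ?_ h9
              linarith
    · refine (fix_T1 N α β γ h1).trans ?_
      have h6 : |(α : ℝ)| ≤ A := by
        have h7 : |α| ≤ (A : ℤ) := by
          rw [hα, abs_sub_comm]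
          exact hA2
        have h8 : ((|α| : ℤ) : ℝ) ≤ ((A : ℤ) : ℝ) := by exact_mod_cast h7
        rw [Int.cast_abs] at h8
        push_cast at h8
        exact h8
      have h9 : (0 : ℝ) ≤ N * N.divisors.card * Real.sqrt N := by positivity
      calc (N : ℝ) * (N.divisors.card * (|(α : ℝ)| * Real.sqrt N))
          = |(α : ℝ)| * (N * N.divisors.card * Real.sqrt N) := by ring
        _ ≤ A * (N * N.divisors.card * Real.sqrt N) := mul_le_mul_of_nonneg_right h6 h9
        _ ≤ 2 * A * (N * N.divisors.card * Real.sqrt N) := by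
            refine mul_le_mul_of_nonneg_right ?_ h9
            linarith
  -- conclusion
  set X : ℕ := Nat.card {x : PN N | ∃ (s t : ℤ) (h : Uni N s t),
    x = Quotient.mk (sPN N) ⟨(s, t), h⟩ ∧
    eqv N (s * a + t * c) (s * b + t * d) (s * a' + t * c') (s * b' + t * d')} with hX
  have hX1 : (X : ℝ) * N ≤ N.divisors.card * (X * Nat.totient N) := by
    have : ((N : ℕ) : ℝ) ≤ ((N.divisors.card * Nat.totient N : ℕ) : ℝ) := by exact_mod_cast htot
    push_cast at this
    have h0 : (0 : ℝ) ≤ X := Nat.cast_nonneg _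
    calc (X : ℝ) * N ≤ X * (N.divisors.card * Nat.totient N) := mul_le_mul_of_nonneg_left this h0
      _ = _ := by ring
  have hX2 : (X : ℝ) * Nat.totient N ≤ T.card := by exact_mod_cast horb
  have hX3 : (X : ℝ) * N ≤ (2 * A * (N.divisors.card : ℝ) ^ 2 * Real.sqrt N) * N := by
    calc (X : ℝ) * N ≤ N.divisors.card * (X * Nat.totient N) := hX1
      _ ≤ N.divisors.card * (2 * A * (N * N.divisors.card * Real.sqrt N)) :=
          mul_le_mul_of_nonneg_left (hX2.trans hT) htau
      _ = _ := by ring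
  exact le_of_mul_le_mul_right hX3 hN0

end Pool.Agent.Helper96.MP
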