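import Pool.Agent.Helper9.MP.Lib

/-!
# MP_bde085_nt, module HPC: spheres in the tree
-/

set_option autoImplicit false

namespace Pool.Agent.Helper96.MP

open Complex MeasureTheory Filter Topology
open scoped MatrixGroups

theorem hpc_mem_Tn (n : ℕ) (t : ℕ × ℕ × ℕ) (hn : 1 ≤ n) :
    t ∈ Tn n ↔ t.1 * t.2.2 = n ∧ t.2.1 < t.2.2 := by
  unfold Tn
  simp only [Finset.mem_filter, Finset.mem_product, Finset.mem_range]
  constructor
  · rintro ⟨_, h⟩; exact h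
  · rintro ⟨h1, h2⟩
    have h3 : t.1 ∣ n := ⟨_, h1.symm⟩
    have h4 : t.2.2 ∣ n := ⟨t.1, by rw [mul_comm]; exact h1.symm⟩
    have h5 := Nat.le_of_dvd (by omega) h3
    have h6 := Nat.le_of_dvd (by omega) h4
    exact ⟨⟨by omega, by omega, by omega⟩, h1, h2⟩

theorem hpc_mem (p j : ℕ) (hp : p.Prime) (t : ℕ × ℕ × ℕ) :
    t ∈ Tn (p ^ j) ↔ ∃ k ≤ j, t.2.1 < p ^ k ∧ t.1 = p ^ (j - k) ∧ t.2.2 = p ^ k := by
  rw [hpc_mem_Tn _ _ (Nat.one_le_pow _ _ hp.pos)]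
  constructor
  · rintro ⟨h1, h2⟩
    have h4 : t.2.2 ∣ p ^ j := ⟨t.1, by rw [mul_comm]; exact h1.symm⟩
    obtain ⟨k, hk, hk2⟩ := (Nat.dvd_prime_pow hp).1 h4
    refine ⟨k, hk, by rw [← hk2]; exact h2, ?_, hk2⟩
    have h5 : t.1 * p ^ k = p ^ (j - k) * p ^ k := by
      rw [← pow_add, Nat.sub_add_cancel hk, ← h1, hk2]
    exact Nat.eq_of_mul_eq_mul_right (Nat.pow_pos hp.pos) h5
  · rintro ⟨k, hk, h1, h2, h3⟩
    refine ⟨?_, by rw [h3]; exact h1⟩
    rw [h2, h3, ← pow_add, Nat.sub_add_cancel hk]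

theorem hpc_sumTn {R : Type} [AddCommMonoid R] (p j : ℕ) (hp : p.Prime) (f : ℕ × ℕ × ℕ → R) :
    ∑ t ∈ Tn (p ^ j), f t =
      ∑ k ∈ Finset.range (j + 1), ∑ b ∈ Finset.range (p ^ k), f (p ^ (j - k), b, p ^ k) := by
  rw [Finset.sum_sigma']
  refine Finset.sum_bij' (i := fun t _ => ⟨Nat.log p t.2.2, t.2.1⟩)
    (j := fun s _ => (p ^ (j - s.1), s.2, p ^ s.1)) ?_ ?_ ?_ ?_ ?_
  · intro t ht
    obtain ⟨k, hk, h1, h2, h3⟩ := (hpc_mem p j hp t).1 ht
    rw [Finset.mem_sigma]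
    simp only [Finset.mem_range]
    rw [h3, Nat.log_pow hp.one_lt]
    exact ⟨by omega, h1⟩
  · intro s hs
    rw [Finset.mem_sigma] at hs
    simp only [Finset.mem_range] at hs
    rw [hpc_mem p j hp]
    exact ⟨s.1, by omega, hs.2, rfl, rfl⟩
  · intro t ht
    obtain ⟨k, hk, h1, h2, h3⟩ := (hpc_mem p j hp t).1 ht
    simp only
    rw [h3, Nat.log_pow hp.one_lt, ← h2, ← h3]
  · intro s hs
    simp only
    rw [Nat.log_pow hp.one_lt]
  · intro t ht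
    obtain ⟨k, hk, h1, h2, h3⟩ := (hpc_mem p j hp t).1 ht
    simp only
    rw [h3, Nat.log_pow hp.one_lt, ← h2, ← h3]

/-- the full sum -/
noncomputable def hpc_F (p j : ℕ) (G : ℂ → ℂ) (z : ℂ) : ℂ := ∑ t ∈ Tn (p ^ j), G (act t z)

noncomputable def hpc_S (p j : ℕ) (G : ℂ → ℂ) (z : ℂ) : ℂ := ∑ t ∈ Pj p j, G (act t z)

theorem hpc_F_eq (p j : ℕ) (hp : p.Prime) (G : ℂ → ℂ) (z : ℂ) :
    hpc_F p j G z = ∑ k ∈ Finset.range (j + 1), ∑ b ∈ Finset.range (p ^ k),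
      G (((p : ℂ) ^ (j - k) * z + b) / (p : ℂ) ^ k) := by
  unfold hpc_F
  rw [hpc_sumTn p j hp]
  refine Finset.sum_congr rfl fun k _ => Finset.sum_congr rfl fun b _ => ?_
  unfold act
  push_cast
  rfl

/-- block decomposition of a range -/
theorem hpc_block {R : Type} [AddCommMonoid R] (n m : ℕ) (f : ℕ → R) :
    ∑ c ∈ Finset.range (n * m), f c = ∑ b ∈ Finset.range n, ∑ b' ∈ Finset.range m, f (b + b' * n) := by
  rw [Finset.sum_comm]
  induction m with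
  | zero => simp
  | succ m ih =>
    rw [Nat.mul_succ, Finset.sum_range_add, ih, Finset.sum_range_succ]
    congr 1
    refine Finset.sum_congr rfl fun x _ => ?_
    rw [Nat.mul_comm m n, Nat.add_comm]

theorem hpc_per (G : ℂ → ℂ) (hG : ∀ z ∈ UH, G (z + 1) = G z) (z : ℂ) (hz : z ∈ UH) (n : ℕ) :
    G (z + n) = G z := by
  induction n with
  | zero => simp
  | succ n ih =>
    have h1 : z + ((n + 1 : ℕ) : ℂ) = (z + n) + 1 := by push_cast; ring
    have h2 : z + (n : ℂ) ∈ UH := by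
      show 0 < (z + (n : ℂ)).im
      rw [add_im, natCast_im, add_zero]
      exact hz
    rw [h1, hG _ h2, ih]

theorem hpc_UH (p i k b : ℕ) (hp : 0 < p) (z : ℂ) (hz : z ∈ UH) :
    ((p : ℂ) ^ i * z + b) / (p : ℂ) ^ k ∈ UH := by
  show 0 < (((p : ℂ) ^ i * z + b) / (p : ℂ) ^ k).im
  have h1 : ((p : ℂ) ^ i * z + b) / (p : ℂ) ^ k =
      (((p : ℝ) ^ i / (p : ℝ) ^ k : ℝ) : ℂ) * z + (((b : ℝ) / (p : ℝ) ^ k : ℝ) : ℂ) := by
    push_cast
    ring
  rw [h1, add_im, ofReal_im, im_ofReal_mul, add_zero]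
  have hp' : (0 : ℝ) < p := by exact_mod_cast hp
  have hz' : 0 < z.im := hz
  positivity

theorem hpc_F_one (p : ℕ) (hp : p.Prime) (G : ℂ → ℂ) (w : ℂ) :
    hpc_F p 1 G w = G ((p : ℂ) * w) + ∑ b ∈ Finset.range p, G ((w + b) / (p : ℂ)) := by
  rw [hpc_F_eq p 1 hp, Finset.sum_range_succ, Finset.sum_range_succ, Finset.sum_range_zero, zero_add]
  congr 1
  · simp
  · rw [pow_one]
    refine Finset.sum_congr rfl fun b _ => ?_
    simp

theorem hpc_hecke (p i : ℕ) (hp : p.Prime) (G : ℂ → ℂ) (hG : ∀ z ∈ UH, G (z + 1) = G z)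
    (z : ℂ) (hz : z ∈ UH) :
    hpc_F p (i + 1) (hpc_F p 1 G) z = hpc_F p (i + 2) G z + (p : ℂ) * hpc_F p i G z := by
  have hp0 : (p : ℂ) ≠ 0 := by exact_mod_cast hp.ne_zero
  rw [hpc_F_eq p (i + 1) hp, hpc_F_eq p (i + 2) hp]
  -- second part
  have hA : ∀ k ∈ Finset.range (i + 1 + 1),
      ∑ b ∈ Finset.range (p ^ k), hpc_F p 1 G (((p : ℂ) ^ (i + 1 - k) * z + b) / (p : ℂ) ^ k) =
      ∑ b ∈ Finset.range (p ^ k), G ((p : ℂ) * (((p : ℂ) ^ (i + 1 - k) * z + b) / (p : ℂ) ^ k)) +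
      ∑ c ∈ Finset.range (p ^ (k + 1)),
        G (((p : ℂ) ^ (i + 2 - (k + 1)) * z + c) / (p : ℂ) ^ (k + 1)) := by
    intro k _
    rw [pow_succ p k, hpc_block (p ^ k) p, ← Finset.sum_add_distrib]
    refine Finset.sum_congr rfl fun b _ => ?_
    rw [hpc_F_one p hp]
    congr 1
    refine Finset.sum_congr rfl fun b' _ => ?_
    congr 1
    have e1 : i + 2 - (k + 1) = i + 1 - k := by omega
    rw [e1]
    push_cast
    field_simp
    ring
  rw [Finset.sum_congr rfl hA, Finset.sum_add_distrib]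
  -- the second sum and the term `k = 0` of the first give `F (i+2)`
  have hB : ∑ k ∈ Finset.range (i + 2 + 1), ∑ b ∈ Finset.range (p ^ k),
      G (((p : ℂ) ^ (i + 2 - k) * z + b) / (p : ℂ) ^ k) =
      ∑ k ∈ Finset.range (i + 1 + 1), ∑ c ∈ Finset.range (p ^ (k + 1)),
        G (((p : ℂ) ^ (i + 2 - (k + 1)) * z + c) / (p : ℂ) ^ (k + 1)) +
      G ((p : ℂ) ^ (i + 2) * z) := by
    rw [Finset.sum_range_succ']
    congr 1
    simp
  have hC : ∑ k ∈ Finset.range (i + 1 + 1), ∑ b ∈ Finset.range (p ^ k),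
      G ((p : ℂ) * (((p : ℂ) ^ (i + 1 - k) * z + b) / (p : ℂ) ^ k)) =
      (p : ℂ) * hpc_F p i G z + G ((p : ℂ) ^ (i + 2) * z) := by
    rw [Finset.sum_range_succ', hpc_F_eq p i hp, Finset.mul_sum]
    congr 1
    · refine Finset.sum_congr rfl fun m hm => ?_
      rw [pow_succ p m, hpc_block (p ^ m) p, Finset.mul_sum]
      refine Finset.sum_congr rfl fun b _ => ?_
      have hterm : ∀ b' ∈ Finset.range p,
          G ((p : ℂ) * (((p : ℂ) ^ (i + 1 - (m + 1)) * z + ((b + b' * p ^ m : ℕ) : ℂ)) /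
            (p : ℂ) ^ (m + 1))) = G (((p : ℂ) ^ (i - m) * z + b) / (p : ℂ) ^ m) := by
        intro b' _
        rw [← hpc_per G hG _ (hpc_UH p (i - m) m b hp.pos z hz) b']
        congr 1
        have e1 : i + 1 - (m + 1) = i - m := by omega
        rw [e1]
        push_cast
        field_simp
        ring
      rw [Finset.sum_congr rfl hterm, Finset.sum_const, Finset.card_range, nsmul_eq_mul]
    · simp only [pow_zero, Finset.range_one, Finset.sum_singleton, Nat.cast_zero, add_zero,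
        Nat.sub_zero, div_one]
      congr 1
      ring
  rw [hB, hC]
  ring

theorem hpc_split (p j : ℕ) (hp : p.Prime) (G : ℂ → ℂ) (z : ℂ) :
    hpc_F p (j + 2) G z = hpc_S p (j + 2) G z + hpc_F p j G z := by
  have hp0 : (p : ℂ) ≠ 0 := by exact_mod_cast hp.ne_zero
  unfold hpc_F hpc_S Pj
  rw [← Finset.sum_filter_add_sum_filter_not (Tn (p ^ (j + 2)))
    (fun t => Nat.gcd (Nat.gcd t.1 t.2.1) t.2.2 = 1)]
  congr 1
  have hmemN : ∀ t : ℕ × ℕ × ℕ, t ∈ Tn (p ^ (j + 2)) →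
      ¬ Nat.gcd (Nat.gcd t.1 t.2.1) t.2.2 = 1 →
      ∃ a b d, t = (p * a, p * b, p * d) ∧ a * d = p ^ j ∧ b < d := by
    intro t ht hn
    obtain ⟨h1, h2⟩ := (hpc_mem_Tn _ _ (Nat.one_le_pow _ _ hp.pos)).1 ht
    have hg1 : Nat.gcd (Nat.gcd t.1 t.2.1) t.2.2 ∣ t.1 :=
      (Nat.gcd_dvd_left _ _).trans (Nat.gcd_dvd_left _ _)
    have hg2 : Nat.gcd (Nat.gcd t.1 t.2.1) t.2.2 ∣ t.2.1 :=
      (Nat.gcd_dvd_left _ _).trans (Nat.gcd_dvd_right _ _)
    have hg3 : Nat.gcd (Nat.gcd t.1 t.2.1) t.2.2 ∣ t.2.2 := Nat.gcd_dvd_right _ _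
    have hg4 : Nat.gcd (Nat.gcd t.1 t.2.1) t.2.2 ∣ p ^ (j + 2) := by
      rw [← h1]; exact hg1.mul_right _
    obtain ⟨i, hi, hi2⟩ := (Nat.dvd_prime_pow hp).1 hg4
    have hi0 : i ≠ 0 := by
      rintro rfl
      exact hn (by rw [hi2, pow_zero])
    have hpg : p ∣ Nat.gcd (Nat.gcd t.1 t.2.1) t.2.2 := by
      rw [hi2]; exact dvd_pow_self p hi0
    obtain ⟨a, ha⟩ := hpg.trans hg1
    obtain ⟨b, hb⟩ := hpg.trans hg2
    obtain ⟨d, hd⟩ := hpg.trans hg3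
    refine ⟨a, b, d, ?_, ?_, ?_⟩
    · rw [← ha, ← hb, ← hd]
    · have h3 : p ^ 2 * (a * d) = p ^ 2 * p ^ j := by
        rw [← pow_add, Nat.add_comm 2 j, ← h1, ha, hd]; ring
      exact Nat.eq_of_mul_eq_mul_left (Nat.pow_pos hp.pos) h3
    · rw [hb, hd] at h2
      exact Nat.lt_of_mul_lt_mul_left h2
  refine Finset.sum_bij' (i := fun t _ => (t.1 / p, t.2.1 / p, t.2.2 / p))
    (j := fun t _ => (p * t.1, p * t.2.1, p * t.2.2)) ?_ ?_ ?_ ?_ ?_
  · intro t ht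
    rw [Finset.mem_filter] at ht
    obtain ⟨a, b, d, rfl, h1, h2⟩ := hmemN t ht.1 ht.2
    simp only
    rw [Nat.mul_div_cancel_left _ hp.pos, Nat.mul_div_cancel_left _ hp.pos,
      Nat.mul_div_cancel_left _ hp.pos, hpc_mem_Tn _ _ (Nat.one_le_pow _ _ hp.pos)]
    exact ⟨h1, h2⟩
  · intro t ht
    obtain ⟨h1, h2⟩ := (hpc_mem_Tn _ _ (Nat.one_le_pow _ _ hp.pos)).1 ht
    rw [Finset.mem_filter, hpc_mem_Tn _ _ (Nat.one_le_pow _ _ hp.pos)]
    refine ⟨⟨?_, ?_⟩, ?_⟩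
    · simp only
      rw [pow_add, ← h1]; ring
    · exact Nat.mul_lt_mul_of_pos_left h2 hp.pos
    · intro h
      have hd : p ∣ Nat.gcd (Nat.gcd (p * t.1) (p * t.2.1)) (p * t.2.2) :=
        Nat.dvd_gcd (Nat.dvd_gcd (dvd_mul_right _ _) (dvd_mul_right _ _)) (dvd_mul_right _ _)
      simp only at h
      rw [h] at hd
      exact hp.one_lt.ne' (Nat.dvd_one.1 hd)
  · intro t ht
    rw [Finset.mem_filter] at ht
    obtain ⟨a, b, d, rfl, h1, h2⟩ := hmemN t ht.1 ht.2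
    simp only
    rw [Nat.mul_div_cancel_left _ hp.pos, Nat.mul_div_cancel_left _ hp.pos,
      Nat.mul_div_cancel_left _ hp.pos]
  · intro t ht
    simp only
    rw [Nat.mul_div_cancel_left _ hp.pos, Nat.mul_div_cancel_left _ hp.pos,
      Nat.mul_div_cancel_left _ hp.pos]
  · intro t ht
    rw [Finset.mem_filter] at ht
    obtain ⟨a, b, d, rfl, h1, h2⟩ := hmemN t ht.1 ht.2
    simp only
    rw [Nat.mul_div_cancel_left _ hp.pos, Nat.mul_div_cancel_left _ hp.pos,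
      Nat.mul_div_cancel_left _ hp.pos]
    congr 1
    unfold act
    simp only
    push_cast
    rw [mul_assoc, ← mul_add, mul_div_mul_left _ _ hp0]

theorem hpc_Pj_small (p j : ℕ) (hp : p.Prime) (hj : j ≤ 1) : Pj p j = Tn (p ^ j) := by
  unfold Pj
  rw [Finset.filter_eq_self]
  intro t ht
  obtain ⟨h1, h2⟩ := (hpc_mem_Tn _ _ (Nat.one_le_pow _ _ hp.pos)).1 ht
  have hg1 : Nat.gcd (Nat.gcd t.1 t.2.1) t.2.2 ∣ t.1 :=
    (Nat.gcd_dvd_left _ _).trans (Nat.gcd_dvd_left _ _)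
  have hg3 : Nat.gcd (Nat.gcd t.1 t.2.1) t.2.2 ∣ t.2.2 := Nat.gcd_dvd_right _ _
  have hg : Nat.gcd (Nat.gcd t.1 t.2.1) t.2.2 ∣ Nat.gcd t.1 t.2.2 := Nat.dvd_gcd hg1 hg3
  have hc : Nat.gcd t.1 t.2.2 = 1 := by
    interval_cases j
    · rw [pow_zero] at h1
      rw [Nat.eq_one_of_mul_eq_one_right h1]
      exact Nat.gcd_one_left _
    · rw [pow_one] at h1
      by_contra hne
      obtain ⟨q, hq, hqd⟩ := Nat.exists_prime_and_dvd hne
      have hq1 : q ∣ t.1 := hqd.trans (Nat.gcd_dvd_left _ _)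
      have hq2 : q ∣ t.2.2 := hqd.trans (Nat.gcd_dvd_right _ _)
      have hqq : q * q ∣ p := by rw [← h1]; exact mul_dvd_mul hq1 hq2
      have hqp : q = p := (Nat.prime_dvd_prime_iff_eq hq hp).1 ((dvd_mul_right q q).trans hqq)
      rw [hqp] at hqq
      have := Nat.le_of_dvd hp.pos hqq
      nlinarith [hp.two_le]
  rw [hc] at hg
  exact Nat.dvd_one.1 hg

theorem hpc_card (p j : ℕ) (hp : p.Prime) : (Tn (p ^ j)).card ≤ 2 * p ^ j := by
  have h1 : (Tn (p ^ j)).card = ∑ k ∈ Finset.range (j + 1), p ^ k := by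
    have := hpc_sumTn p j hp (fun _ => (1 : ℕ))
    simpa using this
  rw [h1]
  induction j with
  | zero => simp
  | succ j ih =>
    have ih' := ih (by
      have := hpc_sumTn p j hp (fun _ => (1 : ℕ))
      simpa using this)
    rw [Finset.sum_range_succ]
    have h2 : 2 * p ^ j ≤ p ^ (j + 1) := by
      rw [pow_succ, mul_comm]
      exact Nat.mul_le_mul_left _ hp.two_le
    omega

theorem st_HPC : ST_HPC := by
  intro p j hp
  refine ⟨?_, ?_, ?_⟩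
  · have h1 : (Pj p j).card ≤ (Tn (p ^ j)).card := Finset.card_filter_le _ _
    have h2 := h1.trans (hpc_card p j hp)
    exact_mod_cast h2
  · have := hpc_Pj_small p 1 hp le_rfl
    rwa [pow_one] at this
  · intro hj G hG z hz
    have hS0 : ∀ G : ℂ → ℂ, hpc_S p 0 G = hpc_F p 0 G := by
      intro G; funext w; unfold hpc_S hpc_F; rw [hpc_Pj_small p 0 hp (by norm_num)]
    have hS1 : ∀ G : ℂ → ℂ, hpc_S p 1 G = hpc_F p 1 G := by
      intro G; funext w; unfold hpc_S hpc_F; rw [hpc_Pj_small p 1 hp le_rfl]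
    change hpc_S p j (hpc_S p 1 G) z = hpc_S p (j + 1) G z +
      (if j = 1 then ((p : ℂ) + 1) else (p : ℂ)) * hpc_S p (j - 1) G z
    rw [hS1 G]
    rcases Nat.lt_or_ge j 2 with h2 | h2
    · have hj1 : j = 1 := by omega
      subst hj1
      rw [if_pos rfl, hS1, hpc_hecke p 0 hp G hG z hz, hpc_split p 0 hp G z, Nat.sub_self, hS0]
      ring
    · obtain ⟨i, rfl⟩ : ∃ i, j = i + 2 := ⟨j - 2, by omega⟩
      rw [if_neg (by omega)]
      have e1 := hpc_split p i hp (hpc_F p 1 G) z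
      have e2 := hpc_hecke p (i + 1) hp G hG z hz
      have e3 := hpc_split p (i + 1) hp G z
      have e4 : i + 2 - 1 = i + 1 := by omega
      rw [e4]
      rcases Nat.eq_zero_or_pos i with rfl | hi
      · have e5 : hpc_F p 0 (hpc_F p 1 G) z = hpc_F p 1 G z := by
          conv_lhs => rw [hpc_F_eq p 0 hp]
          simp
        rw [Nat.zero_add] at e1 e2 e3 ⊢
        rw [hS1]
        rw [e2, e5] at e1
        rw [e3] at e1
        linear_combination -e1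
      · obtain ⟨m, rfl⟩ : ∃ m, i = m + 1 := ⟨i - 1, by omega⟩
        have e5 := hpc_hecke p m hp G hG z hz
        have e6 := hpc_split p m hp G z
        rw [e2, e5, e3] at e1
        have e7 : m + 1 + 1 = m + 2 := rfl
        rw [e7] at e1 ⊢
        linear_combination -e1 + (p : ℂ) * e6
end Pool.Agent.Helper96.MP
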