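import Pool.Agent.Helper9.MP.Lat

/-!
# MP_bde085_nt, module KERN: discriminant of the kernel of a self-adjoint integral operator
-/

set_option autoImplicit false

namespace Pool.Agent.Helper96.MP

/-- real solutions of an integral linear system are real combinations of integral solutions -/
theorem kern_real {m n : ℕ} (M : Matrix (Fin n) (Fin m) ℤ) (x : Fin m → ℝ)
    (hx : ∀ i, ∑ j, (M i j : ℝ) * x j = 0) :
    x ∈ Submodule.span ℝ {y : Fin m → ℝ | ∃ k : Fin m → ℤ, (∀ i, ∑ j, M i j * k j = 0) ∧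
      y = fun j => (k j : ℝ)} := by
  classical
  let W : Submodule ℚ ℝ := Submodule.span ℚ (Set.range x)
  have hxW : ∀ j, x j ∈ W := fun j => Submodule.subset_span ⟨j, rfl⟩
  have : Module.Finite ℚ W := Module.Finite.span_of_finite ℚ (Set.finite_range x)
  let θ := Module.finBasis ℚ W
  let q : Fin m → Fin (Module.finrank ℚ W) → ℚ := fun j t => θ.repr ⟨x j, hxW j⟩ t
  have hq : ∀ j, x j = ∑ t, (q j t : ℝ) * (θ t : ℝ) := by
    intro j
    have h1 := θ.sum_repr ⟨x j, hxW j⟩
    have h2 := congrArg (fun w : W => (w : ℝ)) h1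
    simp only [AddSubmonoidClass.coe_finsetSum, Submodule.coe_smul] at h2
    rw [← h2]
    apply Finset.sum_congr rfl
    intro t _
    rw [Rat.smul_def]
  have hM : ∀ i t, ∑ j, (M i j : ℚ) * q j t = 0 := by
    intro i t
    have h1 : (∑ j, (M i j : ℚ) • (⟨x j, hxW j⟩ : W)) = 0 := by
      apply Subtype.ext
      simp only [AddSubmonoidClass.coe_finsetSum, Submodule.coe_smul, ZeroMemClass.coe_zero]
      rw [← hx i]
      apply Finset.sum_congr rfl
      intro j _
      rw [Rat.smul_def]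
      push_cast
      rfl
    have h2 := congrArg (fun w => θ.coord t w) h1
    rw [map_sum, map_zero] at h2
    rw [← h2]
    apply Finset.sum_congr rfl
    intro j _
    rw [map_smul, smul_eq_mul]
    rfl
  have hD : ∀ t, ∃ (D : ℕ) (k : Fin m → ℤ), D ≠ 0 ∧ ∀ j, (k j : ℚ) = q j t * D := by
    intro t
    refine ⟨∏ j, (q j t).den, ?_⟩
    have h1 : ∀ j, ∃ k : ℤ, (k : ℚ) = q j t * ((∏ j, (q j t).den : ℕ) : ℚ) := by
      intro j
      obtain ⟨e, he⟩ := Finset.dvd_prod_of_mem (fun j => (q j t).den) (Finset.mem_univ j)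
      refine ⟨(q j t).num * e, ?_⟩
      rw [he]
      push_cast
      rw [← mul_assoc, Rat.mul_den_eq_num]
    choose k hk using h1
    exact ⟨k, Finset.prod_ne_zero_iff.2 (fun j _ => (q j t).den_nz), hk⟩
  choose D k hD0 hk using hD
  have hxs : x = ∑ t, ((θ t : ℝ) / (D t : ℝ)) • (fun j => ((k t j : ℤ) : ℝ)) := by
    funext j
    rw [hq j, Finset.sum_apply]
    apply Finset.sum_congr rfl
    intro t _
    have h1 : ((k t j : ℤ) : ℝ) = (q j t : ℝ) * (D t : ℝ) := by
      have := hk t j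
      exact_mod_cast this
    have h2 : (D t : ℝ) ≠ 0 := by exact_mod_cast hD0 t
    rw [Pi.smul_apply, smul_eq_mul, h1]
    field_simp
  rw [hxs]
  apply Submodule.sum_mem
  intro t _
  apply Submodule.smul_mem
  apply Submodule.subset_span
  refine ⟨k t, ?_, rfl⟩
  intro i
  have h1 : ((∑ j, M i j * k t j : ℤ) : ℚ) = 0 := by
    push_cast
    have : ∑ j, (M i j : ℚ) * (k t j : ℚ) = (∑ j, (M i j : ℚ) * q j t) * D t := by
      rw [Finset.sum_mul]
      apply Finset.sum_congr rfl
      intro j _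
      rw [hk t j]; ring
    rw [this, hM i t, zero_mul]
  exact_mod_cast h1

/-- determinant of a symmetric operator of norm at most `c` with trivial kernel -/
theorem kern_sym {W : Type} [AddCommGroup W] [Module ℝ W] [FiniteDimensional ℝ W]
    (ip : W →ₗ[ℝ] W →ₗ[ℝ] ℝ) (T : W →ₗ[ℝ] W) (c : ℝ) (hc : 1 ≤ c)
    (hs : ∀ x y, ip x y = ip y x) (hp : ∀ x, x ≠ 0 → 0 < ip x x)
    (hT : ∀ x y, ip (T x) y = ip x (T y)) (hb : ∀ x, ip (T x) (T x) ≤ c ^ 2 * ip x x)
    (hk : ∀ x, T x = 0 → x = 0) :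
    T.det ≠ 0 ∧ |T.det| ≤ c ^ (Module.finrank ℝ W) := by
  let core : InnerProductSpace.Core ℝ W :=
    { inner := fun x y => ip x y
      conj_inner_symm := fun x y => by simp [hs x y]
      re_inner_nonneg := fun x => by
        by_cases h : x = 0
        · simp [h]
        · simpa using (hp x h).le
      add_left := fun x y z => by simp
      smul_left := fun x y r => by simp
      definite := fun x h => by
        by_contra hx
        exact (hp x hx).ne' h }
  let _ : NormedAddCommGroup W := core.toNormedAddCommGroup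
  let _ : InnerProductSpace ℝ W := InnerProductSpace.ofCore core.toCore
  have hsym : T.IsSymmetric := fun x y => hT x y
  have hdet := hsym.det_eq_prod_eigenvalues (rfl : Module.finrank ℝ W = Module.finrank ℝ W)
  have hev : ∀ i, hsym.eigenvalues rfl i ≠ 0 ∧ |hsym.eigenvalues rfl i| ≤ c := by
    intro i
    have h1 := hsym.apply_eigenvectorBasis rfl i
    set v := hsym.eigenvectorBasis rfl i with hv
    set l := hsym.eigenvalues rfl i with hl
    have hv0 : v ≠ 0 := (hsym.eigenvectorBasis rfl).toBasis.ne_zero i |> fun h => by simpa using h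
    have h1' : T v = l • v := by simpa using h1
    constructor
    · intro h0
      rw [h0, zero_smul] at h1'
      exact hv0 (hk v h1')
    · have h2 := hb v
      rw [h1'] at h2
      simp only [map_smul, LinearMap.smul_apply, smul_eq_mul] at h2
      have h3 := hp v hv0
      have h4 : l ^ 2 ≤ c ^ 2 := by
        by_contra hcon
        push Not at hcon
        nlinarith
      exact abs_le_of_sq_le_sq h4 (by linarith)
  rw [hdet]
  constructor
  · apply Finset.prod_ne_zero_iff.2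
    intro i _
    simpa using (hev i).1
  · rw [Finset.abs_prod]
    calc ∏ i, |((hsym.eigenvalues rfl i : ℝ) : ℝ)| ≤ ∏ _i : Fin (Module.finrank ℝ W), c := by
          apply Finset.prod_le_prod
          · intro i _; exact abs_nonneg _
          · intro i _; exact (hev i).2
      _ = c ^ (Module.finrank ℝ W) := by simp


/-- the matrix of an operator modulo its kernel -/
theorem kern_detY {V : Type} [AddCommGroup V] [Module ℝ V] [FiniteDimensional ℝ V]
    (ip : V →ₗ[ℝ] V →ₗ[ℝ] ℝ) (A : V →ₗ[ℝ] V) (U : Submodule ℝ V) (c : ℝ) (hc : 1 ≤ c)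
    (hs : ∀ x y, ip x y = ip y x) (hp : ∀ x, x ≠ 0 → 0 < ip x x)
    (hAU : ∀ x ∈ U, A x ∈ U) (hT : ∀ x ∈ U, ∀ y ∈ U, ip (A x) y = ip x (A y))
    (hb : ∀ x ∈ U, ip (A x) (A x) ≤ c ^ 2 * ip x x) {n r : ℕ} (e1 : Fin n → V) (e2 : Fin r → V)
    (X : Matrix (Fin n) (Fin r) ℝ) (Y : Matrix (Fin r) (Fin r) ℝ) (he2 : ∀ k, e2 k ∈ U)
    (hA1 : ∀ i, A (e1 i) = 0) (hA2 : ∀ k, A (e2 k) = ∑ i, X i k • e1 i + ∑ l, Y l k • e2 l)
    (hker : ∀ v ∈ U, A v = 0 → v ∈ Submodule.span ℝ (Set.range e1))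
    (hLI : LinearIndependent ℝ e2)
    (hdis : Disjoint (Submodule.span ℝ (Set.range e1)) (Submodule.span ℝ (Set.range e2))) :
    Y.det ≠ 0 ∧ |Y.det| ≤ c ^ r := by
  have hh : LinearIndependent ℝ (fun k => A (e2 k)) := by
    rw [Fintype.linearIndependent_iff]
    intro g hg
    have h1 : A (∑ k, g k • e2 k) = 0 := by rw [map_sum, ← hg]; simp
    have h2 : ∑ k, g k • e2 k ∈ U := Submodule.sum_mem _ fun k _ => U.smul_mem _ (he2 k)
    have h3 := hker _ h2 h1
    have h4 : ∑ k, g k • e2 k ∈ Submodule.span ℝ (Set.range e2) :=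
      Submodule.sum_mem _ fun k _ => Submodule.smul_mem _ _ (Submodule.subset_span ⟨k, rfl⟩)
    have h5 : ∑ k, g k • e2 k = 0 := by
      have := Submodule.mem_inf.2 ⟨h3, h4⟩
      rw [hdis.eq_bot] at this
      simpa using this
    exact (Fintype.linearIndependent_iff.1 hLI) g h5
  set W := Submodule.span ℝ (Set.range (fun k => A (e2 k))) with hW
  have hAA : ∀ k, A (A (e2 k)) = ∑ l, Y l k • A (e2 l) := by
    intro k
    rw [hA2 k, map_add, map_sum, map_sum]
    simp [hA1]
  have hAW : ∀ x ∈ W, A x ∈ W := by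
    intro x hx
    refine Submodule.span_induction (p := fun x _ => A x ∈ W) ?_ ?_ ?_ ?_ hx
    · rintro _ ⟨k, rfl⟩
      show A (A (e2 k)) ∈ W
      rw [hAA k]
      exact Submodule.sum_mem _ fun l _ => Submodule.smul_mem _ _ (Submodule.subset_span ⟨l, rfl⟩)
    · simp
    · intro x y _ _ h1 h2
      rw [map_add]; exact W.add_mem h1 h2
    · intro a x _ h1
      rw [map_smul]; exact W.smul_mem _ h1
  have hWU : ∀ x ∈ W, ∃ u ∈ U, x = A u := by
    intro x hx
    refine Submodule.span_induction (p := fun x _ => ∃ u ∈ U, x = A u) ?_ ?_ ?_ ?_ hx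
    · rintro _ ⟨k, rfl⟩
      exact ⟨e2 k, he2 k, rfl⟩
    · exact ⟨0, U.zero_mem, by simp⟩
    · rintro x y _ _ ⟨u, hu, rfl⟩ ⟨v, hv, rfl⟩
      exact ⟨u + v, U.add_mem hu hv, by simp⟩
    · rintro a x _ ⟨u, hu, rfl⟩
      exact ⟨a • u, U.smul_mem _ hu, by simp⟩
  have hWU' : ∀ x ∈ W, x ∈ U := by
    intro x hx
    obtain ⟨u, hu, rfl⟩ := hWU x hx
    exact hAU u hu
  let T : W →ₗ[ℝ] W := A.restrict hAW
  let bas : Module.Basis (Fin r) ℝ W := Module.Basis.span hh
  have hbas : ∀ k, (bas k : V) = A (e2 k) := fun k =>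
    congrArg Subtype.val (Module.Basis.span_apply hh k)
  have hTY : T = Matrix.toLin bas bas Y := by
    apply bas.ext
    intro k
    rw [Matrix.toLin_self]
    apply Subtype.ext
    simp only [T, LinearMap.restrict_apply, AddSubmonoidClass.coe_finsetSum, Submodule.coe_smul,
      hbas]
    exact hAA k
  have hdet : T.det = Y.det := by rw [hTY, LinearMap.det_toLin]
  have hfr : Module.finrank ℝ W = r := by
    rw [Module.finrank_eq_card_basis bas, Fintype.card_fin]
  have key := kern_sym (ip.compl₁₂ W.subtype W.subtype) T c hc ?_ ?_ ?_ ?_ ?_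
  · rw [hdet, hfr] at key
    exact key
  · intro x y; exact hs _ _
  · intro x hx
    exact hp _ (by simpa using hx)
  · intro x y
    exact hT _ (hWU' _ x.2) _ (hWU' _ y.2)
  · intro x
    exact hb _ (hWU' _ x.2)
  · intro x hx
    have h1 : A (x : V) = 0 := by
      have := congrArg (fun w : W => (w : V)) hx
      simpa [T] using this
    obtain ⟨u, hu, hxu⟩ := hWU _ x.2
    by_contra hne
    have h2 := hp (x : V) (by simpa using hne)
    have h3 : ip (x : V) (x : V) = ip u (A (x : V)) := by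
      conv_lhs => rw [hxu]
      rw [hT u hu _ (hAU u hu), ← hxu]
    rw [h3, h1] at h2
    simp at h2

/-- the block matrix identity -/
theorem kern_block {n r : ℕ} (G11 : Matrix (Fin n) (Fin n) ℝ) (G12 : Matrix (Fin n) (Fin r) ℝ)
    (G21 : Matrix (Fin r) (Fin n) ℝ) (G22 : Matrix (Fin r) (Fin r) ℝ)
    (X : Matrix (Fin n) (Fin r) ℝ) (Y : Matrix (Fin r) (Fin r) ℝ) (h : G11 * X + G12 * Y = 0) :
    (Matrix.fromBlocks G11 G12 G21 G22).det * Y.det ^ 2 =
      G11.det * (Y.transpose * (G21 * X + G22 * Y)).det := by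
  have h1 : Matrix.fromBlocks G11 G12 G21 G22 * Matrix.fromBlocks 1 X 0 Y =
      Matrix.fromBlocks G11 0 G21 (G21 * X + G22 * Y) := by
    rw [Matrix.fromBlocks_multiply]
    simp [h]
  have h2 := congrArg Matrix.det h1
  rw [Matrix.det_mul, Matrix.det_fromBlocks_zero₂₁, Matrix.det_fromBlocks_zero₁₂, Matrix.det_one,
    one_mul] at h2
  rw [Matrix.det_mul, Matrix.det_transpose]
  linear_combination Y.det * h2

/-- comparison of Gram determinants -/
theorem kern_gram {V : Type} [AddCommGroup V] [Module ℝ V]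
    (B : V →ₗ[ℝ] V →ₗ[ℝ] ℝ) (A : V →ₗ[ℝ] V) (U : Submodule ℝ V) (c : ℝ)
    (hT : ∀ x ∈ U, ∀ y ∈ U, B (A x) y = B x (A y)) {n r : ℕ} (e1 : Fin n → V) (e2 : Fin r → V)
    (X : Matrix (Fin n) (Fin r) ℝ) (Y : Matrix (Fin r) (Fin r) ℝ) (he1 : ∀ k, e1 k ∈ U)
    (he2 : ∀ k, e2 k ∈ U)
    (hA1 : ∀ i, A (e1 i) = 0) (hA2 : ∀ k, A (e2 k) = ∑ i, X i k • e1 i + ∑ l, Y l k • e2 l)
    (hint : ∀ k l, ∃ z : ℤ, B (A (e2 k)) (A (e2 l)) = z)
    (hY : Y.det ≠ 0) (hYc : |Y.det| ≤ c ^ r)
    (hG : (Matrix.of fun i j => B (Fin.append e1 e2 i) (Fin.append e1 e2 j)).det ≠ 0) :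
    (Matrix.of fun i j => B (e1 i) (e1 j)).det ≠ 0 ∧
    |(Matrix.of fun i j => B (e1 i) (e1 j)).det| ≤
      |(Matrix.of fun i j => B (Fin.append e1 e2 i) (Fin.append e1 e2 j)).det| * c ^ (2 * r) := by
  set G := (Matrix.of fun i j => B (Fin.append e1 e2 i) (Fin.append e1 e2 j)) with hGdef
  set G11 : Matrix (Fin n) (Fin n) ℝ := Matrix.of fun i j => B (e1 i) (e1 j) with h11
  set G12 : Matrix (Fin n) (Fin r) ℝ := Matrix.of fun i j => B (e1 i) (e2 j) with h12
  set G21 : Matrix (Fin r) (Fin n) ℝ := Matrix.of fun i j => B (e2 i) (e1 j) with h21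
  set G22 : Matrix (Fin r) (Fin r) ℝ := Matrix.of fun i j => B (e2 i) (e2 j) with h22
  have hGb : G.det = (Matrix.fromBlocks G11 G12 G21 G22).det := by
    have h1 : Matrix.fromBlocks G11 G12 G21 G22 = G.submatrix finSumFinEquiv finSumFinEquiv := by
      ext i j
      rcases i with i | i <;> rcases j with j | j <;>
        simp [hGdef, h11, h12, h21, h22, Matrix.fromBlocks]
    rw [h1, Matrix.det_submatrix_equiv_self]
  have hB1 : G11 * X + G12 * Y = 0 := by
    ext i l
    have h1 : B (e1 i) (A (e2 l)) = 0 := by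
      rw [← hT _ (he1 i) _ (he2 l), hA1]; simp
    rw [hA2 l, map_add, map_sum, map_sum] at h1
    simp only [map_smul, smul_eq_mul] at h1
    rw [Matrix.add_apply, Matrix.mul_apply, Matrix.mul_apply, Matrix.zero_apply, ← h1]
    simp only [h11, h12, Matrix.of_apply]
    congr 1 <;> exact Finset.sum_congr rfl fun _ _ => mul_comm _ _
  have hZ : (Y.transpose * (G21 * X + G22 * Y)) = Matrix.of fun k l => B (A (e2 k)) (A (e2 l)) := by
    ext k l
    have h1 : ∀ i, B (e2 i) (A (e2 l)) = (G21 * X + G22 * Y) i l := by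
      intro i
      rw [hA2 l, map_add, map_sum, map_sum]
      simp only [map_smul, smul_eq_mul]
      rw [Matrix.add_apply, Matrix.mul_apply, Matrix.mul_apply]
      simp only [h21, h22, Matrix.of_apply]
      congr 1 <;> exact Finset.sum_congr rfl fun _ _ => mul_comm _ _
    have h2 : ∀ i, B (e1 i) (A (e2 l)) = 0 := by
      intro i
      rw [← hT _ (he1 i) _ (he2 l), hA1]; simp
    rw [Matrix.mul_apply, Matrix.of_apply]
    conv_rhs => rw [hA2 k]
    rw [map_add, LinearMap.add_apply, map_sum, map_sum, LinearMap.sum_apply, LinearMap.sum_apply]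
    simp only [map_smul, LinearMap.smul_apply, smul_eq_mul, h2, h1, mul_zero,
      Finset.sum_const_zero, zero_add, Matrix.transpose_apply]
  have hblock := kern_block G11 G12 G21 G22 X Y hB1
  rw [← hGb, hZ] at hblock
  choose z hz using hint
  have hZi : (Matrix.of fun k l => B (A (e2 k)) (A (e2 l))).det =
      (((Matrix.of fun k l => z k l : Matrix (Fin r) (Fin r) ℤ).det : ℤ) : ℝ) := by
    have h := RingHom.map_det (Int.castRingHom ℝ) (Matrix.of fun k l => z k l)
    rw [eq_intCast] at h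
    rw [h]
    congr 1
    ext k l
    simp [hz]
  have hne : G.det * Y.det ^ 2 ≠ 0 := mul_ne_zero hG (pow_ne_zero _ hY)
  rw [hblock] at hne
  have h11ne := left_ne_zero_of_mul hne
  have hZne := right_ne_zero_of_mul hne
  refine ⟨h11ne, ?_⟩
  have hZ1 : 1 ≤ |(Matrix.of fun k l => B (A (e2 k)) (A (e2 l))).det| := by
    rw [hZi] at hZne ⊢
    have : (Matrix.of fun k l => z k l : Matrix (Fin r) (Fin r) ℤ).det ≠ 0 := by
      intro h0; rw [h0] at hZne; simp at hZne
    have := Int.one_le_abs this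
    exact_mod_cast this
  have habs := congrArg abs hblock
  rw [abs_mul, abs_mul, abs_pow] at habs
  have hY2 : |Y.det| ^ 2 ≤ c ^ (2 * r) := by
    calc |Y.det| ^ 2 ≤ (c ^ r) ^ 2 := pow_le_pow_left₀ (abs_nonneg _) hYc 2
      _ = c ^ (2 * r) := by rw [← pow_mul, mul_comm]
  calc |G11.det| = |G11.det| * 1 := by ring
    _ ≤ |G11.det| * |(Matrix.of fun k l => B (A (e2 k)) (A (e2 l))).det| :=
        mul_le_mul_of_nonneg_left hZ1 (abs_nonneg _)
    _ = |G.det| * |Y.det| ^ 2 := habs.symm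
    _ ≤ |G.det| * c ^ (2 * r) := mul_le_mul_of_nonneg_left hY2 (abs_nonneg _)

theorem kern_mem {V : Type} [AddCommGroup V] [Module ℝ V] {L : Set V} {U : Submodule ℝ V} {m : ℕ}
    {e : Fin m → V} (h : ZB L U m e) (j : Fin m) : e j ∈ L ∧ e j ∈ U := by
  classical
  rw [h.lat]
  refine ⟨Pi.single j 1, ?_⟩
  rw [Finset.sum_eq_single j]
  · simp
  · intro i _ hi
    rw [Pi.single_eq_of_ne hi]; simp
  · simp

/-- Gram determinants of two bases of a lattice -/
theorem kern_base {V : Type} [AddCommGroup V] [Module ℝ V] (B : V →ₗ[ℝ] V →ₗ[ℝ] ℝ) {L : Set V}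
    {U : Submodule ℝ V} {m : ℕ} {e e' : Fin m → V} (h : ZB L U m e) (h' : ZB L U m e') :
    |(Matrix.of fun i j => B (e' i) (e' j)).det| = |(Matrix.of fun i j => B (e i) (e j)).det| := by
  classical
  have h1 : ∀ j, ∃ k : Fin m → ℤ, e' j = ∑ i, (k i : ℝ) • e i := fun j =>
    (h.lat _).1 (kern_mem h' j)
  have h2 : ∀ j, ∃ k : Fin m → ℤ, e j = ∑ i, (k i : ℝ) • e' i := fun j =>
    (h'.lat _).1 (kern_mem h j)
  choose q hq using h1
  choose q' hq' using h2
  set Q : Matrix (Fin m) (Fin m) ℤ := Matrix.of fun i j => q j i with hQ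
  set Q' : Matrix (Fin m) (Fin m) ℤ := Matrix.of fun i j => q' j i with hQ'
  have hQQ : Q' * Q = 1 := by
    ext l j
    have h3 : ∑ l, (((Q' * Q) l j : ℤ) : ℝ) • e' l = ∑ l, (((1 : Matrix (Fin m) (Fin m) ℤ) l j : ℤ) : ℝ) • e' l := by
      have h4 : ∑ l, (((1 : Matrix (Fin m) (Fin m) ℤ) l j : ℤ) : ℝ) • e' l = e' j := by
        rw [Finset.sum_eq_single j]
        · simp
        · intro i _ hi
          rw [Matrix.one_apply_ne hi]; simp
        · simp
      rw [h4]
      conv_rhs => rw [hq j]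
      have h5 : ∀ i, (q j i : ℝ) • e i = ∑ l, ((q j i : ℝ) * (q' i l : ℝ)) • e' l := by
        intro i
        conv_lhs => rw [hq' i, Finset.smul_sum]
        exact Finset.sum_congr rfl fun l _ => by rw [smul_smul]
      rw [Finset.sum_congr rfl fun i _ => h5 i, Finset.sum_comm]
      apply Finset.sum_congr rfl
      intro l _
      rw [← Finset.sum_smul, Matrix.mul_apply]
      congr 1
      push_cast
      apply Finset.sum_congr rfl
      intro i _
      simp only [hQ, hQ', Matrix.of_apply]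
      ring
    have h6 := (Fintype.linearIndependent_iff.1 h'.li) (fun l => (((Q' * Q) l j : ℤ) : ℝ) -
      (((1 : Matrix (Fin m) (Fin m) ℤ) l j : ℤ) : ℝ)) (by
        simp only [sub_smul]
        rw [Finset.sum_sub_distrib, h3, sub_self]) l
    have h7 := sub_eq_zero.1 h6
    exact_mod_cast h7
  have hdet : |Q.det| = 1 := by
    have h3 := congrArg Matrix.det hQQ
    rw [Matrix.det_mul, Matrix.det_one] at h3
    exact Int.isUnit_iff_abs_eq.1 (IsUnit.of_mul_eq_one_right _ h3)
  set QR : Matrix (Fin m) (Fin m) ℝ := Q.map (Int.castRingHom ℝ) with hQR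
  have hQRdet : QR.det = ((Q.det : ℤ) : ℝ) := by
    have h3 := RingHom.map_det (Int.castRingHom ℝ) Q
    rw [eq_intCast] at h3
    rw [h3]
    rfl
  have hG : (Matrix.of fun i j => B (e' i) (e' j)) =
      QR.transpose * (Matrix.of fun i j => B (e i) (e j)) * QR := by
    have h3 : ∀ i y, B (e' i) y = ∑ k, (q i k : ℝ) * B (e k) y := by
      intro i y
      conv_lhs => rw [hq i]
      simp only [map_sum, map_smul, LinearMap.sum_apply, LinearMap.smul_apply, smul_eq_mul]
    have h4 : ∀ i j, B (e' i) (e' j) = ∑ l, (∑ k, (q i k : ℝ) * B (e k) (e l)) * (q j l : ℝ) := by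
      intro i j
      conv_lhs => rw [hq j]
      rw [map_sum]
      apply Finset.sum_congr rfl; intro l _
      rw [map_smul, smul_eq_mul, h3, mul_comm]
    ext i j
    rw [Matrix.of_apply, h4, Matrix.mul_apply]
    apply Finset.sum_congr rfl; intro l _
    rw [Matrix.mul_apply]
    rfl
  have hQ1 : |QR.det| = 1 := by
    rw [hQRdet]
    exact_mod_cast hdet
  rw [hG, Matrix.det_mul, Matrix.det_mul, Matrix.det_transpose, abs_mul, abs_mul, hQ1]
  ring

/-- a basis adapted to the kernel -/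
theorem kern_adapt {V : Type} [AddCommGroup V] [Module ℝ V] [FiniteDimensional ℝ V]
    (L : AddSubgroup V) (A : V →ₗ[ℝ] V) (U K : Submodule ℝ V) {m : ℕ} {e : Fin m → V}
    (h : ZB (L : Set V) U m e) (hAL : ∀ x ∈ L, A x ∈ L) (hAU : ∀ x ∈ U, A x ∈ U)
    (hK : ∀ v, v ∈ K ↔ v ∈ U ∧ A v = 0) :
    ∃ (n r : ℕ) (e1 : Fin n → V) (e2 : Fin r → V), n + r = m ∧
      ZB (L : Set V) U (n + r) (Fin.append e1 e2) ∧ ZB (L : Set V) K n e1 := by
  classical
  have h1 : ∀ j, ∃ k : Fin m → ℤ, A (e j) = ∑ i, (k i : ℝ) • e i := fun j =>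
    (h.lat _).1 ⟨hAL _ (kern_mem h j).1, hAU _ (kern_mem h j).2⟩
  choose q hq using h1
  set M : Matrix (Fin m) (Fin m) ℤ := Matrix.of fun i j => q j i with hM
  let φ : (Fin m → ℤ) →ₗ[ℤ] V :=
    { toFun := fun k => ∑ i, (k i : ℝ) • e i
      map_add' := fun x y => by
        simp only [Pi.add_apply, Int.cast_add, add_smul, Finset.sum_add_distrib]
      map_smul' := fun c x => by
        simp only [Pi.smul_apply, smul_eq_mul, Int.cast_mul, mul_smul, eq_intCast, Int.cast_id]
        rw [← Finset.smul_sum, Int.cast_smul_eq_zsmul] }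
  have hφ : ∀ k, φ k = ∑ i, (k i : ℝ) • e i := fun k => rfl
  have hreal : ∀ x : Fin m → ℝ, A (∑ j, x j • e j) = ∑ i, (∑ j, (M i j : ℝ) * x j) • e i := by
    intro x
    rw [map_sum]
    have h2 : ∀ j, A (x j • e j) = ∑ i, ((M i j : ℝ) * x j) • e i := by
      intro j
      rw [map_smul, hq j, Finset.smul_sum]
      apply Finset.sum_congr rfl; intro i _
      rw [smul_smul, hM, Matrix.of_apply, mul_comm]
    rw [Finset.sum_congr rfl fun j _ => h2 j, Finset.sum_comm]
    apply Finset.sum_congr rfl; intro i _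
    rw [Finset.sum_smul]
  have hAφ : ∀ k, A (φ k) = φ (M.mulVec k) := by
    intro k
    rw [hφ, hφ, hreal]
    apply Finset.sum_congr rfl; intro i _
    congr 1
    rw [Matrix.mulVec, dotProduct]
    push_cast
    rfl
  have hφ0 : ∀ k, φ k = 0 → k = 0 := by
    intro k hk
    rw [hφ] at hk
    have := (Fintype.linearIndependent_iff.1 h.li) _ hk
    funext i
    have h2 := this i
    exact_mod_cast h2
  set N : Submodule ℤ (Fin m → ℤ) := LinearMap.ker M.mulVecLin with hN
  have hNmem : ∀ k, k ∈ N ↔ M.mulVec k = 0 := fun k => by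
    rw [hN, LinearMap.mem_ker, Matrix.mulVecLin_apply]
  obtain ⟨n, o, hno, bO, bN, a, ha⟩ :=
    Submodule.exists_smith_normal_form_of_le (Pi.basisFun ℤ (Fin m)) N ⊤ le_top
  obtain ⟨r, rfl⟩ : ∃ r, o = n + r := Nat.exists_eq_add_of_le hno
  let b : Module.Basis (Fin (n + r)) ℤ (Fin m → ℤ) := bO.map (LinearEquiv.ofTop _ rfl)
  have hbO : ∀ i, (b i : Fin m → ℤ) = (bO i : Fin m → ℤ) := fun i => rfl
  have hnr : n + r = m := by
    have := Fintype.card_congr (b.indexEquiv (Pi.basisFun ℤ (Fin m)))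
    simpa using this
  -- the first basis vectors are in the kernel
  have hbN : ∀ i : Fin n, b (Fin.castAdd r i) ∈ N := by
    intro i
    have h2 : (bN i : Fin m → ℤ) = a i • b (Fin.castAdd r i) := ha i
    have h3 : (bN i : Fin m → ℤ) ∈ N := (bN i).2
    have h4 : a i ≠ 0 := by
      intro h0
      rw [h0, zero_smul] at h2
      exact bN.ne_zero i (Subtype.ext h2)
    rw [h2, hNmem, Matrix.mulVec_smul] at h3
    rw [hNmem]
    exact (smul_eq_zero.1 h3).resolve_left h4
  have hNb : ∀ k ∈ N, ∃ c : Fin n → ℤ, k = ∑ i, c i • b (Fin.castAdd r i) := by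
    intro k hk
    refine ⟨fun i => bN.repr ⟨k, hk⟩ i * a i, ?_⟩
    have h2 := bN.sum_repr ⟨k, hk⟩
    have h3 := congrArg Subtype.val h2
    refine h3.symm.trans ?_
    simp only [AddSubmonoidClass.coe_finsetSum, Submodule.coe_smul]
    apply Finset.sum_congr rfl; intro i _
    rw [mul_smul]
    congr 1
    exact ha i
  have hsm : ∀ (c : ℤ) (v : V), c • v = (c : ℝ) • v := fun c v => (Int.cast_smul_eq_zsmul ℝ c v).symm
  have hφL : ∀ k, φ k ∈ (L : Set V) ∧ φ k ∈ U := fun k => (h.lat _).2 ⟨k, rfl⟩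
  refine ⟨n, r, fun i => φ (b (Fin.castAdd r i)), fun i => φ (b (Fin.natAdd n i)), hnr, ?_⟩
  have happ : Fin.append (fun i => φ (b (Fin.castAdd r i))) (fun i => φ (b (Fin.natAdd n i))) =
      fun i => φ (b i) :=
    Fin.append_castAdd_natAdd (f := fun i => φ (b i))
  rw [happ]
  have hspan : Submodule.span ℝ (Set.range fun i => φ (b i)) = U := by
    apply le_antisymm
    · rw [Submodule.span_le]
      rintro _ ⟨i, rfl⟩
      exact (hφL _).2
    · conv_lhs => rw [← h.span]
      rw [Submodule.span_le]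
      rintro _ ⟨j, rfl⟩
      obtain ⟨k, hk⟩ := (h.lat _).1 (kern_mem h j)
      have h2 : e j = φ k := hk
      rw [h2, ← b.sum_repr k, map_sum]
      apply Submodule.sum_mem
      intro i _
      rw [map_smul, hsm]
      exact Submodule.smul_mem _ _ (Submodule.subset_span ⟨i, rfl⟩)
  have hli : LinearIndependent ℝ fun i => φ (b i) := by
    rw [linearIndependent_iff_card_eq_finrank_span, Set.finrank, hspan, Fintype.card_fin, hnr]
    have h2 := finrank_span_eq_card h.li
    rw [h.span, Fintype.card_fin] at h2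
    exact h2.symm
  have hlat : ∀ v : V, (v ∈ (L : Set V) ∧ v ∈ U) ↔ ∃ k : Fin (n + r) → ℤ,
      v = ∑ i, (k i : ℝ) • φ (b i) := by
    intro v
    constructor
    · intro hv
      obtain ⟨k, hk⟩ := (h.lat _).1 hv
      refine ⟨fun i => b.repr k i, ?_⟩
      have h2 : v = φ k := hk
      rw [h2]
      conv_lhs => rw [← b.sum_repr k, map_sum]
      apply Finset.sum_congr rfl; intro i _
      rw [map_smul, hsm]
    · rintro ⟨k, hk⟩
      have h2 : v = φ (∑ i, k i • b i) := by
        rw [hk, map_sum]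
        apply Finset.sum_congr rfl; intro i _
        rw [map_smul, hsm]
      rw [h2]
      exact hφL _
  refine ⟨⟨hli, hspan, hlat⟩, ?_, ?_, ?_⟩
  · exact hli.comp _ (Fin.castAdd_injective n r)
  · apply le_antisymm
    · rw [Submodule.span_le]
      rintro _ ⟨i, rfl⟩
      refine (hK _).2 ⟨(hφL _).2, ?_⟩
      rw [hAφ, (hNmem _).1 (hbN i), map_zero]
    · intro v hv
      obtain ⟨hvU, hv0⟩ := (hK v).1 hv
      rw [← h.span] at hvU
      obtain ⟨x, hx⟩ := (Submodule.mem_span_range_iff_exists_fun ℝ).1 hvU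
      rw [← hx, hreal] at hv0
      have hMx : ∀ i, ∑ j, (M i j : ℝ) * x j = 0 := (Fintype.linearIndependent_iff.1 h.li) _ hv0
      have hxs := kern_real M x hMx
      rw [← hx]
      let Ψ : (Fin m → ℝ) →ₗ[ℝ] V := Fintype.linearCombination ℝ e
      have hΨ : ∀ y, Ψ y = ∑ i, y i • e i := fun y => Fintype.linearCombination_apply ℝ e y
      rw [← hΨ]
      refine Submodule.span_induction (p := fun y _ => Ψ y ∈ Submodule.span ℝ
        (Set.range fun i => φ (b (Fin.castAdd r i)))) ?_ ?_ ?_ ?_ hxs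
      · rintro y ⟨k, hk, rfl⟩
        have hkN : k ∈ N := by
          rw [hNmem]
          funext i
          exact hk i
        obtain ⟨c, hc⟩ := hNb k hkN
        have h2 : Ψ (fun j => (k j : ℝ)) = φ k := by rw [hΨ, hφ]
        rw [h2, hc, map_sum]
        apply Submodule.sum_mem
        intro i _
        rw [map_smul, hsm]
        exact Submodule.smul_mem _ _ (Submodule.subset_span ⟨i, rfl⟩)
      · simp
      · intro y z _ _ hy hz
        rw [map_add]; exact Submodule.add_mem _ hy hz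
      · intro c y _ hy
        rw [map_smul]; exact Submodule.smul_mem _ _ hy
  · intro v
    constructor
    · rintro ⟨hvL, hvK⟩
      obtain ⟨hvU, hv0⟩ := (hK v).1 hvK
      obtain ⟨k, hk⟩ := (h.lat _).1 ⟨hvL, hvU⟩
      have h2 : v = φ k := hk
      rw [h2, hAφ] at hv0
      obtain ⟨c, hc⟩ := hNb k ((hNmem k).2 (hφ0 _ hv0))
      refine ⟨c, ?_⟩
      rw [h2, hc, map_sum]
      apply Finset.sum_congr rfl; intro i _
      rw [map_smul, hsm]
    · rintro ⟨k, hk⟩
      have h2 : v = φ (∑ i, k i • b (Fin.castAdd r i)) := by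
        rw [hk, map_sum]
        apply Finset.sum_congr rfl; intro i _
        rw [map_smul, hsm]
      have h3 : ∑ i, k i • b (Fin.castAdd r i) ∈ N :=
        Submodule.sum_mem _ fun i _ => Submodule.smul_mem _ _ (hbN i)
      rw [h2]
      refine ⟨(hφL _).1, (hK _).2 ⟨(hφL _).2, ?_⟩⟩
      rw [hAφ, (hNmem _).1 h3, map_zero]

theorem st_KERN : ST_KERN := by
  intro V _ _ _ ip B L A U K m e c hc hZ hs hp hAL hAU hipA hBA hb hint hdet hK
  obtain ⟨n, r, e1, e2, hnr, hU, hKb⟩ := kern_adapt L A U K hZ hAL hAU hK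
  subst hnr
  have hdet' : |(Matrix.of fun i j => B (Fin.append e1 e2 i) (Fin.append e1 e2 j)).det| =
      |(Matrix.of fun i j => B (e i) (e j)).det| := kern_base B hZ hU
  have he1 : ∀ i, e1 i ∈ (L : Set V) ∧ e1 i ∈ U := by
    intro i
    have := kern_mem hU (Fin.castAdd r i)
    simpa using this
  have he2 : ∀ i, e2 i ∈ (L : Set V) ∧ e2 i ∈ U := by
    intro i
    have := kern_mem hU (Fin.natAdd n i)
    simpa using this
  have hA1 : ∀ i, A (e1 i) = 0 := fun i => ((hK _).1 (kern_mem hKb i).2).2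
  have hA2 : ∀ k, ∃ x : Fin (n + r) → ℝ, A (e2 k) = ∑ i, x i • Fin.append e1 e2 i := by
    intro k
    have h1 : A (e2 k) ∈ Submodule.span ℝ (Set.range (Fin.append e1 e2)) := by
      rw [hU.span]; exact hAU _ (he2 k).2
    obtain ⟨x, hx⟩ := (Submodule.mem_span_range_iff_exists_fun ℝ).1 h1
    exact ⟨x, hx.symm⟩
  choose x hx using hA2
  have hA2' : ∀ k, A (e2 k) = ∑ i, (Matrix.of fun (i : Fin n) k => x k (Fin.castAdd r i)) i k • e1 i +
      ∑ l, (Matrix.of fun (l : Fin r) k => x k (Fin.natAdd n l)) l k • e2 l := by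
    intro k
    rw [hx k, Fin.sum_univ_add]
    simp
  have hLIe2 : LinearIndependent ℝ e2 := by
    have := hU.li.comp _ (Fin.natAdd_injective r n)
    have h1 : (Fin.append e1 e2) ∘ (Fin.natAdd n) = e2 := by
      funext i; simp
    rwa [h1] at this
  have hdis : Disjoint (Submodule.span ℝ (Set.range e1)) (Submodule.span ℝ (Set.range e2)) := by
    have h1 : LinearIndependent ℝ (Fin.append e1 e2 ∘ finSumFinEquiv) :=
      hU.li.comp _ finSumFinEquiv.injective
    rw [linearIndependent_sum] at h1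
    have h2 : (Fin.append e1 e2 ∘ finSumFinEquiv) ∘ Sum.inl = e1 := by
      funext i; simp
    have h3 : (Fin.append e1 e2 ∘ finSumFinEquiv) ∘ Sum.inr = e2 := by
      funext i; simp
    rw [h2, h3] at h1
    exact h1.2.2
  have hkey := kern_detY ip A U c hc hs hp hAU hipA hb e1 e2 _ _ (fun k => (he2 k).2) hA1 hA2' (by
    intro v hv hv0
    rw [hKb.span]
    exact (hK v).2 ⟨hv, hv0⟩) hLIe2 hdis
  have hfin := kern_gram B A U c hBA e1 e2 _ _ (fun k => (he1 k).2) (fun k => (he2 k).2) hA1 hA2'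
    (fun k l => hint _ (hAL _ (he2 k).1) _ (hAL _ (he2 l).1)) hkey.1 hkey.2 (by
      intro h0
      rw [h0, abs_zero] at hdet'
      exact hdet (abs_eq_zero.1 hdet'.symm))
  refine ⟨n, e1, Nat.le_add_right n r, hKb, hfin.1, ?_⟩
  rw [hdet'] at hfin
  have : n + r - n = r := by omega
  rw [this]
  exact hfin.2

end Pool.Agent.Helper96.MP
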