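import Pool.Agent.Helper96.MP.Defs

/-! Integer solutions of linear systems given in blocks (Cramer's rule). -/

set_option autoImplicit false

namespace Pool.Agent.Helper96.MP

open Finset

/-- dimension of the orthogonal complement of an independent family -/
theorem la_card {P : Type} [Fintype P] (b : Finset (P → ℝ))
    (hb : LinearIndepOn ℝ id (b : Set (P → ℝ))) (E : Submodule ℝ (P → ℝ))
    (hE : ∀ v, v ∈ E ↔ ∀ w ∈ b, ∑ x, w x * v x = 0) :
    b.card + Module.finrank ℝ E = Fintype.card P := by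
  classical
  let M : Matrix b P ℝ := fun w x => w.1 x
  have hrow : LinearIndependent ℝ M.row := hb
  have hrank : M.rank = b.card := by
    rw [hrow.rank_matrix, Fintype.card_coe]
  have hker : E = LinearMap.ker M.mulVecLin := by
    ext v
    rw [hE, LinearMap.mem_ker, Matrix.mulVecLin_apply]
    constructor
    · intro h
      ext w
      exact h w.1 w.2
    · intro h w hw
      exact congrFun h ⟨w, hw⟩
  have h := LinearMap.finrank_range_add_finrank_ker M.mulVecLin
  rw [← hker, Module.finrank_fintype_fun_eq_card] at h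
  rw [← hrank]
  exact h

/-- greedy choice of independent rows -/
theorem la_greedy {P : Type} [Fintype P] (Rw : ℕ → Set (P → ℤ)) (B : ℕ → ℝ)
    (E : ℕ → Submodule ℝ (P → ℝ)) (_hB : ∀ j, 1 ≤ B j)
    (hL : ∀ j, ∀ r ∈ Rw j, ∑ x, |(r x : ℝ)| ≤ B j)
    (hE : ∀ j, ∀ v, v ∈ E j ↔ ∀ i, i < j → ∀ r ∈ Rw i, ∑ x, (r x : ℝ) * v x = 0) (j : ℕ) :
    ∃ b : Finset (P → ℝ), LinearIndepOn ℝ id (b : Set (P → ℝ)) ∧
      (∀ w ∈ b, ∃ i, i < j ∧ ∃ r ∈ Rw i, w = fun x => (r x : ℝ)) ∧
      (∀ i, i < j → ∀ r ∈ Rw i, (fun x => (r x : ℝ)) ∈ Submodule.span ℝ (b : Set (P → ℝ))) ∧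
      ∏ w ∈ b, ∑ x, |w x| ≤ ∏ k ∈ range j,
        (B k) ^ (Module.finrank ℝ (E k) - Module.finrank ℝ (E (k + 1))) := by
  classical
  have hchar : ∀ (j : ℕ) (b : Finset (P → ℝ)),
      (∀ w ∈ b, ∃ i, i < j ∧ ∃ r ∈ Rw i, w = fun x => (r x : ℝ)) →
      (∀ i, i < j → ∀ r ∈ Rw i, (fun x => (r x : ℝ)) ∈ Submodule.span ℝ (b : Set (P → ℝ))) →
      ∀ v, v ∈ E j ↔ ∀ w ∈ b, ∑ x, w x * v x = 0 := by
    intro j b h1 h2 v
    rw [hE]
    constructor
    · intro h w hw
      obtain ⟨i, hi, r, hr, rfl⟩ := h1 w hw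
      exact h i hi r hr
    · intro h i hi r hr
      have hs := h2 i hi r hr
      have key : ∀ w ∈ Submodule.span ℝ (b : Set (P → ℝ)), ∑ x, w x * v x = 0 := by
        intro w hw
        induction hw using Submodule.span_induction with
        | mem w hw => exact h w hw
        | zero => simp
        | add w w' _ _ h1 h2 =>
          simp only [Pi.add_apply, add_mul, sum_add_distrib, h1, h2, add_zero]
        | smul c w _ h1 =>
          simp only [Pi.smul_apply, smul_eq_mul, mul_assoc, ← mul_sum, h1, mul_zero]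
      exact key _ hs
  induction j with
  | zero =>
    refine ⟨∅, ?_, ?_, ?_, ?_⟩
    · simp
    · intro w hw
      exact absurd hw (notMem_empty w)
    · intro i hi
      exact absurd hi (Nat.not_lt_zero i)
    · simp
  | succ j ih =>
    obtain ⟨b, hb, hb1, hb2, hb3⟩ := ih
    let C : Set (P → ℝ) := (fun (r : P → ℤ) => fun x => (r x : ℝ)) '' Rw j
    obtain ⟨b', hb't, hbb', htb', hb'i⟩ := exists_linearIndepOn_id_extension hb
      (Set.subset_union_left : (b : Set (P → ℝ)) ⊆ (b : Set (P → ℝ)) ∪ C)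
    have hfin : b'.Finite := hb'i.linearIndependent.setFinite
    lift b' to Finset (P → ℝ) using hfin
    have hbb : b ⊆ b' := by exact_mod_cast hbb'
    have g1 : ∀ w ∈ b', ∃ i, i < j + 1 ∧ ∃ r ∈ Rw i, w = fun x => (r x : ℝ) := by
      intro w hw
      rcases hb't hw with h | h
      · obtain ⟨i, hi, r, hr, hw⟩ := hb1 w h
        exact ⟨i, by omega, r, hr, hw⟩
      · obtain ⟨r, hr, hw⟩ := h
        exact ⟨j, by omega, r, hr, hw.symm⟩
    have g2 : ∀ i, i < j + 1 → ∀ r ∈ Rw i,
        (fun x => (r x : ℝ)) ∈ Submodule.span ℝ (b' : Set (P → ℝ)) := by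
      intro i hi r hr
      rcases Nat.lt_succ_iff_lt_or_eq.1 hi with h | h
      · exact Submodule.span_mono hbb' (hb2 i h r hr)
      · subst h
        exact htb' (Or.inr ⟨r, hr, rfl⟩)
    refine ⟨b', hb'i, g1, g2, ?_⟩
    have c1 := la_card b hb (E j) (hchar j b hb1 hb2)
    have c2 := la_card b' hb'i (E (j + 1)) (hchar (j + 1) b' g1 g2)
    have c3 : (b' \ b).card = Module.finrank ℝ (E j) - Module.finrank ℝ (E (j + 1)) := by
      rw [card_sdiff_of_subset hbb]
      omega
    have c4 : ∏ w ∈ b' \ b, ∑ x, |w x| ≤ (B j) ^ (b' \ b).card := by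
      rw [← prod_const]
      refine prod_le_prod (fun w _ => sum_nonneg fun x _ => abs_nonneg _) (fun w hw => ?_)
      rw [mem_sdiff] at hw
      rcases hb't hw.1 with h | h
      · exact absurd h hw.2
      · obtain ⟨r, hr, rfl⟩ := h
        exact hL j r hr
    rw [prod_range_succ, ← c3, ← prod_sdiff hbb, mul_comm]
    refine mul_le_mul hb3 c4 (prod_nonneg fun w _ => sum_nonneg fun x _ => abs_nonneg _) ?_
    exact (prod_nonneg fun w _ => sum_nonneg fun x _ => abs_nonneg _).trans hb3

/-- the determinant is at most the product of the `L¹` norms of the rows -/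
theorem la_det {P : Type} [Fintype P] [DecidableEq P] (M : Matrix P P ℝ) :
    |M.det| ≤ ∏ i, ∑ j, |M i j| := by
  rw [← Matrix.det_transpose, Matrix.det_apply']
  refine (abs_sum_le_sum_abs _ _).trans ?_
  have h1 : ∀ σ : Equiv.Perm P, |((Equiv.Perm.sign σ : ℤ) : ℝ) * ∏ i, M.transpose (σ i) i|
      = ∏ i, |M i (σ i)| := by
    intro σ
    rw [abs_mul, abs_prod]
    have : |((Equiv.Perm.sign σ : ℤ) : ℝ)| = 1 := by
      rcases Int.units_eq_one_or (Equiv.Perm.sign σ) with h | h <;> rw [h] <;> simp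
    rw [this, one_mul]
    rfl
  rw [sum_congr rfl (fun σ _ => h1 σ), prod_univ_sum]
  have h2 : ∑ σ : Equiv.Perm P, ∏ i, |M i (σ i)|
      = ∑ f ∈ (univ : Finset (Equiv.Perm P)).image (fun σ : Equiv.Perm P => (σ : P → P)),
          ∏ i, |M i (f i)| := by
    rw [sum_image]
    intro σ _ τ _ h
    exact DFunLike.coe_injective h
  rw [h2]
  refine sum_le_sum_of_subset_of_nonneg (fun f _ => ?_)
    (fun f _ _ => prod_nonneg fun i _ => abs_nonneg _)
  rw [Fintype.mem_piFinset]
  exact fun i => mem_univ _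

theorem st_LA : ST_LA := by
  classical
  intro P _ J Rw B E hB hL hE hdim
  obtain ⟨b, hb, hb1, hb2, hb3⟩ := la_greedy Rw B E hB hL hE J
  have hchar : ∀ v, v ∈ E J ↔ ∀ w ∈ b, ∑ x, w x * v x = 0 := by
    intro v
    rw [hE]
    constructor
    · intro h w hw
      obtain ⟨i, hi, r, hr, rfl⟩ := hb1 w hw
      exact h i hi r hr
    · intro h i hi r hr
      have hs := hb2 i hi r hr
      have key : ∀ w ∈ Submodule.span ℝ (b : Set (P → ℝ)), ∑ x, w x * v x = 0 := by
        intro w hw
        induction hw using Submodule.span_induction with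
        | mem w hw => exact h w hw
        | zero => simp
        | add w w' _ _ h1 h2 =>
          simp only [Pi.add_apply, add_mul, sum_add_distrib, h1, h2, add_zero]
        | smul c w _ h1 =>
          simp only [Pi.smul_apply, smul_eq_mul, mul_assoc, ← mul_sum, h1, mul_zero]
      exact key _ hs
  have hcard := la_card b hb (E J) hchar
  rw [hdim] at hcard
  have hint : ∀ w : b, ∃ r : P → ℤ, w.1 = fun x => (r x : ℝ) := by
    intro w
    obtain ⟨i, hi, r, hr, h⟩ := hb1 w.1 w.2
    exact ⟨r, h⟩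
  choose A hA using hint
  have hcard' : Fintype.card (Option b) = Fintype.card P := by
    rw [Fintype.card_option, Fintype.card_coe]
    omega
  let e : Option b ≃ P := Fintype.equivOfCardEq hcard'
  let i0 : P := e none
  let M0 : Matrix P P ℤ := fun p => match e.symm p with
    | none => 0
    | some a => A a
  have hM0 : ∀ a : b, M0 (e (some a)) = A a := by
    intro a
    simp only [M0, Equiv.symm_apply_apply]
  let v : P → ℤ := fun x => (M0.updateRow i0 (Pi.single x 1)).det
  have hdet : ∀ w : P → ℤ, (M0.updateRow i0 w).det = ∑ x, w x * v x := by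
    intro w
    rw [Matrix.det_eq_sum_mul_adjugate_row _ i0]
    refine sum_congr rfl (fun x _ => ?_)
    rw [Matrix.updateRow_self, Matrix.adjugate_apply, Matrix.updateRow_idem]
  have hvE : (fun x => (v x : ℝ)) ∈ E J := by
    rw [hchar]
    intro w hw
    have h0 : (M0.updateRow i0 (A ⟨w, hw⟩)).det = 0 := by
      have hne : i0 ≠ e (some ⟨w, hw⟩) := by
        intro h
        exact Option.some_ne_none _ (e.injective h.symm)
      refine Matrix.det_zero_of_row_eq hne ?_
      rw [Matrix.updateRow_self, Matrix.updateRow_ne hne.symm]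
      exact (hM0 ⟨w, hw⟩).symm
    rw [hdet] at h0
    have h1 : w = fun x => ((A ⟨w, hw⟩ x : ℤ) : ℝ) := hA ⟨w, hw⟩
    calc ∑ x, w x * (v x : ℝ) = ∑ x, ((A ⟨w, hw⟩ x : ℤ) : ℝ) * (v x : ℝ) :=
          sum_congr rfl (fun x _ => by rw [← congrFun h1 x])
      _ = ((∑ x, A ⟨w, hw⟩ x * v x : ℤ) : ℝ) := by push_cast; rfl
      _ = 0 := by rw [h0]; simp
  have hmap : ∀ w : P → ℤ, (M0.updateRow i0 w).map (fun z : ℤ => (z : ℝ))
      = (M0.map (fun z : ℤ => (z : ℝ))).updateRow i0 (fun x => (w x : ℝ)) := by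
    intro w
    ext p q
    by_cases hp : p = i0
    · subst hp
      simp
    · simp [Matrix.updateRow_ne hp]
  have hdetR : ∀ w : P → ℝ, ((M0.map (fun z : ℤ => (z : ℝ))).updateRow i0 w).det
      = ∑ x, w x * (v x : ℝ) := by
    intro w
    rw [Matrix.det_eq_sum_mul_adjugate_row _ i0]
    refine sum_congr rfl (fun x _ => ?_)
    rw [Matrix.updateRow_self, Matrix.adjugate_apply, Matrix.updateRow_idem]
    congr 1
    have h1 : (Pi.single x 1 : P → ℝ) = fun y => (((Pi.single x 1 : P → ℤ) y : ℤ) : ℝ) := by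
      ext y
      by_cases hy : y = x
      · subst hy
        simp
      · simp [hy]
    rw [h1, ← hmap]
    exact (Int.cast_det _).symm
  have hrowA : ∀ a : b, (M0.map (fun z : ℤ => (z : ℝ))) (e (some a)) = a.1 := by
    intro a
    rw [hA a]
    ext x
    simp only [Matrix.map_apply, hM0]
  have hvne : v ≠ 0 := by
    intro hv
    -- choose `w` outside the span
    have hspan : Submodule.span ℝ (b : Set (P → ℝ)) ≠ ⊤ := by
      intro htop
      have h1 := finrank_span_set_eq_card (R := ℝ) (s := (b : Set (P → ℝ))) hb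
      rw [htop, finrank_top, Module.finrank_fintype_fun_eq_card] at h1
      simp only [Finset.toFinset_coe] at h1
      omega
    obtain ⟨w, hw⟩ : ∃ w, w ∉ Submodule.span ℝ (b : Set (P → ℝ)) := by
      by_contra hcon
      push Not at hcon
      exact hspan (Submodule.eq_top_iff'.2 hcon)
    have hli : LinearIndependent ℝ
        (((M0.map (fun z : ℤ => (z : ℝ))).updateRow i0 w).row ∘ e) := by
      rw [linearIndependent_option]
      have hcomp : ((((M0.map (fun z : ℤ => (z : ℝ))).updateRow i0 w).row ∘ e) ∘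
          ((↑) : b → Option b)) = fun a : b => a.1 := by
        funext a
        have hne : e (some a) ≠ i0 := by
          intro h
          exact Option.some_ne_none _ (e.injective h)
        show ((M0.map (fun z : ℤ => (z : ℝ))).updateRow i0 w) (e (some a)) = a.1
        rw [Matrix.updateRow_ne hne]
        exact hrowA a
      rw [hcomp]
      refine ⟨hb, ?_⟩
      show ((M0.map (fun z : ℤ => (z : ℝ))).updateRow i0 w) i0 ∉ _
      rw [Matrix.updateRow_self, Subtype.range_coe_subtype]
      exact hw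
    rw [linearIndependent_equiv, Matrix.linearIndependent_rows_iff_isUnit,
      Matrix.isUnit_iff_isUnit_det, isUnit_iff_ne_zero] at hli
    apply hli
    rw [hdetR]
    simp [hv]
  refine ⟨v, hvne, hvE, fun x => le_trans ?_ hb3⟩
  have h1 := hdetR (Pi.single x 1)
  have h2 : ∑ y, (Pi.single x 1 : P → ℝ) y * (v y : ℝ) = (v x : ℝ) := by
    rw [sum_eq_single x]
    · simp
    · intro y _ hy
      simp [hy]
    · intro h
      exact absurd (mem_univ x) h
  rw [h2] at h1
  rw [← h1]
  refine (la_det _).trans ?_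
  rw [← e.prod_comp, Fintype.prod_option]
  have h3 : ∑ j, |((M0.map (fun z : ℤ => (z : ℝ))).updateRow i0 (Pi.single x 1)) (e none) j| = 1 := by
    show ∑ j, |((M0.map (fun z : ℤ => (z : ℝ))).updateRow i0 (Pi.single x 1)) i0 j| = 1
    rw [Matrix.updateRow_self, sum_eq_single x]
    · simp
    · intro y _ hy
      simp [hy]
    · intro h
      exact absurd (mem_univ x) h
  rw [h3, one_mul]
  have h4 : ∀ a : b, ∑ j, |((M0.map (fun z : ℤ => (z : ℝ))).updateRow i0 (Pi.single x 1))
      (e (some a)) j| = ∑ j, |a.1 j| := by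
    intro a
    have hne : e (some a) ≠ i0 := by
      intro h
      exact Option.some_ne_none _ (e.injective h)
    rw [Matrix.updateRow_ne hne, hrowA a]
  rw [prod_congr rfl (fun a _ => h4 a)]
  exact (Finset.prod_coe_sort b (fun w : P → ℝ => ∑ j, |w j|)).le

end Pool.Agent.Helper96.MP
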