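import Pool.Agent.Helper9.MP.Lib

/-!
# MP_bde085_nt, module NBAD: number of bad cosets
-/

set_option autoImplicit false

namespace Pool.Agent.Helper96.MP

open Complex MeasureTheory Filter Topology
open scoped MatrixGroups

theorem nbad_ball (h : SL(2, ℤ)) (z ξ : ℂ) (hz : z ∈ UH)
    (hξ : ξ ∈ Metric.ball (mob h z) ((mob h z).im / 10)) :
    ξ ∈ UH ∧ mob h⁻¹ ξ ∈ UH ∧ ‖mob h⁻¹ ξ - z‖ ≤ z.im / 4 := by
  have hz0 : mob h z ∈ UH := Lib.mob_mem h hz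
  have hy0 : 0 < (mob h z).im := hz0
  have hy : 0 < z.im := hz
  rw [Metric.mem_ball, dist_eq_norm] at hξ
  have him : |(ξ - mob h z).im| ≤ ‖ξ - mob h z‖ := Complex.abs_im_le_norm _
  rw [sub_im] at him
  have h1 := (abs_le.1 him).1
  have hξim : 9 / 10 * (mob h z).im ≤ ξ.im := by linarith
  have hξ0 : ξ ∈ UH := by
    show 0 < ξ.im
    linarith
  have hη := Lib.mob_mem h⁻¹ hξ0
  have hηy : 0 < (mob h⁻¹ ξ).im := hη
  have hd := Lib.dist_mob h⁻¹ hξ0 hz0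
  rw [Lib.mob_inv_mob h hz] at hd
  have hb : ‖ξ - mob h z‖ ^ 2 / (ξ.im * (mob h z).im) ≤ 1 / 90 := by
    rw [div_le_iff₀ (mul_pos hξ0 hy0)]
    have hn : 0 ≤ ‖ξ - mob h z‖ := norm_nonneg _
    nlinarith
  rw [← hd, div_le_iff₀ (mul_pos hηy hy)] at hb
  refine ⟨hξ0, hη, ?_⟩
  have him2 : |(mob h⁻¹ ξ - z).im| ≤ ‖mob h⁻¹ ξ - z‖ := Complex.abs_im_le_norm _
  rw [sub_im] at him2
  have h2 := (abs_le.1 him2).2
  have hn2 : 0 ≤ ‖mob h⁻¹ ξ - z‖ := norm_nonneg _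
  by_contra hcon
  push Not at hcon
  nlinarith

/-- the conjugate matrix -/
theorem nbad_conj (h : SL(2, ℤ)) (A B C D n : ℤ) (hn : 1 ≤ n) (hdet : A * D - B * C = n)
    (ξ ξ' : ℂ) (hξ : ξ ∈ UH) (hmo : mo A B C D ξ = ξ')
    (hsc : ¬ (B = 0 ∧ C = 0 ∧ A = D)) :
    ∃ a b c d : ℤ, a * d - b * c = n ∧ ¬ (b = 0 ∧ c = 0 ∧ a = d) ∧
      mo a b c d (mob h⁻¹ ξ) = mob h⁻¹ ξ' ∧
      h 1 0 * a + h 1 1 * c = C * h 0 0 + D * h 1 0 ∧
      h 1 0 * b + h 1 1 * d = C * h 0 1 + D * h 1 1 := by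
  have hd := Lib.det1 h
  refine ⟨h 1 1 * (A * h 0 0 + B * h 1 0) - h 0 1 * (C * h 0 0 + D * h 1 0),
    h 1 1 * (A * h 0 1 + B * h 1 1) - h 0 1 * (C * h 0 1 + D * h 1 1),
    -h 1 0 * (A * h 0 0 + B * h 1 0) + h 0 0 * (C * h 0 0 + D * h 1 0),
    -h 1 0 * (A * h 0 1 + B * h 1 1) + h 0 0 * (C * h 0 1 + D * h 1 1), ?_, ?_, ?_, ?_, ?_⟩
  · rw [← hdet]
    linear_combination (A * D - B * C) * (h 0 0 * h 1 1 - h 0 1 * h 1 0 + 1) * hd
  · rintro ⟨e1, e2, e3⟩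
    apply hsc
    set a := h 1 1 * (A * h 0 0 + B * h 1 0) - h 0 1 * (C * h 0 0 + D * h 1 0) with ha
    set b := h 1 1 * (A * h 0 1 + B * h 1 1) - h 0 1 * (C * h 0 1 + D * h 1 1) with hb
    set c := -h 1 0 * (A * h 0 0 + B * h 1 0) + h 0 0 * (C * h 0 0 + D * h 1 0) with hc
    set d := -h 1 0 * (A * h 0 1 + B * h 1 1) + h 0 0 * (C * h 0 1 + D * h 1 1) with hd'
    -- `h (a,b;c,d) = A0 h` up to `det h = 1`
    have r1 : A * h 0 0 + B * h 1 0 = h 0 0 * a + h 0 1 * c := by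
      rw [ha, hc]; linear_combination (-(A * h 0 0 + B * h 1 0)) * hd
    have r2 : A * h 0 1 + B * h 1 1 = h 0 0 * b + h 0 1 * d := by
      rw [hb, hd']; linear_combination (-(A * h 0 1 + B * h 1 1)) * hd
    have r3 : C * h 0 0 + D * h 1 0 = h 1 0 * a + h 1 1 * c := by
      rw [ha, hc]; linear_combination (-(C * h 0 0 + D * h 1 0)) * hd
    have r4 : C * h 0 1 + D * h 1 1 = h 1 0 * b + h 1 1 * d := by
      rw [hb, hd']; linear_combination (-(C * h 0 1 + D * h 1 1)) * hd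
    rw [e2] at r1 r3
    rw [e1] at r2 r4
    rw [← e3] at r2 r4
    refine ⟨?_, ?_, ?_⟩
    · linear_combination (-h 0 1) * r1 + h 0 0 * r2 - B * hd
    · linear_combination h 1 1 * r3 - h 1 0 * r4 - C * hd
    · linear_combination h 1 1 * r1 - h 1 0 * r2 + h 0 1 * r3 - h 0 0 * r4 - (A - D) * hd
  · have hη := Lib.mob_mem h⁻¹ hξ
    have hξη : mob h (mob h⁻¹ ξ) = ξ := Lib.mob_mob_inv h hξ
    set η := mob h⁻¹ ξ with hηdef
    have hj := Lib.jj_ne h hη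
    have hCD : (C : ℂ) * ξ + D ≠ 0 := by
      intro h0
      have him : ((C : ℂ) * ξ + D).im = 0 := by rw [h0]; simp
      have hre : ((C : ℂ) * ξ + D).re = 0 := by rw [h0]; simp
      have h1 : (C : ℝ) * ξ.im = 0 := by simpa using him
      have hξ' : ξ.im ≠ 0 := ne_of_gt hξ
      have hC0 : (C : ℝ) = 0 := by
        rcases mul_eq_zero.mp h1 with h2 | h2
        · exact h2
        · exact absurd h2 hξ'
      have hD0 : (D : ℝ) = 0 := by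
        have : (C : ℝ) * ξ.re + D = 0 := by simpa using hre
        rw [hC0] at this; linarith
      have hC1 : C = 0 := by exact_mod_cast hC0
      have hD1 : D = 0 := by exact_mod_cast hD0
      rw [hC1, hD1] at hdet
      omega
    have hξe : ξ * jj h η = ((h 0 0 : ℤ) : ℂ) * η + ((h 0 1 : ℤ) : ℂ) := by
      rw [← hξη, Lib.mob_eq, div_mul_cancel₀ _ hj]
    have hV : ((C : ℂ) * ξ + D) * jj h η ≠ 0 := mul_ne_zero hCD hj
    have hU : ξ' * (((C : ℂ) * ξ + D) * jj h η) = ((A : ℂ) * ξ + B) * jj h η := by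
      rw [← hmo, mo, ← mul_assoc, div_mul_cancel₀ _ hCD]
    -- `mob h⁻¹ ξ'`
    have hi00 : (h⁻¹ : SL(2, ℤ)) 0 0 = h 1 1 := by simp [Matrix.SpecialLinearGroup.SL2_inv_expl h]
    have hi01 : (h⁻¹ : SL(2, ℤ)) 0 1 = - h 0 1 := by simp [Matrix.SpecialLinearGroup.SL2_inv_expl h]
    have hi10 : (h⁻¹ : SL(2, ℤ)) 1 0 = - h 1 0 := by simp [Matrix.SpecialLinearGroup.SL2_inv_expl h]
    have hi11 : (h⁻¹ : SL(2, ℤ)) 1 1 = h 0 0 := by simp [Matrix.SpecialLinearGroup.SL2_inv_expl h]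
    unfold mob mo
    rw [hi00, hi01, hi10, hi11]
    set V := ((C : ℂ) * ξ + D) * jj h η with hVdef
    have hn1 : (((h 1 1 * (A * h 0 0 + B * h 1 0) - h 0 1 * (C * h 0 0 + D * h 1 0) : ℤ) : ℂ) * η +
        ((h 1 1 * (A * h 0 1 + B * h 1 1) - h 0 1 * (C * h 0 1 + D * h 1 1) : ℤ) : ℂ)) =
        ((h 1 1 : ℂ) * ξ' + ((-h 0 1 : ℤ) : ℂ)) * V := by
      have e1 : ((h 1 1 : ℂ) * ξ' + ((-h 0 1 : ℤ) : ℂ)) * V =
        (h 1 1 : ℂ) * (ξ' * V) - (h 0 1 : ℂ) * V := by push_cast; ring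
      rw [e1, hU, hVdef]
      have e2 : (h 1 1 : ℂ) * (((A : ℂ) * ξ + B) * jj h η) - (h 0 1 : ℂ) * (((C : ℂ) * ξ + D) * jj h η) =
        (h 1 1 : ℂ) * ((A : ℂ) * (ξ * jj h η) + B * jj h η) -
          (h 0 1 : ℂ) * ((C : ℂ) * (ξ * jj h η) + D * jj h η) := by ring
      rw [e2, hξe]
      unfold jj
      push_cast
      ring
    have hn2 : (((-h 1 0 * (A * h 0 0 + B * h 1 0) + h 0 0 * (C * h 0 0 + D * h 1 0) : ℤ) : ℂ) * η +
        ((-h 1 0 * (A * h 0 1 + B * h 1 1) + h 0 0 * (C * h 0 1 + D * h 1 1) : ℤ) : ℂ)) =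
        (((-h 1 0 : ℤ) : ℂ) * ξ' + (h 0 0 : ℂ)) * V := by
      have e1 : (((-h 1 0 : ℤ) : ℂ) * ξ' + (h 0 0 : ℂ)) * V =
        -(h 1 0 : ℂ) * (ξ' * V) + (h 0 0 : ℂ) * V := by push_cast; ring
      rw [e1, hU, hVdef]
      have e2 : -(h 1 0 : ℂ) * (((A : ℂ) * ξ + B) * jj h η) + (h 0 0 : ℂ) * (((C : ℂ) * ξ + D) * jj h η) =
        -(h 1 0 : ℂ) * ((A : ℂ) * (ξ * jj h η) + B * jj h η) +
          (h 0 0 : ℂ) * ((C : ℂ) * (ξ * jj h η) + D * jj h η) := by ring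
      rw [e2, hξe]
      unfold jj
      push_cast
      ring
    rw [hn1, hn2, mul_div_mul_right _ _ hV]
  · linear_combination (C * h 0 0 + D * h 1 0) * hd
  · linear_combination (C * h 0 1 + D * h 1 1) * hd

/-- every bad coset is a fixed point of a small non scalar matrix -/
theorem nbad_pt (hC : ST_COS) (hE : ST_ENT) (N p J : ℕ) (Y : ℝ) (hN : 1 ≤ N) (hp : p.Prime)
    (hpN : ¬ p ∣ N) (z : ℂ) (hz : z ∈ SB) (hzY : z.im ≤ Y) (x : PN N)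
    (hx : Bad N p J (mob (rep N x) z)) :
    ∃ a b c d : ℤ, IsCoprime (a * d - b * c) (N : ℤ) ∧ ¬ (b = 0 ∧ c = 0 ∧ a = d) ∧
      |(a : ℝ)| ≤ 9 * (p : ℝ) ^ J * Y ∧ |(b : ℝ)| ≤ 9 * (p : ℝ) ^ J * Y ∧
      |(c : ℝ)| ≤ 9 * (p : ℝ) ^ J * Y ∧ |(d : ℝ)| ≤ 9 * (p : ℝ) ^ J * Y ∧
      ∃ (s t : ℤ) (h : Uni N s t), x = Quotient.mk (sPN N) ⟨(s, t), h⟩ ∧
        eqv N (s * a + t * c) (s * b + t * d) (s * 1 + t * 0) (s * 0 + t * 1) := by
  have hzU : z ∈ UH := Lib.SB_sub_UH hz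
  have hzpos : 0 < z.im := hzU
  obtain ⟨i, hi, A, B, C, D, hdet, hNC, hsc, ξ, hξ, ξ', hξ', hmo⟩ := hx
  set h := rep N x with hh
  obtain ⟨h1, h2, h3⟩ := nbad_ball h z ξ hzU hξ
  obtain ⟨h1', h2', h3'⟩ := nbad_ball h z ξ' hzU hξ'
  have hpi : (1 : ℤ) ≤ (p : ℤ) ^ i := by
    have : 1 ≤ p ^ i := Nat.one_le_pow _ _ hp.pos
    exact_mod_cast this
  obtain ⟨a, b, c, d, hdet', hsc', hmo', hr1, hr2⟩ := nbad_conj h A B C D _ hpi hdet ξ ξ' h1 hmo hsc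
  obtain ⟨ea, eb, ec, ed⟩ := hE _ a b c d z _ _ hdet' hpi hz h3 h3' hmo'
  have hp1 : (1 : ℝ) ≤ p := by exact_mod_cast hp.one_le
  have hbound : 9 * Real.sqrt (((p : ℤ) ^ i : ℤ) : ℝ) * z.im ≤ 9 * (p : ℝ) ^ J * Y := by
    have hs : Real.sqrt (((p : ℤ) ^ i : ℤ) : ℝ) ≤ (p : ℝ) ^ J := by
      rw [Real.sqrt_le_left (by positivity)]
      push_cast
      rw [← pow_mul]
      exact pow_le_pow_right₀ hp1 (by omega)
    have hs0 : 0 ≤ Real.sqrt (((p : ℤ) ^ i : ℤ) : ℝ) := Real.sqrt_nonneg _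
    have hpJ : 0 ≤ (p : ℝ) ^ J := by positivity
    have := mul_le_mul hs hzY hzpos.le hpJ
    linarith
  have hcopN : IsCoprime ((p : ℤ) ^ i) (N : ℤ) := by
    apply IsCoprime.pow_left
    rw [Nat.isCoprime_iff_coprime]
    exact (Nat.Prime.coprime_iff_not_dvd hp).2 hpN
  refine ⟨a, b, c, d, by rw [hdet']; exact hcopN, hsc', ea.trans hbound, eb.trans hbound,
    ec.trans hbound, ed.trans hbound, h 1 0, h 1 1, cls_uni N h, ?_, ?_⟩
  · have := (hC N hN).1 x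
    rw [← hh] at this
    rw [← this]
    rfl
  · apply eqv_symm
    have hDN : IsCoprime D (N : ℤ) := by
      obtain ⟨k, hk⟩ := hNC
      have e1 : IsCoprime (A * D - B * C) (N : ℤ) := by rw [hdet]; exact hcopN
      rw [hk] at e1
      have e2 : IsCoprime (A * D) (N : ℤ) := by
        have e3 : A * D = (A * D - B * ((N : ℤ) * k)) + (N : ℤ) * (B * k) := by ring
        rw [e3]
        exact (IsCoprime.add_mul_left_left_iff).2 e1
      exact e2.of_mul_left_right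
    refine ⟨D, hDN, ?_, ?_⟩
    · rw [hr1]
      obtain ⟨k, hk⟩ := hNC
      exact ⟨k * h 0 0, by rw [hk]; ring⟩
    · rw [hr2]
      obtain ⟨k, hk⟩ := hNC
      exact ⟨k * h 0 1, by rw [hk]; ring⟩

theorem st_NBAD (hC : ST_COS) (hE : ST_ENT) (hF : ST_FIX) (hD : ST_DIVB) (hP : ST_PNF) :
    ST_NBAD := by
  classical
  obtain ⟨C₀, hC₀, hdiv⟩ := hD
  refine ⟨162 * 9 ^ 5 * C₀ ^ 2, by positivity, ?_⟩
  intro N p J Y hN hp hpN hY z hz hzY
  have : Finite (PN N) := (hP N hN).1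
  have : Fintype (PN N) := Fintype.ofFinite _
  have hp1 : (1 : ℝ) ≤ p := by exact_mod_cast hp.one_le
  have hpJ : (1 : ℝ) ≤ (p : ℝ) ^ J := one_le_pow₀ hp1
  have hX1 : 1 ≤ (p : ℝ) ^ J * Y := by nlinarith
  set X : ℝ := (p : ℝ) ^ J * Y with hX
  set R : ℕ := ⌊9 * X⌋₊ with hR
  have hRle : (R : ℝ) ≤ 9 * X := Nat.floor_le (by linarith)
  have hR1 : 1 ≤ R := by
    rw [hR]; exact Nat.le_floor (by push_cast; linarith)
  have hRabs : ∀ a : ℤ, |(a : ℝ)| ≤ 9 * (p : ℝ) ^ J * Y → |a| ≤ (R : ℤ) := by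
    intro a ha
    have h1 : ((a.natAbs : ℕ) : ℝ) ≤ 9 * X := by
      rw [Nat.cast_natAbs]
      push_cast
      rw [hX, ← mul_assoc]
      exact ha
    have h2 : a.natAbs ≤ R := Nat.le_floor h1
    rw [Int.abs_eq_natAbs]
    exact_mod_cast h2
  -- fixed point sets
  let Fx : ℤ × ℤ × ℤ × ℤ → Finset (PN N) := fun q =>
    Finset.univ.filter (fun x => IsCoprime (q.1 * q.2.2.2 - q.2.1 * q.2.2.1) (N : ℤ) ∧
      ¬ (q.2.1 = 0 ∧ q.2.2.1 = 0 ∧ q.1 = q.2.2.2) ∧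
      ∃ (s t : ℤ) (h : Uni N s t), x = Quotient.mk (sPN N) ⟨(s, t), h⟩ ∧
        eqv N (s * q.1 + t * q.2.2.1) (s * q.2.1 + t * q.2.2.2) (s * 1 + t * 0) (s * 0 + t * 1))
  let I : Finset ℤ := Finset.Icc (-(R : ℤ)) R
  let Bx : Finset (ℤ × ℤ × ℤ × ℤ) := I ×ˢ I ×ˢ I ×ˢ I
  have hFx : ∀ q ∈ Bx, ((Fx q).card : ℝ) ≤ 2 * R * (N.divisors.card : ℝ) ^ 2 * Real.sqrt N := by
    rintro ⟨a, b, c, d⟩ hq
    have hq' : (-(R : ℤ) ≤ a ∧ a ≤ R) ∧ (-(R : ℤ) ≤ b ∧ b ≤ R) ∧ (-(R : ℤ) ≤ c ∧ c ≤ R) ∧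
        (-(R : ℤ) ≤ d ∧ d ≤ R) := by
      simpa [Bx, I, Finset.mem_product, Finset.mem_Icc] using hq
    by_cases hcond : IsCoprime (a * d - b * c) (N : ℤ) ∧ ¬ (b = 0 ∧ c = 0 ∧ a = d)
    · have h1 := hF N R a b c d 1 0 0 1 hN hcond.1 (by simpa using isCoprime_one_left)
        (by rw [mul_one, mul_zero, sub_zero]; exact abs_le.2 hq'.1)
        (by rw [mul_one, mul_zero, sub_zero]; exact abs_le.2 hq'.2.1)
        (by rw [mul_one, mul_zero, sub_zero]; exact abs_le.2 hq'.2.2.1)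
        (by rw [mul_one, mul_zero, sub_zero]; exact abs_le.2 hq'.2.2.2)
        (by
          intro h
          apply hcond.2
          refine ⟨by linarith [h.1], by linarith [h.2.1], by linarith [h.2.2]⟩)
      refine le_trans ?_ h1
      rw [Nat.card_eq_fintype_card, Fintype.card_subtype]
      have h2 : Fx (a, b, c, d) ⊆ Finset.univ.filter (fun x : PN N =>
          ∃ (s t : ℤ) (h : Uni N s t), x = Quotient.mk (sPN N) ⟨(s, t), h⟩ ∧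
          eqv N (s * a + t * c) (s * b + t * d) (s * 1 + t * 0) (s * 0 + t * 1)) := by
        intro x hx
        rw [Finset.mem_filter] at hx ⊢
        exact ⟨hx.1, hx.2.2.2⟩
      exact_mod_cast Finset.card_le_card h2
    · have h2 : Fx (a, b, c, d) = ∅ := by
        rw [Finset.eq_empty_iff_forall_notMem]
        intro x hx
        rw [Finset.mem_filter] at hx
        exact hcond ⟨hx.2.1, hx.2.2.1⟩
      rw [h2, Finset.card_empty]
      push_cast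
      positivity
  have hsub : (Finset.univ.filter (fun x : PN N => Bad N p J (mob (rep N x) z))) ⊆ Bx.biUnion Fx := by
    intro x hx
    rw [Finset.mem_filter] at hx
    obtain ⟨a, b, c, d, h1, h2, ha, hb, hc, hd, h3⟩ :=
      nbad_pt hC hE N p J Y hN hp hpN z hz hzY x hx.2
    rw [Finset.mem_biUnion]
    refine ⟨(a, b, c, d), ?_, ?_⟩
    · simp only [Bx, I, Finset.mem_product, Finset.mem_Icc]
      exact ⟨abs_le.1 (hRabs a ha), abs_le.1 (hRabs b hb), abs_le.1 (hRabs c hc),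
        abs_le.1 (hRabs d hd)⟩
    · rw [Finset.mem_filter]
      exact ⟨Finset.mem_univ _, h1, h2, h3⟩
  have hncard : ({x : PN N | Bad N p J (mob (rep N x) z)}.ncard) =
      (Finset.univ.filter (fun x : PN N => Bad N p J (mob (rep N x) z))).card := by
    rw [← Set.ncard_coe_finset]
    congr 1
    ext x
    simp
  have hI : I.card = 2 * R + 1 := by
    simp only [I, Int.card_Icc]
    omega
  have hBx : Bx.card = (2 * R + 1) ^ 4 := by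
    simp only [Bx, Finset.card_product, hI]
    ring
  have hR1' : (1 : ℝ) ≤ R := by exact_mod_cast hR1
  have hN1 : (0 : ℝ) < N := by exact_mod_cast hN
  have hdivN := hdiv N hN
  have hdN0 : (0 : ℝ) ≤ (N.divisors.card : ℝ) := Nat.cast_nonneg _
  calc (({x : PN N | Bad N p J (mob (rep N x) z)}.ncard : ℕ) : ℝ)
      = ((Finset.univ.filter (fun x : PN N => Bad N p J (mob (rep N x) z))).card : ℝ) := by
        rw [hncard]
    _ ≤ ((Bx.biUnion Fx).card : ℝ) := by exact_mod_cast Finset.card_le_card hsub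
    _ ≤ ∑ q ∈ Bx, ((Fx q).card : ℝ) := by exact_mod_cast Finset.card_biUnion_le
    _ ≤ ∑ _q ∈ Bx, (2 * R * (N.divisors.card : ℝ) ^ 2 * Real.sqrt N) := Finset.sum_le_sum hFx
    _ = (2 * R + 1) ^ 4 * (2 * R * (N.divisors.card : ℝ) ^ 2 * Real.sqrt N) := by
        rw [Finset.sum_const, hBx, nsmul_eq_mul]; push_cast; ring
    _ ≤ (3 * R) ^ 4 * (2 * R * (C₀ * (N : ℝ) ^ (1 / 16 : ℝ)) ^ 2 * Real.sqrt N) := by
        have e1 : (2 * (R : ℝ) + 1) ^ 4 ≤ (3 * R) ^ 4 :=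
          pow_le_pow_left₀ (by positivity) (by linarith) 4
        have e2 : (N.divisors.card : ℝ) ^ 2 ≤ (C₀ * (N : ℝ) ^ (1 / 16 : ℝ)) ^ 2 :=
          pow_le_pow_left₀ hdN0 hdivN 2
        gcongr
    _ = 162 * (R : ℝ) ^ 5 * C₀ ^ 2 * (((N : ℝ) ^ (1 / 16 : ℝ)) ^ 2 * Real.sqrt N) := by ring
    _ = 162 * (R : ℝ) ^ 5 * C₀ ^ 2 * (N : ℝ) ^ (5 / 8 : ℝ) := by
        congr 1
        rw [Real.sqrt_eq_rpow, ← Real.rpow_natCast, ← Real.rpow_mul hN1.le, ← Real.rpow_add hN1]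
        norm_num
    _ ≤ 162 * (9 * X) ^ 5 * C₀ ^ 2 * (N : ℝ) ^ (5 / 8 : ℝ) := by
        gcongr
    _ = 162 * 9 ^ 5 * C₀ ^ 2 * X ^ 5 * (N : ℝ) ^ (5 / 8 : ℝ) := by ring

end Pool.Agent.Helper96.MP
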