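import Pool.Agent.Helper9.MP.Lat

/-!
# MP_bde085_nt, module NBW: number of bad cosets
-/

set_option autoImplicit false

namespace Pool.Agent.Helper96.MP

open Complex MeasureTheory Filter Topology
open scoped MatrixGroups

theorem nbw_ball (h : SL(2, ℤ)) (z ξ : ℂ) (hz : z ∈ UH)
    (hξ : ξ ∈ Metric.ball (mob h z) ((mob h z).im / 8)) :
    ξ ∈ UH ∧ mob h⁻¹ ξ ∈ UH ∧ ‖mob h⁻¹ ξ - z‖ ≤ z.im / 4 := by
  have hz0 : mob h z ∈ UH := Lib.mob_mem h hz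
  have hy0 : 0 < (mob h z).im := hz0
  have hy : 0 < z.im := hz
  rw [Metric.mem_ball, dist_eq_norm] at hξ
  have him : |(ξ - mob h z).im| ≤ ‖ξ - mob h z‖ := Complex.abs_im_le_norm _
  rw [sub_im] at him
  have h1 := (abs_le.1 him).1
  have hξim : 7 / 8 * (mob h z).im ≤ ξ.im := by linarith
  have hξ0 : ξ ∈ UH := by
    show 0 < ξ.im
    linarith
  have hη := Lib.mob_mem h⁻¹ hξ0
  have hηy : 0 < (mob h⁻¹ ξ).im := hη
  have hd := Lib.dist_mob h⁻¹ hξ0 hz0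
  rw [Lib.mob_inv_mob h hz] at hd
  have hb : ‖ξ - mob h z‖ ^ 2 / (ξ.im * (mob h z).im) ≤ 1 / 56 := by
    rw [div_le_iff₀ (mul_pos hξ0 hy0)]
    have hn : 0 ≤ ‖ξ - mob h z‖ := norm_nonneg _
    nlinarith
  rw [← hd, div_le_iff₀ (mul_pos hηy hy)] at hb
  refine ⟨hξ0, hη, ?_⟩
  have him2 : |(mob h⁻¹ ξ - z).im| ≤ ‖mob h⁻¹ ξ - z‖ := Complex.abs_im_le_norm _
  rw [sub_im] at him2
  have h2 := (abs_le.1 him2).2
  have hn2 : 0 ≤ ‖mob h⁻¹ ξ - z‖ := norm_nonneg _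
  by_contra hcon
  push Not at hcon
  nlinarith

/-- the conjugate matrix -/
theorem nbw_conj (h : SL(2, ℤ)) (A B C D n : ℤ) (hn : 1 ≤ n) (hdet : A * D - B * C = n)
    (ξ ξ' : ℂ) (hξ : ξ ∈ UH) (hmo : mo A B C D ξ = ξ')
    (hsc : ¬ (B = 0 ∧ C = 0 ∧ A = D)) :
    ∃ a b c d : ℤ, a * d - b * c = n ∧ ¬ (b = 0 ∧ c = 0 ∧ a = d) ∧
      mo a b c d (mob h⁻¹ ξ) = mob h⁻¹ ξ' ∧
      h 1 0 * a + h 1 1 * c = C * h 0 0 + D * h 1 0 ∧
      h 1 0 * b + h 1 1 * d = C * h 0 1 + D * h 1 1 ∧ a + d = A + D := by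
  have hd := Lib.det1 h
  refine ⟨h 1 1 * (A * h 0 0 + B * h 1 0) - h 0 1 * (C * h 0 0 + D * h 1 0),
    h 1 1 * (A * h 0 1 + B * h 1 1) - h 0 1 * (C * h 0 1 + D * h 1 1),
    -h 1 0 * (A * h 0 0 + B * h 1 0) + h 0 0 * (C * h 0 0 + D * h 1 0),
    -h 1 0 * (A * h 0 1 + B * h 1 1) + h 0 0 * (C * h 0 1 + D * h 1 1), ?_, ?_, ?_, ?_, ?_, ?_⟩
  · rw [← hdet]
    linear_combination (A * D - B * C) * (h 0 0 * h 1 1 - h 0 1 * h 1 0 + 1) * hd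
  · rintro ⟨e1, e2, e3⟩
    apply hsc
    set a := h 1 1 * (A * h 0 0 + B * h 1 0) - h 0 1 * (C * h 0 0 + D * h 1 0) with ha
    set b := h 1 1 * (A * h 0 1 + B * h 1 1) - h 0 1 * (C * h 0 1 + D * h 1 1) with hb
    set c := -h 1 0 * (A * h 0 0 + B * h 1 0) + h 0 0 * (C * h 0 0 + D * h 1 0) with hc
    set d := -h 1 0 * (A * h 0 1 + B * h 1 1) + h 0 0 * (C * h 0 1 + D * h 1 1) with hd'
    -- `h (a,b;c,d) = A0 h` up to `det h = 1`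
    have r1 : A * h 0 0 + B * h 1 0 = h 0 0 * a + h 0 1 * c := by
      rw [ha, hc]; linear_combination (-(A * h 0 0 + B * h 1 0)) * hd
    have r2 : A * h 0 1 + B * h 1 1 = h 0 0 * b + h 0 1 * d := by
      rw [hb, hd']; linear_combination (-(A * h 0 1 + B * h 1 1)) * hd
    have r3 : C * h 0 0 + D * h 1 0 = h 1 0 * a + h 1 1 * c := by
      rw [ha, hc]; linear_combination (-(C * h 0 0 + D * h 1 0)) * hd
    have r4 : C * h 0 1 + D * h 1 1 = h 1 0 * b + h 1 1 * d := by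
      rw [hb, hd']; linear_combination (-(C * h 0 1 + D * h 1 1)) * hd
    rw [e2] at r1 r3
    rw [e1] at r2 r4
    rw [← e3] at r2 r4
    refine ⟨?_, ?_, ?_⟩
    · linear_combination (-h 0 1) * r1 + h 0 0 * r2 - B * hd
    · linear_combination h 1 1 * r3 - h 1 0 * r4 - C * hd
    · linear_combination h 1 1 * r1 - h 1 0 * r2 + h 0 1 * r3 - h 0 0 * r4 - (A - D) * hd
  · have hη := Lib.mob_mem h⁻¹ hξ
    have hξη : mob h (mob h⁻¹ ξ) = ξ := Lib.mob_mob_inv h hξ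
    set η := mob h⁻¹ ξ with hηdef
    have hj := Lib.jj_ne h hη
    have hCD : (C : ℂ) * ξ + D ≠ 0 := by
      intro h0
      have him : ((C : ℂ) * ξ + D).im = 0 := by rw [h0]; simp
      have hre : ((C : ℂ) * ξ + D).re = 0 := by rw [h0]; simp
      have h1 : (C : ℝ) * ξ.im = 0 := by simpa using him
      have hξ' : ξ.im ≠ 0 := ne_of_gt hξ
      have hC0 : (C : ℝ) = 0 := by
        rcases mul_eq_zero.mp h1 with h2 | h2
        · exact h2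
        · exact absurd h2 hξ'
      have hD0 : (D : ℝ) = 0 := by
        have : (C : ℝ) * ξ.re + D = 0 := by simpa using hre
        rw [hC0] at this; linarith
      have hC1 : C = 0 := by exact_mod_cast hC0
      have hD1 : D = 0 := by exact_mod_cast hD0
      rw [hC1, hD1] at hdet
      omega
    have hξe : ξ * jj h η = ((h 0 0 : ℤ) : ℂ) * η + ((h 0 1 : ℤ) : ℂ) := by
      rw [← hξη, Lib.mob_eq, div_mul_cancel₀ _ hj]
    have hV : ((C : ℂ) * ξ + D) * jj h η ≠ 0 := mul_ne_zero hCD hj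
    have hU : ξ' * (((C : ℂ) * ξ + D) * jj h η) = ((A : ℂ) * ξ + B) * jj h η := by
      rw [← hmo, mo, ← mul_assoc, div_mul_cancel₀ _ hCD]
    -- `mob h⁻¹ ξ'`
    have hi00 : (h⁻¹ : SL(2, ℤ)) 0 0 = h 1 1 := by simp [Matrix.SpecialLinearGroup.SL2_inv_expl h]
    have hi01 : (h⁻¹ : SL(2, ℤ)) 0 1 = - h 0 1 := by simp [Matrix.SpecialLinearGroup.SL2_inv_expl h]
    have hi10 : (h⁻¹ : SL(2, ℤ)) 1 0 = - h 1 0 := by simp [Matrix.SpecialLinearGroup.SL2_inv_expl h]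
    have hi11 : (h⁻¹ : SL(2, ℤ)) 1 1 = h 0 0 := by simp [Matrix.SpecialLinearGroup.SL2_inv_expl h]
    unfold mob mo
    rw [hi00, hi01, hi10, hi11]
    set V := ((C : ℂ) * ξ + D) * jj h η with hVdef
    have hn1 : (((h 1 1 * (A * h 0 0 + B * h 1 0) - h 0 1 * (C * h 0 0 + D * h 1 0) : ℤ) : ℂ) * η +
        ((h 1 1 * (A * h 0 1 + B * h 1 1) - h 0 1 * (C * h 0 1 + D * h 1 1) : ℤ) : ℂ)) =
        ((h 1 1 : ℂ) * ξ' + ((-h 0 1 : ℤ) : ℂ)) * V := by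
      have e1 : ((h 1 1 : ℂ) * ξ' + ((-h 0 1 : ℤ) : ℂ)) * V =
        (h 1 1 : ℂ) * (ξ' * V) - (h 0 1 : ℂ) * V := by push_cast; ring
      rw [e1, hU, hVdef]
      have e2 : (h 1 1 : ℂ) * (((A : ℂ) * ξ + B) * jj h η) - (h 0 1 : ℂ) * (((C : ℂ) * ξ + D) * jj h η) =
        (h 1 1 : ℂ) * ((A : ℂ) * (ξ * jj h η) + B * jj h η) -
          (h 0 1 : ℂ) * ((C : ℂ) * (ξ * jj h η) + D * jj h η) := by ring
      rw [e2, hξe]
      unfold jj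
      push_cast
      ring
    have hn2 : (((-h 1 0 * (A * h 0 0 + B * h 1 0) + h 0 0 * (C * h 0 0 + D * h 1 0) : ℤ) : ℂ) * η +
        ((-h 1 0 * (A * h 0 1 + B * h 1 1) + h 0 0 * (C * h 0 1 + D * h 1 1) : ℤ) : ℂ)) =
        (((-h 1 0 : ℤ) : ℂ) * ξ' + (h 0 0 : ℂ)) * V := by
      have e1 : (((-h 1 0 : ℤ) : ℂ) * ξ' + (h 0 0 : ℂ)) * V =
        -(h 1 0 : ℂ) * (ξ' * V) + (h 0 0 : ℂ) * V := by push_cast; ring
      rw [e1, hU, hVdef]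
      have e2 : -(h 1 0 : ℂ) * (((A : ℂ) * ξ + B) * jj h η) + (h 0 0 : ℂ) * (((C : ℂ) * ξ + D) * jj h η) =
        -(h 1 0 : ℂ) * ((A : ℂ) * (ξ * jj h η) + B * jj h η) +
          (h 0 0 : ℂ) * ((C : ℂ) * (ξ * jj h η) + D * jj h η) := by ring
      rw [e2, hξe]
      unfold jj
      push_cast
      ring
    rw [hn1, hn2, mul_div_mul_right _ _ hV]
  · linear_combination (C * h 0 0 + D * h 1 0) * hd
  · linear_combination (C * h 0 1 + D * h 1 1) * hd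
  · linear_combination (A + D) * hd

/-- every bad coset is an eigenvector of a small non scalar matrix -/
theorem nbw_pt (hC : ST_COS) (hE : ST_ENT) (N p J : ℕ) (Y : ℝ) (hN : 1 ≤ N) (hp : p.Prime)
    (z : ℂ) (hz : z ∈ SB) (hzY : z.im ≤ Y) (x : PN N)
    (hx : Badw N p J (mob (rep N x) z)) :
    ∃ i ≤ 2 * J, ∃ Q ∈ UD N, ∃ a b c d : ℤ, a * d - b * c = (p : ℤ) ^ i * Q ∧
      ¬ (b = 0 ∧ c = 0 ∧ a = d) ∧
      |(a : ℝ)| ≤ 9 * (p : ℝ) ^ J * Y * Real.sqrt Q ∧ |(b : ℝ)| ≤ 9 * (p : ℝ) ^ J * Y * Real.sqrt Q ∧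
      |(c : ℝ)| ≤ 9 * (p : ℝ) ^ J * Y * Real.sqrt Q ∧ |(d : ℝ)| ≤ 9 * (p : ℝ) ^ J * Y * Real.sqrt Q ∧
      (Q : ℤ) ∣ a + d ∧ x ∈ Fx N Q a b c d := by
  have hzU : z ∈ UH := Lib.SB_sub_UH hz
  have hzpos : 0 < z.im := hzU
  obtain ⟨i, hi, Q, hQ, A, B, C, D, hTQ, hsc, ξ, hξ, ξ', hξ', hmo⟩ := hx
  obtain ⟨hdet, hQA, hQD, hNC⟩ := hTQ
  set h := rep N x with hh
  obtain ⟨h1, h2, h3⟩ := nbw_ball h z ξ hzU hξ
  obtain ⟨h1', h2', h3'⟩ := nbw_ball h z ξ' hzU hξ'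
  have hQpos : 1 ≤ Q := by
    have : Q ∣ N := Nat.dvd_of_mem_divisors (Finset.mem_filter.1 hQ).1
    exact Nat.pos_of_dvd_of_pos this hN
  have hpi : (1 : ℤ) ≤ (p : ℤ) ^ i * Q := by
    have : 1 ≤ p ^ i * Q := Nat.mul_pos (Nat.pow_pos hp.pos) hQpos
    exact_mod_cast this
  obtain ⟨a, b, c, d, hdet', hsc', hmo', hr1, hr2, htr⟩ :=
    nbw_conj h A B C D _ hpi hdet ξ ξ' h1 hmo hsc
  obtain ⟨ea, eb, ec, ed⟩ := hE _ a b c d z _ _ hdet' hpi hz h3 h3' hmo'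
  have hp1 : (1 : ℝ) ≤ p := by exact_mod_cast hp.one_le
  have hbound : 9 * Real.sqrt (((p : ℤ) ^ i * Q : ℤ) : ℝ) * z.im ≤
      9 * (p : ℝ) ^ J * Y * Real.sqrt Q := by
    have hs : Real.sqrt (((p : ℤ) ^ i * Q : ℤ) : ℝ) ≤ (p : ℝ) ^ J * Real.sqrt Q := by
      push_cast
      rw [Real.sqrt_mul (by positivity)]
      apply mul_le_mul_of_nonneg_right _ (Real.sqrt_nonneg _)
      rw [Real.sqrt_le_left (by positivity)]
      rw [← pow_mul]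
      exact pow_le_pow_right₀ hp1 (by omega)
    have hs0 : 0 ≤ Real.sqrt (((p : ℤ) ^ i * Q : ℤ) : ℝ) := Real.sqrt_nonneg _
    have hpJ : 0 ≤ (p : ℝ) ^ J * Real.sqrt Q := by positivity
    have := mul_le_mul hs hzY hzpos.le hpJ
    linarith
  refine ⟨i, hi, Q, hQ, a, b, c, d, hdet', hsc', ea.trans hbound, eb.trans hbound,
    ec.trans hbound, ed.trans hbound, ?_, h 1 0, h 1 1, D, cls_uni N h, ?_, hQD, ?_, ?_⟩
  · rw [htr]; exact dvd_add hQA hQD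
  · have := (hC N hN).1 x
    rw [← hh] at this
    rw [← this]
    rfl
  · rw [hr1]
    obtain ⟨k, hk⟩ := hNC
    exact ⟨k * h 0 0, by rw [hk]; ring⟩
  · rw [hr2]
    obtain ⟨k, hk⟩ := hNC
    exact ⟨k * h 0 1, by rw [hk]; ring⟩

/-- the case of small `Q` -/
theorem nbw_small (hA : ST_CNTA) (hP : ST_PNF) (N Q A : ℕ) (hN : 1 ≤ N) (hQ : Q ∈ UD N) :
    (((⋃ q ∈ (Finset.Icc (-(A : ℤ)) A ×ˢ Finset.Icc (-(A : ℤ)) A ×ˢ Finset.Icc (-(A : ℤ)) A ×ˢ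
      Finset.Icc (-(A : ℤ)) A), {x : PN N | (∃ n : ℤ, IsCoprime n (N : ℤ) ∧
        q.1 * q.2.2.2 - q.2.1 * q.2.2.1 = n * Q) ∧ ¬ (q.2.1 = 0 ∧ q.2.2.1 = 0 ∧ q.1 = q.2.2.2) ∧
        x ∈ Fx N Q q.1 q.2.1 q.2.2.1 q.2.2.2}).ncard : ℕ) : ℝ) ≤
      (2 * A + 1) ^ 4 * (2 * A * (N.divisors.card : ℝ) ^ 3 * Real.sqrt N * Q) := by
  have : Finite (PN N) := (hP N hN).1
  set Bx := (Finset.Icc (-(A : ℤ)) A ×ˢ Finset.Icc (-(A : ℤ)) A ×ˢ Finset.Icc (-(A : ℤ)) A ×ˢ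
      Finset.Icc (-(A : ℤ)) A) with hBx
  have h1 : ((⋃ q ∈ Bx, {x : PN N | (∃ n : ℤ, IsCoprime n (N : ℤ) ∧
        q.1 * q.2.2.2 - q.2.1 * q.2.2.1 = n * Q) ∧ ¬ (q.2.1 = 0 ∧ q.2.2.1 = 0 ∧ q.1 = q.2.2.2) ∧
        x ∈ Fx N Q q.1 q.2.1 q.2.2.1 q.2.2.2}).ncard : ℕ) ≤
      ∑ q ∈ Bx, ({x : PN N | (∃ n : ℤ, IsCoprime n (N : ℤ) ∧
        q.1 * q.2.2.2 - q.2.1 * q.2.2.1 = n * Q) ∧ ¬ (q.2.1 = 0 ∧ q.2.2.1 = 0 ∧ q.1 = q.2.2.2) ∧
        x ∈ Fx N Q q.1 q.2.1 q.2.2.1 q.2.2.2}).ncard := Finset.set_ncard_biUnion_le _ _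
  have h2 : ∀ q ∈ Bx, ((({x : PN N | (∃ n : ℤ, IsCoprime n (N : ℤ) ∧
        q.1 * q.2.2.2 - q.2.1 * q.2.2.1 = n * Q) ∧ ¬ (q.2.1 = 0 ∧ q.2.2.1 = 0 ∧ q.1 = q.2.2.2) ∧
        x ∈ Fx N Q q.1 q.2.1 q.2.2.1 q.2.2.2}).ncard : ℕ) : ℝ) ≤
      2 * A * (N.divisors.card : ℝ) ^ 3 * Real.sqrt N * Q := by
    rintro ⟨a, b, c, d⟩ hq
    have hq' : (-(A : ℤ) ≤ a ∧ a ≤ A) ∧ (-(A : ℤ) ≤ b ∧ b ≤ A) ∧ (-(A : ℤ) ≤ c ∧ c ≤ A) ∧
        (-(A : ℤ) ≤ d ∧ d ≤ A) := by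
      simpa [hBx, Finset.mem_product, Finset.mem_Icc] using hq
    by_cases hcond : (∃ n : ℤ, IsCoprime n (N : ℤ) ∧ a * d - b * c = n * Q) ∧
        ¬ (b = 0 ∧ c = 0 ∧ a = d)
    · obtain ⟨⟨n, hn, hdet⟩, hsc⟩ := hcond
      refine le_trans ?_ (hA N Q A n a b c d hN hQ hn hdet (abs_le.2 hq'.1) (abs_le.2 hq'.2.1)
        (abs_le.2 hq'.2.2.1) (abs_le.2 hq'.2.2.2) hsc)
      have : ({x : PN N | (∃ n : ℤ, IsCoprime n (N : ℤ) ∧ a * d - b * c = n * Q) ∧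
        ¬ (b = 0 ∧ c = 0 ∧ a = d) ∧ x ∈ Fx N Q a b c d}).ncard ≤ (Fx N Q a b c d).ncard :=
        Set.ncard_le_ncard (fun x hx => hx.2.2) (Set.toFinite _)
      exact_mod_cast this
    · have : ({x : PN N | (∃ n : ℤ, IsCoprime n (N : ℤ) ∧ a * d - b * c = n * Q) ∧
        ¬ (b = 0 ∧ c = 0 ∧ a = d) ∧ x ∈ Fx N Q a b c d}) = ∅ := by
        rw [Set.eq_empty_iff_forall_notMem]
        intro x hx
        exact hcond ⟨hx.1, hx.2.1⟩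
      dsimp only
      rw [this, Set.ncard_empty]
      push_cast
      positivity
  have hcard : Bx.card = (2 * A + 1) ^ 4 := by
    have e : (Finset.Icc (-(A : ℤ)) A).card = 2 * A + 1 := by
      rw [Int.card_Icc]; omega
    rw [hBx, Finset.card_product, Finset.card_product, Finset.card_product, e]
    ring
  calc _ ≤ ((∑ q ∈ Bx, ({x : PN N | (∃ n : ℤ, IsCoprime n (N : ℤ) ∧
        q.1 * q.2.2.2 - q.2.1 * q.2.2.1 = n * Q) ∧ ¬ (q.2.1 = 0 ∧ q.2.2.1 = 0 ∧ q.1 = q.2.2.2) ∧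
        x ∈ Fx N Q q.1 q.2.1 q.2.2.1 q.2.2.2}).ncard : ℕ) : ℝ) := by exact_mod_cast h1
    _ ≤ ∑ _q ∈ Bx, (2 * A * (N.divisors.card : ℝ) ^ 3 * Real.sqrt N * Q) := by
        push_cast
        exact Finset.sum_le_sum h2
    _ = (2 * A + 1) ^ 4 * (2 * A * (N.divisors.card : ℝ) ^ 3 * Real.sqrt N * Q) := by
        rw [Finset.sum_const, hcard, nsmul_eq_mul]; push_cast; ring

/-- the case of large `Q`: trace zero -/
theorem nbw_large (hB : ST_CNTB) (hP : ST_PNF) (C₀ : ℝ)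
    (hdiv : ∀ n : ℕ, 1 ≤ n → (n.divisors.card : ℝ) ≤ C₀ * (n : ℝ) ^ (1 / 16 : ℝ)) (hC₀ : 0 < C₀)
    (N Q n B M : ℕ) (hN : 1 ≤ N) (hQ : Q ∈ UD N) (hn : IsCoprime (n : ℤ) (N : ℤ)) (hn1 : 1 ≤ n)
    (hM : n * Q + B ^ 2 ≤ M) :
    (((⋃ a ∈ Finset.Icc (-(B : ℤ)) B, ⋃ q ∈ (n * Q + a.natAbs ^ 2).divisors ×ˢ
      ({1, -1} : Finset ℤ), Fx N Q a (q.2 * q.1)
        (-q.2 * (((n * Q + a.natAbs ^ 2) / q.1 : ℕ) : ℤ)) (-a)).ncard : ℕ) : ℝ) ≤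
      (2 * B + 1) * ((2 * (C₀ * (M : ℝ) ^ (1 / 16 : ℝ))) * (12 * (N.divisors.card : ℝ))) := by
  have : Finite (PN N) := (hP N hN).1
  have hQpos : 1 ≤ Q := by
    have : Q ∣ N := Nat.dvd_of_mem_divisors (Finset.mem_filter.1 hQ).1
    exact Nat.pos_of_dvd_of_pos this hN
  have h2 : ∀ a ∈ Finset.Icc (-(B : ℤ)) B, (((⋃ q ∈ (n * Q + a.natAbs ^ 2).divisors ×ˢ
      ({1, -1} : Finset ℤ), Fx N Q a (q.2 * q.1)
        (-q.2 * (((n * Q + a.natAbs ^ 2) / q.1 : ℕ) : ℤ)) (-a)).ncard : ℕ) : ℝ) ≤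
      ((2 * (C₀ * (M : ℝ) ^ (1 / 16 : ℝ))) * (12 * (N.divisors.card : ℝ))) := by
    intro a ha
    rw [Finset.mem_Icc] at ha
    set m := n * Q + a.natAbs ^ 2 with hm
    have hm1 : 1 ≤ m := by
      have : 1 ≤ n * Q := Nat.mul_pos hn1 hQpos
      omega
    have haB : a.natAbs ≤ B := by omega
    have hmM : m ≤ M := by
      have : a.natAbs ^ 2 ≤ B ^ 2 := Nat.pow_le_pow_left haB 2
      omega
    have h3 : ∀ q ∈ m.divisors ×ˢ ({1, -1} : Finset ℤ), (Fx N Q a (q.2 * q.1)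
        (-q.2 * ((m / q.1 : ℕ) : ℤ)) (-a)).ncard ≤ 12 * N.divisors.card := by
      rintro ⟨e, σ⟩ hq
      rw [Finset.mem_product] at hq
      obtain ⟨he, hσ⟩ := hq
      dsimp only at he hσ ⊢
      apply hB N Q n a _ _ hN hQ hn
      have hee : ((e : ℕ) : ℤ) * ((m / e : ℕ) : ℤ) = m := by
        have := Nat.mul_div_cancel' (Nat.dvd_of_mem_divisors he)
        exact_mod_cast this
      have hσ2 : σ * σ = 1 := by
        rw [Finset.mem_insert, Finset.mem_singleton] at hσ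
        rcases hσ with h | h <;> rw [h] <;> norm_num
      have hmz : (m : ℤ) = n * Q + a * a := by
        rw [hm]
        push_cast
        rw [sq_abs]
        ring
      calc -(a * a) - σ * (e : ℤ) * (-σ * ((m / e : ℕ) : ℤ))
          = -(a * a) + (σ * σ) * ((e : ℤ) * ((m / e : ℕ) : ℤ)) := by ring
        _ = n * Q := by rw [hσ2, hee, hmz]; ring
    have h4 : (⋃ q ∈ m.divisors ×ˢ ({1, -1} : Finset ℤ), Fx N Q a (q.2 * q.1)
        (-q.2 * ((m / q.1 : ℕ) : ℤ)) (-a)).ncard ≤ (m.divisors.card * 2) * (12 * N.divisors.card) := by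
      refine (Finset.set_ncard_biUnion_le _ _).trans ?_
      refine (Finset.sum_le_card_nsmul _ _ _ h3).trans ?_
      rw [Finset.card_product, smul_eq_mul]
      have : ({1, -1} : Finset ℤ).card = 2 := by decide
      rw [this]
    have h5 : (m.divisors.card : ℝ) ≤ C₀ * (M : ℝ) ^ (1 / 16 : ℝ) := by
      refine (hdiv m hm1).trans ?_
      apply mul_le_mul_of_nonneg_left _ hC₀.le
      apply Real.rpow_le_rpow (by positivity) (by exact_mod_cast hmM) (by norm_num)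
    calc _ ≤ (((m.divisors.card * 2) * (12 * N.divisors.card) : ℕ) : ℝ) := by exact_mod_cast h4
      _ = (2 * (m.divisors.card : ℝ)) * (12 * (N.divisors.card : ℝ)) := by push_cast; ring
      _ ≤ _ := by gcongr
  have hcard : (Finset.Icc (-(B : ℤ)) B).card = 2 * B + 1 := by
    rw [Int.card_Icc]; omega
  calc _ ≤ ((∑ a ∈ Finset.Icc (-(B : ℤ)) B, (⋃ q ∈ (n * Q + a.natAbs ^ 2).divisors ×ˢ
      ({1, -1} : Finset ℤ), Fx N Q a (q.2 * q.1)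
        (-q.2 * (((n * Q + a.natAbs ^ 2) / q.1 : ℕ) : ℤ)) (-a)).ncard : ℕ) : ℝ) := by
        exact_mod_cast Finset.set_ncard_biUnion_le _ _
    _ ≤ ∑ _a ∈ Finset.Icc (-(B : ℤ)) B,
        ((2 * (C₀ * (M : ℝ) ^ (1 / 16 : ℝ))) * (12 * (N.divisors.card : ℝ))) := by
        rw [Nat.cast_sum]
        exact Finset.sum_le_sum h2
    _ = _ := by
        rw [Finset.sum_const, hcard, nsmul_eq_mul]; push_cast; ring

/-- factorizations of `-m` -/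
theorem nbw_fact (m : ℕ) (b c : ℤ) (hm : 1 ≤ m) (h : b * c = -(m : ℤ)) :
    ∃ q ∈ m.divisors ×ˢ ({1, -1} : Finset ℤ), b = q.2 * q.1 ∧ c = -q.2 * ((m / q.1 : ℕ) : ℤ) := by
  have hb : b ≠ 0 := by
    intro h0
    rw [h0, zero_mul] at h
    omega
  have hdvd : b.natAbs ∣ m := by
    have : b.natAbs * c.natAbs = m := by
      rw [← Int.natAbs_mul, h, Int.natAbs_neg, Int.natAbs_natCast]
    exact ⟨_, this.symm⟩
  have hbpos : 0 < b.natAbs := Int.natAbs_pos.2 hb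
  refine ⟨(b.natAbs, b.sign), ?_, ?_, ?_⟩
  · rw [Finset.mem_product]
    refine ⟨Nat.mem_divisors.2 ⟨hdvd, by omega⟩, ?_⟩
    rw [Finset.mem_insert, Finset.mem_singleton]
    rcases lt_or_gt_of_ne hb with h1 | h1
    · right; exact Int.sign_eq_neg_one_of_neg h1
    · left; exact Int.sign_eq_one_of_pos h1
  · exact (Int.sign_mul_natAbs b).symm
  · have h1 : ((b.natAbs : ℕ) : ℤ) * ((m / b.natAbs : ℕ) : ℤ) = m := by
      have := Nat.mul_div_cancel' hdvd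
      exact_mod_cast this
    have h2 : b.sign * b.sign = 1 := by
      rcases lt_or_gt_of_ne hb with h1 | h1
      · rw [Int.sign_eq_neg_one_of_neg h1]; norm_num
      · rw [Int.sign_eq_one_of_pos h1]; norm_num
    have h3 : b = b.sign * (b.natAbs : ℤ) := (Int.sign_mul_natAbs b).symm
    apply mul_left_cancel₀ hb
    show b * c = b * (-b.sign * ((m / b.natAbs : ℕ) : ℤ))
    calc b * c = -(m : ℤ) := h
      _ = -((b.sign * b.sign) * (((b.natAbs : ℕ) : ℤ) * ((m / b.natAbs : ℕ) : ℤ))) := by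
          rw [h2, h1]; ring
      _ = (b.sign * (b.natAbs : ℤ)) * (-b.sign * ((m / b.natAbs : ℕ) : ℤ)) := by ring
      _ = b * (-b.sign * ((m / b.natAbs : ℕ) : ℤ)) := by rw [← h3]

theorem nbw_rp (x : ℝ) (hx : 1 ≤ x) : x ^ (1 / 16 : ℝ) ≤ x := by
  calc x ^ (1 / 16 : ℝ) ≤ x ^ (1 : ℝ) := Real.rpow_le_rpow_of_exponent_le hx (by norm_num)
    _ = x := Real.rpow_one _

theorem nbw_arith (R C₀ τ u K : ℝ) (hR9 : 9 ≤ R) (hC₀ : 0 < C₀) (hτ0 : 0 ≤ τ) (hu1 : 1 ≤ u)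
    (hτC : τ ≤ C₀ * u) (hK : K ≤ τ) :
    K * (20736 * R ^ 12 * τ ^ 3 * u ^ 8 + 144 * C₀ * R ^ 4 * (u ^ 8 * u) * τ) ≤
      (20736 * C₀ ^ 4 + 144 * C₀ ^ 3) * R ^ 12 * u ^ 12 := by
  have hR0 : 0 ≤ R := by linarith
  have hu0 : 0 ≤ u := by linarith
  have a1 : τ ^ 4 ≤ (C₀ * u) ^ 4 := pow_le_pow_left₀ hτ0 hτC 4
  have a2 : τ ^ 2 ≤ (C₀ * u) ^ 2 := pow_le_pow_left₀ hτ0 hτC 2
  have e1 : R ^ 4 ≤ R ^ 12 := pow_le_pow_right₀ (by linarith) (by norm_num)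
  have e2 : u ^ 11 ≤ u ^ 12 := pow_le_pow_right₀ hu1 (by norm_num)
  have b1 : 20736 * R ^ 12 * u ^ 8 * τ ^ 4 ≤ 20736 * R ^ 12 * u ^ 8 * (C₀ * u) ^ 4 :=
    mul_le_mul_of_nonneg_left a1 (by positivity)
  have b2 : 144 * C₀ * R ^ 4 * u ^ 9 * τ ^ 2 ≤ 144 * C₀ * R ^ 4 * u ^ 9 * (C₀ * u) ^ 2 :=
    mul_le_mul_of_nonneg_left a2 (by positivity)
  have b3 : 144 * C₀ ^ 3 * (R ^ 4 * u ^ 11) ≤ 144 * C₀ ^ 3 * (R ^ 12 * u ^ 12) :=
    mul_le_mul_of_nonneg_left (mul_le_mul e1 e2 (by positivity) (by positivity)) (by positivity)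
  calc K * (20736 * R ^ 12 * τ ^ 3 * u ^ 8 + 144 * C₀ * R ^ 4 * (u ^ 8 * u) * τ)
      ≤ τ * (20736 * R ^ 12 * τ ^ 3 * u ^ 8 + 144 * C₀ * R ^ 4 * (u ^ 8 * u) * τ) :=
        mul_le_mul_of_nonneg_right hK (by positivity)
    _ = 20736 * R ^ 12 * u ^ 8 * τ ^ 4 + 144 * C₀ * R ^ 4 * u ^ 9 * τ ^ 2 := by ring
    _ ≤ 20736 * R ^ 12 * u ^ 8 * (C₀ * u) ^ 4 + 144 * C₀ * R ^ 4 * u ^ 9 * (C₀ * u) ^ 2 :=
        add_le_add b1 b2
    _ = 20736 * C₀ ^ 4 * R ^ 12 * u ^ 12 + 144 * C₀ ^ 3 * (R ^ 4 * u ^ 11) := by ring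
    _ ≤ 20736 * C₀ ^ 4 * R ^ 12 * u ^ 12 + 144 * C₀ ^ 3 * (R ^ 12 * u ^ 12) := by linarith
    _ = _ := by ring

theorem st_NBW (hC : ST_COS) (hE : ST_ENT) (hA : ST_CNTA) (hB : ST_CNTB) (hD : ST_DIVB)
    (hP : ST_PNF) : ST_NBW := by
  classical
  obtain ⟨C₀, hC₀, hdiv⟩ := hD
  refine ⟨(20736 * C₀ ^ 4 + 144 * C₀ ^ 3) * 9 ^ 12, by positivity, ?_⟩
  intro N p J Y hN hp hpN hY z hz hzY
  have : Finite (PN N) := (hP N hN).1
  have hp1 : (1 : ℝ) ≤ p := by exact_mod_cast hp.one_le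
  have hpJ : (1 : ℝ) ≤ (p : ℝ) ^ J := one_le_pow₀ hp1
  have hX1 : 1 ≤ (p : ℝ) ^ J * Y := by nlinarith
  set X : ℝ := (p : ℝ) ^ J * Y with hX
  set R : ℝ := 9 * X with hR
  have hR9 : 9 ≤ R := by rw [hR]; linarith
  have hN1 : (1 : ℝ) ≤ N := by exact_mod_cast hN
  have hN0 : (0 : ℝ) < N := by linarith
  have hcopN : ∀ i : ℕ, IsCoprime ((p ^ i : ℕ) : ℤ) (N : ℤ) := by
    intro i
    push_cast
    apply IsCoprime.pow_left
    rw [Nat.isCoprime_iff_coprime]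
    exact (Nat.Prime.coprime_iff_not_dvd hp).2 hpN
  have habs : ∀ (a : ℤ) (r : ℝ), |(a : ℝ)| ≤ r → -((⌊r⌋₊ : ℕ) : ℤ) ≤ a ∧ a ≤ ((⌊r⌋₊ : ℕ) : ℤ) := by
    intro a r ha
    have h1 : ((a.natAbs : ℕ) : ℝ) ≤ r := by
      rw [Nat.cast_natAbs]
      push_cast
      exact ha
    have h2 : a.natAbs ≤ ⌊r⌋₊ := Nat.le_floor h1
    omega
  set A : ℕ := ⌊2 * R ^ 2⌋₊ with hAdef
  let S1 : ℕ → Set (PN N) := fun Q =>
    ⋃ q ∈ (Finset.Icc (-(A : ℤ)) A ×ˢ Finset.Icc (-(A : ℤ)) A ×ˢ Finset.Icc (-(A : ℤ)) A ×ˢ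
      Finset.Icc (-(A : ℤ)) A), {x : PN N | (∃ n : ℤ, IsCoprime n (N : ℤ) ∧
        q.1 * q.2.2.2 - q.2.1 * q.2.2.1 = n * Q) ∧ ¬ (q.2.1 = 0 ∧ q.2.2.1 = 0 ∧ q.1 = q.2.2.2) ∧
        x ∈ Fx N Q q.1 q.2.1 q.2.2.1 q.2.2.2}
  let S2 : ℕ → ℕ → Set (PN N) := fun Q i =>
    ⋃ a ∈ Finset.Icc (-((⌊R * Real.sqrt Q⌋₊ : ℕ) : ℤ)) (⌊R * Real.sqrt Q⌋₊ : ℕ),
      ⋃ q ∈ (p ^ i * Q + a.natAbs ^ 2).divisors ×ˢ
      ({1, -1} : Finset ℤ), Fx N Q a (q.2 * q.1)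
        (-q.2 * (((p ^ i * Q + a.natAbs ^ 2) / q.1 : ℕ) : ℤ)) (-a)
  let S : ℕ → Set (PN N) := fun Q => if (Q : ℝ) ≤ 4 * R ^ 2 then S1 Q else
    ⋃ i ∈ Finset.range (2 * J + 1), S2 Q i
  have hQpos : ∀ Q ∈ UD N, 1 ≤ Q ∧ Q ≤ N := by
    intro Q hQ
    have : Q ∣ N := Nat.dvd_of_mem_divisors (Finset.mem_filter.1 hQ).1
    exact ⟨Nat.pos_of_dvd_of_pos this hN, Nat.le_of_dvd hN this⟩
  have hsub : {x : PN N | Badw N p J (mob (rep N x) z)} ⊆ ⋃ Q ∈ UD N, S Q := by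
    intro x hx
    obtain ⟨i, hi, Q, hQ, a, b, c, d, hdet, hsc, ea, eb, ec, ed, htr, hF⟩ :=
      nbw_pt hC hE N p J Y hN hp z hz hzY x hx
    have hRe : 9 * (p : ℝ) ^ J * Y = R := by rw [hR, hX]; ring
    rw [hRe] at ea eb ec ed
    rw [Set.mem_iUnion₂]
    refine ⟨Q, hQ, ?_⟩
    by_cases hQR : (Q : ℝ) ≤ 4 * R ^ 2
    · simp only [S, if_pos hQR, S1]
      rw [Set.mem_iUnion₂]
      have hsq : R * Real.sqrt Q ≤ 2 * R ^ 2 := by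
        have : Real.sqrt Q ≤ 2 * R := by
          rw [Real.sqrt_le_left (by positivity)]
          nlinarith
        nlinarith
      refine ⟨(a, b, c, d), ?_, ⟨(p : ℤ) ^ i, by exact_mod_cast hcopN i, hdet⟩, hsc, hF⟩
      simp only [Finset.mem_product, Finset.mem_Icc]
      exact ⟨habs a _ (ea.trans hsq), habs b _ (eb.trans hsq), habs c _ (ec.trans hsq),
        habs d _ (ed.trans hsq)⟩
    · simp only [S, if_neg hQR, S2]
      rw [Set.mem_iUnion₂]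
      refine ⟨i, Finset.mem_range.2 (by omega), ?_⟩
      push Not at hQR
      have hsqQ : Real.sqrt Q * Real.sqrt Q = Q := Real.mul_self_sqrt (by positivity)
      have hQ2 : 2 * R < Real.sqrt Q := by
        rw [Real.lt_sqrt (by positivity)]
        nlinarith
      have htr0 : a + d = 0 := by
        by_contra hne
        have h1 : (Q : ℤ) ≤ |a + d| := Int.le_of_dvd (abs_pos.2 hne) ((dvd_abs _ _).2 htr)
        have h2 : (Q : ℝ) ≤ |(a : ℝ) + d| := by exact_mod_cast h1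
        have h3 := abs_add_le (a : ℝ) (d : ℝ)
        have hs0 : 0 < Real.sqrt Q := by linarith
        nlinarith
      have hd : d = -a := by linarith
      rw [Set.mem_iUnion₂]
      refine ⟨a, Finset.mem_Icc.2 (habs a _ ea), ?_⟩
      have hm1 : 1 ≤ p ^ i * Q + a.natAbs ^ 2 := by
        have : 1 ≤ p ^ i * Q := Nat.mul_pos (Nat.pow_pos hp.pos) (hQpos Q hQ).1
        omega
      have hbc : b * c = -((p ^ i * Q + a.natAbs ^ 2 : ℕ) : ℤ) := by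
        push_cast
        rw [sq_abs]
        rw [hd] at hdet
        linear_combination -hdet
      obtain ⟨q, hq, hqb, hqc⟩ := nbw_fact _ b c hm1 hbc
      rw [Set.mem_iUnion₂]
      refine ⟨q, hq, ?_⟩
      rw [← hqb, ← hqc, ← hd]
      exact hF
  set τ : ℝ := (N.divisors.card : ℝ) with hτ
  have hτ0 : 0 ≤ τ := Nat.cast_nonneg _
  have hτC : τ ≤ C₀ * (N : ℝ) ^ (1 / 16 : ℝ) := hdiv N hN
  have hAle : (A : ℝ) ≤ 2 * R ^ 2 := Nat.floor_le (by positivity)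
  have hA1 : (1 : ℝ) ≤ A := by
    have : 1 ≤ A := by
      rw [hAdef]; exact Nat.le_floor (by push_cast; nlinarith)
    exact_mod_cast this
  have hJ : (2 * (J : ℝ) + 1) ≤ R := by
    have h1 : J + 1 ≤ 2 ^ J := Nat.lt_two_pow_self
    have h2 : (J : ℝ) + 1 ≤ 2 ^ J := by exact_mod_cast h1
    have h3 : (2 : ℝ) ^ J ≤ (p : ℝ) ^ J := by
      apply pow_le_pow_left₀ (by norm_num)
      exact_mod_cast hp.two_le
    have h4 : (p : ℝ) ^ J ≤ X := by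
      rw [hX]; nlinarith
    rw [hR]
    linarith
  have hbound : ∀ Q ∈ UD N, (((S Q).ncard : ℕ) : ℝ) ≤
      20736 * R ^ 12 * τ ^ 3 * Real.sqrt N +
        144 * C₀ * R ^ 4 * (Real.sqrt N * (N : ℝ) ^ (1 / 16 : ℝ)) * τ := by
    intro Q hQ
    by_cases hQR : (Q : ℝ) ≤ 4 * R ^ 2
    · simp only [S, if_pos hQR, S1]
      refine (nbw_small hA hP N Q A hN hQ).trans ?_
      have e1 : (2 * (A : ℝ) + 1) ^ 4 ≤ (6 * R ^ 2) ^ 4 :=
        pow_le_pow_left₀ (by positivity) (by linarith) 4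
      have e2 : 0 ≤ 144 * C₀ * R ^ 4 * (Real.sqrt N * (N : ℝ) ^ (1 / 16 : ℝ)) * τ := by positivity
      calc (2 * (A : ℝ) + 1) ^ 4 * (2 * A * τ ^ 3 * Real.sqrt N * Q)
          ≤ (6 * R ^ 2) ^ 4 * (2 * (2 * R ^ 2) * τ ^ 3 * Real.sqrt N * (4 * R ^ 2)) := by
            gcongr
        _ = 20736 * R ^ 12 * τ ^ 3 * Real.sqrt N := by ring
        _ ≤ _ := by linarith
    · simp only [S, if_neg hQR]
      have hcard : ((⋃ i ∈ Finset.range (2 * J + 1), S2 Q i).ncard : ℝ) ≤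
          ∑ i ∈ Finset.range (2 * J + 1), (((S2 Q i).ncard : ℕ) : ℝ) := by
        exact_mod_cast Finset.set_ncard_biUnion_le _ _
      have hQN : (Q : ℝ) ≤ N := by exact_mod_cast (hQpos Q hQ).2
      have hsqQN : Real.sqrt Q ≤ Real.sqrt N := Real.sqrt_le_sqrt hQN
      have hsN1 : 1 ≤ Real.sqrt N := Real.one_le_sqrt.2 hN1
      have hi : ∀ i ∈ Finset.range (2 * J + 1), (((S2 Q i).ncard : ℕ) : ℝ) ≤
          144 * C₀ * R ^ 3 * (Real.sqrt N * (N : ℝ) ^ (1 / 16 : ℝ)) * τ := by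
        intro i hi
        rw [Finset.mem_range] at hi
        have h1 := nbw_large hB hP C₀ hdiv hC₀ N Q (p ^ i) ⌊R * Real.sqrt Q⌋₊
          (p ^ i * Q + ⌊R * Real.sqrt Q⌋₊ ^ 2) hN hQ (hcopN i) (Nat.pow_pos hp.pos) le_rfl
        refine h1.trans ?_
        have hB1 : ((⌊R * Real.sqrt Q⌋₊ : ℕ) : ℝ) ≤ R * Real.sqrt N :=
          (Nat.floor_le (by positivity)).trans (mul_le_mul_of_nonneg_left hsqQN (by linarith))
        have hM : (((p ^ i * Q + ⌊R * Real.sqrt Q⌋₊ ^ 2 : ℕ)) : ℝ) ≤ (2 * R ^ 2) * N := by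
          push_cast
          have h2 : (p : ℝ) ^ i ≤ R ^ 2 := by
            calc (p : ℝ) ^ i ≤ (p : ℝ) ^ (2 * J) := pow_le_pow_right₀ hp1 (by omega)
              _ = ((p : ℝ) ^ J) ^ 2 := by rw [← pow_mul]; ring_nf
              _ ≤ R ^ 2 := by
                apply pow_le_pow_left₀ (by positivity)
                rw [hR, hX]
                nlinarith
          have h3 : ((⌊R * Real.sqrt Q⌋₊ : ℕ) : ℝ) ^ 2 ≤ (R * Real.sqrt N) ^ 2 :=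
            pow_le_pow_left₀ (by positivity) hB1 2
          have h4 : (R * Real.sqrt N) ^ 2 = R ^ 2 * N := by
            rw [mul_pow, Real.sq_sqrt (by positivity)]
          have h5 : (p : ℝ) ^ i * Q ≤ R ^ 2 * N := by gcongr
          linarith
        have hMp : (((p ^ i * Q + ⌊R * Real.sqrt Q⌋₊ ^ 2 : ℕ)) : ℝ) ^ (1 / 16 : ℝ) ≤
            (2 * R ^ 2) * (N : ℝ) ^ (1 / 16 : ℝ) := by
          calc _ ≤ ((2 * R ^ 2) * N : ℝ) ^ (1 / 16 : ℝ) :=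
                Real.rpow_le_rpow (by positivity) hM (by norm_num)
            _ = (2 * R ^ 2) ^ (1 / 16 : ℝ) * (N : ℝ) ^ (1 / 16 : ℝ) :=
                Real.mul_rpow (by positivity) (by positivity)
            _ ≤ (2 * R ^ 2) * (N : ℝ) ^ (1 / 16 : ℝ) :=
                mul_le_mul_of_nonneg_right (nbw_rp _ (by nlinarith)) (by positivity)
        have hR1 : 1 ≤ R * Real.sqrt N := by nlinarith
        calc _ ≤ (3 * (R * Real.sqrt N)) *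
              ((2 * (C₀ * ((2 * R ^ 2) * (N : ℝ) ^ (1 / 16 : ℝ)))) * (12 * τ)) := by
              apply mul_le_mul (by linarith) _ (by positivity) (by positivity)
              apply mul_le_mul_of_nonneg_right _ (by positivity)
              apply mul_le_mul_of_nonneg_left _ (by norm_num)
              exact mul_le_mul_of_nonneg_left hMp hC₀.le
          _ = 144 * C₀ * R ^ 3 * (Real.sqrt N * (N : ℝ) ^ (1 / 16 : ℝ)) * τ := by ring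
      have hsum : ∑ i ∈ Finset.range (2 * J + 1), (((S2 Q i).ncard : ℕ) : ℝ) ≤
          (2 * (J : ℝ) + 1) * (144 * C₀ * R ^ 3 * (Real.sqrt N * (N : ℝ) ^ (1 / 16 : ℝ)) * τ) := by
        refine (Finset.sum_le_card_nsmul _ _ _ hi).trans ?_
        rw [Finset.card_range, nsmul_eq_mul]
        push_cast
        exact le_rfl
      have e3 : 0 ≤ 20736 * R ^ 12 * τ ^ 3 * Real.sqrt N := by positivity
      have e4 : 0 ≤ 144 * C₀ * R ^ 3 * (Real.sqrt N * (N : ℝ) ^ (1 / 16 : ℝ)) * τ := by positivity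
      have e5 := mul_le_mul_of_nonneg_right hJ e4
      calc _ ≤ _ := hcard
        _ ≤ _ := hsum
        _ ≤ R * (144 * C₀ * R ^ 3 * (Real.sqrt N * (N : ℝ) ^ (1 / 16 : ℝ)) * τ) := e5
        _ = 144 * C₀ * R ^ 4 * (Real.sqrt N * (N : ℝ) ^ (1 / 16 : ℝ)) * τ := by ring
        _ ≤ _ := by linarith
  have hUD : ((UD N).card : ℝ) ≤ τ := by
    rw [hτ]
    exact_mod_cast Finset.card_filter_le _ _
  have hsqrt : Real.sqrt N = (N : ℝ) ^ (1 / 2 : ℝ) := Real.sqrt_eq_rpow _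
  set u : ℝ := (N : ℝ) ^ (1 / 16 : ℝ) with hu
  have hu1 : 1 ≤ u := Real.one_le_rpow hN1 (by norm_num)
  have hu8 : Real.sqrt N = u ^ 8 := by
    rw [hsqrt, hu, ← Real.rpow_natCast, ← Real.rpow_mul hN0.le]
    norm_num
  have hu12 : (N : ℝ) ^ (3 / 4 : ℝ) = u ^ 12 := by
    rw [hu, ← Real.rpow_natCast, ← Real.rpow_mul hN0.le]
    norm_num
  calc (({x : PN N | Badw N p J (mob (rep N x) z)}.ncard : ℕ) : ℝ)
      ≤ (((⋃ Q ∈ UD N, S Q).ncard : ℕ) : ℝ) := by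
        exact_mod_cast Set.ncard_le_ncard hsub (Set.toFinite _)
    _ ≤ ∑ Q ∈ UD N, (((S Q).ncard : ℕ) : ℝ) := by
        exact_mod_cast Finset.set_ncard_biUnion_le _ _
    _ ≤ ((UD N).card : ℝ) * (20736 * R ^ 12 * τ ^ 3 * Real.sqrt N +
        144 * C₀ * R ^ 4 * (Real.sqrt N * u) * τ) := by
        refine (Finset.sum_le_card_nsmul _ _ _ hbound).trans ?_
        rw [nsmul_eq_mul]
    _ ≤ (20736 * C₀ ^ 4 + 144 * C₀ ^ 3) * R ^ 12 * u ^ 12 := by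
        rw [hu8]
        exact nbw_arith R C₀ τ u _ hR9 hC₀ hτ0 hu1 hτC hUD
    _ = (20736 * C₀ ^ 4 + 144 * C₀ ^ 3) * 9 ^ 12 * X ^ 12 * (N : ℝ) ^ (3 / 4 : ℝ) := by
        rw [hu12, hR]; ring

end Pool.Agent.Helper96.MP
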