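import Pool.Agent.Helper96.MP.Defs

/-! Finiteness and cardinality of the projective line over `ℤ/N`. -/

set_option autoImplicit false

namespace Pool.Agent.Helper96.MP

open Finset

/-- Bezout form of unimodularity -/
theorem pnf_uni_iff (N : ℕ) (c d : ℤ) :
    Uni N c d ↔ ∃ a b k : ℤ, a * c + b * d + k * (N : ℤ) = 1 := by
  unfold Uni
  constructor
  · intro h
    have h1 := Int.gcd_eq_gcd_ab (Int.gcd c d : ℤ) (N : ℤ)
    have h2 := Int.gcd_eq_gcd_ab c d
    rw [h] at h1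
    refine ⟨Int.gcdA c d * Int.gcdA (Int.gcd c d : ℤ) N,
      Int.gcdB c d * Int.gcdA (Int.gcd c d : ℤ) N, Int.gcdB (Int.gcd c d : ℤ) N, ?_⟩
    have h3 : ((1 : ℕ) : ℤ) = 1 := rfl
    rw [h3] at h1
    linear_combination (-1) * h1 + (-Int.gcdA (Int.gcd c d : ℤ) N) * h2
  · rintro ⟨a, b, k, h⟩
    have h1 : ((Int.gcd (Int.gcd c d : ℤ) (N : ℤ) : ℕ) : ℤ) ∣ 1 := by
      rw [← h]
      have hg : ((Int.gcd (Int.gcd c d : ℤ) (N : ℤ) : ℕ) : ℤ) ∣ (Int.gcd c d : ℤ) :=
        Int.gcd_dvd_left _ _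
      have hN : ((Int.gcd (Int.gcd c d : ℤ) (N : ℤ) : ℕ) : ℤ) ∣ (N : ℤ) := Int.gcd_dvd_right _ _
      exact dvd_add (dvd_add (Dvd.dvd.mul_left (hg.trans (Int.gcd_dvd_left _ _)) a)
        (Dvd.dvd.mul_left (hg.trans (Int.gcd_dvd_right _ _)) b)) (Dvd.dvd.mul_left hN k)
    have h2 : Int.gcd (Int.gcd c d : ℤ) (N : ℤ) ∣ 1 := by exact_mod_cast h1
    exact Nat.dvd_one.1 h2

theorem pnf_uni_mono {N M : ℕ} (h : M ∣ N) {c d : ℤ} (hu : Uni N c d) : Uni M c d := by
  rw [pnf_uni_iff] at hu ⊢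
  obtain ⟨a, b, k, hk⟩ := hu
  obtain ⟨m, rfl⟩ := h
  refine ⟨a, b, k * m, ?_⟩
  rw [← hk]
  push_cast
  ring

theorem pnf_eqv_mono {N M : ℕ} (h : M ∣ N) {c d c' d' : ℤ} (hu : eqv N c d c' d') :
    eqv M c d c' d' := by
  obtain ⟨l, hl, h1, h2⟩ := hu
  have hM : (M : ℤ) ∣ (N : ℤ) := by exact_mod_cast h
  exact ⟨l, hl.of_isCoprime_of_dvd_right hM, hM.trans h1, hM.trans h2⟩

/-- a representative of a class -/
noncomputable def pnf_out {N : ℕ} (x : PN N) : UP N := Quotient.out x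

theorem pnf_out_spec {N : ℕ} (x : PN N) : (Quotient.mk (sPN N) (pnf_out x) : PN N) = x :=
  Quotient.out_eq x

theorem pnf_eq_of_eqv {N : ℕ} {x y : PN N}
    (h : eqv N (pnf_out x).1.1 (pnf_out x).1.2 (pnf_out y).1.1 (pnf_out y).1.2) : x = y := by
  rw [← pnf_out_spec x, ← pnf_out_spec y]
  exact Quotient.sound h

theorem pnf_finite (N : ℕ) (hN : 1 ≤ N) : Finite (PN N) := by
  have : NeZero N := ⟨by omega⟩
  let f : PN N → ZMod N × ZMod N := fun x => (((pnf_out x).1.1 : ℤ), ((pnf_out x).1.2 : ℤ))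
  refine Finite.of_injective f (fun x y h => ?_)
  have h1 : (((pnf_out x).1.1 : ℤ) : ZMod N) = (((pnf_out y).1.1 : ℤ) : ZMod N) :=
    congrArg Prod.fst h
  have h2 : (((pnf_out x).1.2 : ℤ) : ZMod N) = (((pnf_out y).1.2 : ℤ) : ZMod N) :=
    congrArg Prod.snd h
  rw [ZMod.intCast_eq_intCast_iff_dvd_sub] at h1 h2
  exact pnf_eq_of_eqv ⟨1, isCoprime_one_left, by simpa using h1, by simpa using h2⟩

theorem pnf_le (N : ℕ) (hN : 1 ≤ N) : N ≤ Nat.card (PN N) := by
  have := pnf_finite N hN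
  have hu : ∀ c : ℤ, Uni N c 1 := fun c => (pnf_uni_iff N c 1).2 ⟨0, 1, 0, by ring⟩
  let f : Fin N → PN N := fun c => Quotient.mk (sPN N) ⟨((c.1 : ℤ), 1), hu _⟩
  have hf : Function.Injective f := by
    intro c c' h
    obtain ⟨l, -, h1, h2⟩ := (Quotient.exact h : eqv N (c.1 : ℤ) 1 (c'.1 : ℤ) 1)
    have h3 : (N : ℤ) ∣ (c'.1 : ℤ) - (c.1 : ℤ) := by
      have : (c'.1 : ℤ) - (c.1 : ℤ) = ((c'.1 : ℤ) - l * (c.1 : ℤ)) - (c.1 : ℤ) * (1 - l * 1) := by
        ring
      rw [this]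
      exact dvd_sub h1 (Dvd.dvd.mul_left h2 _)
    have h4 : ((c'.1 : ℤ) - (c.1 : ℤ)) = 0 := by
      refine Int.eq_zero_of_abs_lt_dvd h3 ?_
      have := c.2
      have := c'.2
      rw [abs_lt]
      constructor <;> omega
    exact Fin.ext (by omega)
  calc N = Nat.card (Fin N) := by simp
    _ ≤ Nat.card (PN N) := Nat.card_le_card_of_injective f hf

/-- reduction to a divisor of the level -/
noncomputable def pnf_red {N : ℕ} (M : ℕ) (h : M ∣ N) (x : PN N) : PN M :=
  Quotient.mk (sPN M) ⟨(pnf_out x).1, pnf_uni_mono h (pnf_out x).2⟩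

theorem pnf_eqv_of_red {N M : ℕ} (h : M ∣ N) {x y : PN N} (hxy : pnf_red M h x = pnf_red M h y) :
    eqv M (pnf_out x).1.1 (pnf_out x).1.2 (pnf_out y).1.1 (pnf_out y).1.2 :=
  Quotient.exact hxy

theorem pnf_prime (p : ℕ) (hp : p.Prime) : Nat.card (PN p) ≤ p + 1 := by
  have : Fact p.Prime := ⟨hp⟩
  classical
  let f : PN p → Option (ZMod p) := fun x =>
    if (((pnf_out x).1.2 : ℤ) : ZMod p) = 0 then none
    else some ((((pnf_out x).1.1 : ℤ) : ZMod p) * (((pnf_out x).1.2 : ℤ) : ZMod p)⁻¹)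
  have key : ∀ (c d c' d' : ℤ) (l : ZMod p), l ≠ 0 → ((c' : ℤ) : ZMod p) = l * c →
      ((d' : ℤ) : ZMod p) = l * d → eqv p c d c' d' := by
    intro c d c' d' l hl h1 h2
    obtain ⟨m, rfl⟩ := ZMod.intCast_surjective l
    refine ⟨m, ?_, ?_, ?_⟩
    · have : IsUnit ((m : ℤ) : ZMod p) := isUnit_iff_ne_zero.2 hl
      exact ((ZMod.coe_int_isUnit_iff_isCoprime m p).1 this).symm
    · rw [← ZMod.intCast_zmod_eq_zero_iff_dvd]
      push_cast
      rw [h1, sub_self]
    · rw [← ZMod.intCast_zmod_eq_zero_iff_dvd]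
      push_cast
      rw [h2, sub_self]
  have hne : ∀ x : PN p, (((pnf_out x).1.2 : ℤ) : ZMod p) = 0 →
      (((pnf_out x).1.1 : ℤ) : ZMod p) ≠ 0 := by
    intro x h2 h1
    obtain ⟨a, b, k, h⟩ := (pnf_uni_iff p _ _).1 (pnf_out x).2
    have h3 := congrArg (fun z : ℤ => (z : ZMod p)) h
    push_cast at h3
    rw [h1, h2] at h3
    simp at h3
  have hf : Function.Injective f := by
    intro x y hxy
    apply pnf_eq_of_eqv
    by_cases hx : (((pnf_out x).1.2 : ℤ) : ZMod p) = 0 <;>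
      by_cases hy : (((pnf_out y).1.2 : ℤ) : ZMod p) = 0
    · have h1 := hne x hx
      have h2 := hne y hy
      refine key _ _ _ _ ((((pnf_out y).1.1 : ℤ) : ZMod p) * (((pnf_out x).1.1 : ℤ) : ZMod p)⁻¹)
        (mul_ne_zero h2 (inv_ne_zero h1)) ?_ ?_
      · rw [mul_assoc, inv_mul_cancel₀ h1, mul_one]
      · rw [hx, hy, mul_zero]
    · simp only [f, if_pos hx, if_neg hy] at hxy
      exact absurd hxy (by simp)
    · simp only [f, if_neg hx, if_pos hy] at hxy
      exact absurd hxy (by simp)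
    · simp only [f, if_neg hx, if_neg hy, Option.some.injEq] at hxy
      refine key _ _ _ _ ((((pnf_out y).1.2 : ℤ) : ZMod p) * (((pnf_out x).1.2 : ℤ) : ZMod p)⁻¹)
        (mul_ne_zero hy (inv_ne_zero hx)) ?_ ?_
      · rw [mul_assoc, mul_comm (((pnf_out x).1.2 : ℤ) : ZMod p)⁻¹, hxy, mul_comm, mul_assoc,
          inv_mul_cancel₀ hy, mul_one]
      · rw [mul_assoc, inv_mul_cancel₀ hx, mul_one]
  calc Nat.card (PN p) ≤ Nat.card (Option (ZMod p)) := Nat.card_le_card_of_injective f hf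
    _ = p + 1 := by rw [Nat.card_eq_fintype_card, Fintype.card_option, ZMod.card]

theorem pnf_coprime (N p : ℕ) (hN : 1 ≤ N) (hp : p.Prime) (hpN : ¬ p ∣ N) :
    Nat.card (PN (p * N)) ≤ Nat.card (PN N) * (p + 1) := by
  have hN1 : N ∣ p * N := Dvd.intro_left p rfl
  have hp1 : p ∣ p * N := Dvd.intro N rfl
  have := pnf_finite N hN
  have := pnf_finite p hp.one_lt.le
  let f : PN (p * N) → PN N × PN p := fun x => (pnf_red N hN1 x, pnf_red p hp1 x)
  have hcop : IsCoprime (p : ℤ) (N : ℤ) := by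
    rw [Nat.isCoprime_iff_coprime]
    exact (Nat.Prime.coprime_iff_not_dvd hp).2 hpN
  have hf : Function.Injective f := by
    intro x y hxy
    obtain ⟨l1, hl1, a1, b1⟩ := pnf_eqv_of_red hN1 (congrArg Prod.fst hxy)
    obtain ⟨l2, hl2, a2, b2⟩ := pnf_eqv_of_red hp1 (congrArg Prod.snd hxy)
    obtain ⟨u, v, huv⟩ := hcop
    -- `l = l1 u p + l2 v N`
    have e1 : (N : ℤ) ∣ (l1 * (u * p) + l2 * (v * N)) - l1 := by
      refine ⟨l2 * v - l1 * v, ?_⟩
      linear_combination l1 * huv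
    have e2 : (p : ℤ) ∣ (l1 * (u * p) + l2 * (v * N)) - l2 := by
      refine ⟨l1 * u - l2 * u, ?_⟩
      linear_combination l2 * huv
    set l := l1 * (u * p) + l2 * (v * N) with hl
    have hcop' : IsCoprime (p : ℤ) (N : ℤ) := ⟨u, v, huv⟩
    have c1 : IsCoprime l (N : ℤ) := by
      obtain ⟨k, hk⟩ := e1
      have : l = l1 + (N : ℤ) * k := by linarith
      rw [this]
      exact IsCoprime.add_mul_left_left hl1 k
    have c2 : IsCoprime l (p : ℤ) := by
      obtain ⟨k, hk⟩ := e2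
      have : l = l2 + (p : ℤ) * k := by linarith
      rw [this]
      exact IsCoprime.add_mul_left_left hl2 k
    have comb : ∀ (c c' : ℤ), (N : ℤ) ∣ c' - l1 * c → (p : ℤ) ∣ c' - l2 * c →
        ((p * N : ℕ) : ℤ) ∣ c' - l * c := by
      intro c c' h1 h2
      push_cast
      refine hcop'.mul_dvd ?_ ?_
      · have : c' - l * c = (c' - l2 * c) - (l - l2) * c := by ring
        rw [this]
        exact dvd_sub h2 (Dvd.dvd.mul_right e2 c)
      · have : c' - l * c = (c' - l1 * c) - (l - l1) * c := by ring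
        rw [this]
        exact dvd_sub h1 (Dvd.dvd.mul_right e1 c)
    refine pnf_eq_of_eqv ⟨l, ?_, comb _ _ a1 a2, comb _ _ b1 b2⟩
    push_cast
    exact c2.mul_right c1
  calc Nat.card (PN (p * N)) ≤ Nat.card (PN N × PN p) := Nat.card_le_card_of_injective f hf
    _ = Nat.card (PN N) * Nat.card (PN p) := Nat.card_prod _ _
    _ ≤ Nat.card (PN N) * (p + 1) := Nat.mul_le_mul_left _ (pnf_prime p hp)

theorem pnf_dvd (N p : ℕ) (hN : 1 ≤ N) (hp : p.Prime) (hpN : p ∣ N) :
    Nat.card (PN (p * N)) ≤ Nat.card (PN N) * p := by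
  have : Fact p.Prime := ⟨hp⟩
  have hN1 : N ∣ p * N := Dvd.intro_left p rfl
  have := pnf_finite N hN
  have hpN' : (p : ℤ) ∣ (N : ℤ) := by exact_mod_cast hpN
  -- adapted representatives
  have hrep : ∀ x : PN (p * N), ∃ x1 y1 : ℤ,
      eqv (p * N) (pnf_out x).1.1 (pnf_out x).1.2
        ((pnf_out (pnf_red N hN1 x)).1.1 + N * x1) ((pnf_out (pnf_red N hN1 x)).1.2 + N * y1) := by
    intro x
    have h : eqv N (pnf_out x).1.1 (pnf_out x).1.2 (pnf_out (pnf_red N hN1 x)).1.1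
        (pnf_out (pnf_red N hN1 x)).1.2 := by
      have h1 := pnf_out_spec (pnf_red N hN1 x)
      exact eqv_symm (Quotient.exact h1)
    obtain ⟨l, hl, ⟨x1, hx1⟩, ⟨y1, hy1⟩⟩ := h
    refine ⟨-x1, -y1, l, ?_, ?_, ?_⟩
    · push_cast
      exact (hl.of_isCoprime_of_dvd_right hpN').mul_right hl
    · have : (pnf_out (pnf_red N hN1 x)).1.1 + (N : ℤ) * (-x1) - l * (pnf_out x).1.1 = 0 := by
        linarith
      rw [this]
      exact dvd_zero _
    · have : (pnf_out (pnf_red N hN1 x)).1.2 + (N : ℤ) * (-y1) - l * (pnf_out x).1.2 = 0 := by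
        linarith
      rw [this]
      exact dvd_zero _
  choose X Y hXY using hrep
  let f : PN (p * N) → PN N × ZMod p := fun x =>
    (pnf_red N hN1 x, (((pnf_out (pnf_red N hN1 x)).1.1 * Y x
      - (pnf_out (pnf_red N hN1 x)).1.2 * X x : ℤ) : ZMod p))
  have hf : Function.Injective f := by
    intro x y hxy
    have h1 : pnf_red N hN1 x = pnf_red N hN1 y := congrArg Prod.fst hxy
    have h2 := congrArg Prod.snd hxy
    simp only [f] at h2
    have ex := hXY x
    have ey := hXY y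
    rw [h1] at h2 ex
    set c := (pnf_out (pnf_red N hN1 y)).1.1 with hc
    set d := (pnf_out (pnf_red N hN1 y)).1.2 with hd
    have hu : Uni N c d := (pnf_out (pnf_red N hN1 y)).2
    rw [ZMod.intCast_eq_intCast_iff_dvd_sub] at h2
    obtain ⟨a, b, k, hk⟩ := (pnf_uni_iff p c d).1 (pnf_uni_mono hpN hu)
    -- `l = 1 + N t`
    obtain ⟨w, hw⟩ := h2
    have m : eqv (p * N) (c + N * X x) (d + N * Y x) (c + N * X y) (d + N * Y y) := by
      obtain ⟨n, hn⟩ := hpN'
      refine ⟨1 + N * (a * (X y - X x) + b * (Y y - Y x)), ?_, ?_, ?_⟩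
      · have e1 : IsCoprime (1 + (N : ℤ) * (a * (X y - X x) + b * (Y y - Y x))) (N : ℤ) :=
          IsCoprime.add_mul_left_left isCoprime_one_left _
        push_cast
        exact (e1.of_isCoprime_of_dvd_right ⟨n, hn⟩).mul_right e1
      · push_cast
        refine ⟨k * (X y - X x) - b * w - (a * (X y - X x) + b * (Y y - Y x)) * X x * n, ?_⟩
        have hN2 : (N : ℤ) * N = p * N * n := by
          nth_rewrite 1 [hn]
          ring
        linear_combination (N : ℤ) * (X y - X x) * (-hk) - (N : ℤ) * b * hw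
          - (a * (X y - X x) + b * (Y y - Y x)) * X x * hN2
      · push_cast
        refine ⟨k * (Y y - Y x) + a * w - (a * (X y - X x) + b * (Y y - Y x)) * Y x * n, ?_⟩
        have hN2 : (N : ℤ) * N = p * N * n := by
          nth_rewrite 1 [hn]
          ring
        linear_combination (N : ℤ) * (Y y - Y x) * (-hk) + (N : ℤ) * a * hw
          - (a * (X y - X x) + b * (Y y - Y x)) * Y x * hN2
    exact pnf_eq_of_eqv (eqv_trans (eqv_trans ex m) (eqv_symm ey))
  calc Nat.card (PN (p * N)) ≤ Nat.card (PN N × ZMod p) := Nat.card_le_card_of_injective f hf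
    _ = Nat.card (PN N) * p := by rw [Nat.card_prod, Nat.card_zmod]

theorem pnf_upper (N : ℕ) : 1 ≤ N → (Nat.card (PN N) : ℝ) ≤ psi N := by
  induction N using induction_on_primes with
  | zero => intro h; omega
  | one =>
    intro _
    have h1 : Nat.card (PN 1) ≤ 1 := by
      have := pnf_finite 1 le_rfl
      have : Subsingleton (PN 1) := by
        refine ⟨fun x y => pnf_eq_of_eqv ⟨1, isCoprime_one_left, ?_, ?_⟩⟩ <;>
          exact one_dvd _
      exact Finite.card_le_one_iff_subsingleton.2 this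
    have h2 : psi 1 = 1 := by simp [psi]
    rw [h2]
    exact_mod_cast h1
  | prime_mul p N hp ih =>
    intro h
    have hN : 1 ≤ N := by
      rcases Nat.eq_zero_or_pos N with h0 | h0
      · subst h0; simp at h
      · exact h0
    have ih' := ih hN
    have hp0 : (0 : ℝ) < p := by exact_mod_cast hp.pos
    have hN0 : N ≠ 0 := by omega
    by_cases hpN : p ∣ N
    · have h1 : ((Nat.card (PN (p * N)) : ℕ) : ℝ) ≤ (Nat.card (PN N) : ℝ) * p := by
        exact_mod_cast pnf_dvd N p hN hp hpN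
      have h2 : psi (p * N) = psi N * p := by
        unfold psi
        rw [Nat.primeFactors_mul hp.ne_zero hN0, hp.primeFactors,
          union_eq_right.2 (singleton_subset_iff.2 (Nat.mem_primeFactors.2 ⟨hp, hpN, hN0⟩))]
        push_cast
        ring
      rw [h2]
      exact h1.trans (mul_le_mul_of_nonneg_right ih' hp0.le)
    · have h1 : ((Nat.card (PN (p * N)) : ℕ) : ℝ) ≤ (Nat.card (PN N) : ℝ) * (p + 1) := by
        exact_mod_cast pnf_coprime N p hN hp hpN
      have h2 : psi (p * N) = psi N * (p + 1) := by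
        unfold psi
        rw [Nat.primeFactors_mul hp.ne_zero hN0, hp.primeFactors, prod_union]
        · push_cast
          rw [prod_singleton]
          field_simp
        · rw [disjoint_singleton_left, Nat.mem_primeFactors]
          exact fun h => hpN h.2.1
      rw [h2]
      exact h1.trans (mul_le_mul_of_nonneg_right ih' (by positivity))

theorem st_PNF : ST_PNF := fun N hN => ⟨pnf_finite N hN, pnf_le N hN, pnf_upper N hN⟩

end Pool.Agent.Helper96.MP
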